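import Pool.Agent.AMG.Graph

/-!
# Absorbed leaves
-/

set_option autoImplicit false

namespace Pool.Agent.AMG

open Finset Pool.Agent.AMF

/-- **Absorption.** For an inner vertex `w` without inner neighbours absorb two of its leaves; for an inner vertex
`w` with exactly one inner neighbour `u`, where `w` is the only inner neighbour of `u`, absorb one leaf of
`w` (it has degree at least two, so its other neighbours are leaves). All these `w` are in `supp G`. -/
theorem exists_absorb {V : Type} [Fintype V] [DecidableEq V] (G : SimpleGraph V) [DecidableRel G.Adj]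
    (hG : Adm2 G) :
    ∃ A : Finset V, (∀ v ∈ A, G.degree v = 1) ∧ Big (HG G A) ∧ A.card ≤ 2 * (supp G).card := by
  classical
  -- inner neighbours
  set In : V → Finset V := fun w => (G.neighborFinset w).filter fun u => G.degree u ≠ 1 with hIn
  set Lf : V → Finset V := fun w => (G.neighborFinset w).filter fun u => G.degree u = 1 with hLf
  have mIn : ∀ w u, u ∈ In w ↔ G.Adj w u ∧ G.degree u ≠ 1 := by
    intro w u; simp [hIn, SimpleGraph.mem_neighborFinset]
  have mLf : ∀ w u, u ∈ Lf w ↔ G.Adj w u ∧ G.degree u = 1 := by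
    intro w u; simp [hLf, SimpleGraph.mem_neighborFinset]
  have hdeg : ∀ w, (Lf w).card + (In w).card = G.degree w := by
    intro w
    rw [hLf, hIn, ← SimpleGraph.card_neighborFinset_eq_degree]
    exact Finset.card_filter_add_card_filter_not _
  have hd2 : ∀ w, G.degree w ≠ 1 → 2 ≤ G.degree w := by
    intro w hw
    have := hG.1 w
    omega
  have hex : ∀ w, ∃ F : Finset V, F ⊆ Lf w ∧ F.card ≤ 2 ∧
      (G.degree w ≠ 1 → In w = ∅ → F.card = 2) ∧
      (G.degree w ≠ 1 → (∃ u, In w = {u} ∧ In u = {w}) → F.card = 1) ∧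
      (F.Nonempty → G.degree w ≠ 1 ∧ (In w = ∅ ∨ ∃ u, In w = {u} ∧ In u = {w})) := by
    intro w
    by_cases hw : G.degree w ≠ 1
    · by_cases h0 : In w = ∅
      · have h1 : 2 ≤ (Lf w).card := by
          have h2 := hdeg w
          rw [h0, Finset.card_empty] at h2
          have := hd2 w hw
          omega
        obtain ⟨F, hF, hc⟩ := Finset.exists_subset_card_eq h1
        refine ⟨F, hF, hc.le, fun _ _ => hc, fun _ hu => ?_, fun _ => ⟨hw, Or.inl h0⟩⟩
        obtain ⟨u, hu, _⟩ := hu
        rw [h0] at hu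
        exact absurd hu.symm (Finset.singleton_ne_empty u)
      · by_cases h1 : ∃ u, In w = {u} ∧ In u = {w}
        · have h2 : 1 ≤ (Lf w).card := by
            obtain ⟨u, hu, _⟩ := h1
            have h2 := hdeg w
            rw [hu, Finset.card_singleton] at h2
            have := hd2 w hw
            omega
          obtain ⟨F, hF, hc⟩ := Finset.exists_subset_card_eq h2
          exact ⟨F, hF, by omega, fun _ h => absurd h h0, fun _ _ => hc, fun _ => ⟨hw, Or.inr h1⟩⟩
        · exact ⟨∅, Finset.empty_subset _, by simp, fun _ h => absurd h h0,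
            fun _ h => absurd h h1, fun h => absurd h Finset.not_nonempty_empty⟩
    · exact ⟨∅, Finset.empty_subset _, by simp, fun h => absurd h hw,
        fun h => absurd h hw, fun h => absurd h Finset.not_nonempty_empty⟩
  choose f hf1 hf2 hf3 hf4 hf5 using hex
  set A : Finset V := (supp G).biUnion f with hA
  have memA : ∀ w x, x ∈ f w → x ∈ A := by
    intro w x hx
    rw [hA, Finset.mem_biUnion]
    refine ⟨w, ?_, hx⟩
    rw [supp, Finset.mem_filter]
    have h1 := (mLf w x).1 (hf1 w hx)
    exact ⟨Finset.mem_univ _, (hf5 w ⟨x, hx⟩).1, x, h1⟩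
  have ofA : ∀ x ∈ A, ∃ w, x ∈ f w := by
    intro x hx
    rw [hA, Finset.mem_biUnion] at hx
    obtain ⟨w, _, hx⟩ := hx
    exact ⟨w, hx⟩
  -- a leaf has one neighbour
  have huniq : ∀ x u v, G.degree x = 1 → G.Adj x u → G.Adj x v → u = v := by
    intro x u v hx hu hv
    rw [← SimpleGraph.card_neighborFinset_eq_degree, Finset.card_eq_one] at hx
    obtain ⟨a, ha⟩ := hx
    have h1 : u ∈ G.neighborFinset x := (SimpleGraph.mem_neighborFinset _ _ _).2 hu
    have h2 : v ∈ G.neighborFinset x := (SimpleGraph.mem_neighborFinset _ _ _).2 hv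
    rw [ha, Finset.mem_singleton] at h1 h2
    rw [h1, h2]
  have hleaf : ∀ v ∈ A, G.degree v = 1 := by
    intro v hv
    obtain ⟨w, hw⟩ := ofA v hv
    exact ((mLf w v).1 (hf1 w hw)).2
  -- an absorbed leaf `u` at `v`: there is a further vertex
  have key : ∀ u v, u ∈ A → G.Adj u v → ∃ x, InW G A x ∧ x ≠ u ∧ x ≠ v ∧ G.Adj v x := by
    intro u v hu huv
    obtain ⟨w, hw⟩ := ofA u hu
    have h1 := (mLf w u).1 (hf1 w hw)
    have hwv : w = v := huniq u w v (hleaf u hu) h1.1.symm huv
    subst hwv
    obtain ⟨h2, h3 | ⟨y, hy, _⟩⟩ := hf5 w ⟨u, hw⟩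
    · have h4 := hf3 w h2 h3
      have h5 : 1 < (f w).card := by omega
      obtain ⟨x, hx, hxu⟩ := Finset.exists_mem_ne h5 u
      have h6 := (mLf w x).1 (hf1 w hx)
      exact ⟨x, Or.inl (memA w x hx), hxu, h6.1.ne', h6.1⟩
    · have h4 : y ∈ In w := by rw [hy]; exact Finset.mem_singleton_self y
      have h5 := (mIn w y).1 h4
      exact ⟨y, Or.inr h5.2, fun h => h5.2 (h ▸ hleaf u hu), h5.1.ne', h5.1⟩
  refine ⟨A, hleaf, ⟨?_, ?_⟩, ?_⟩
  · rintro ⟨w, hw⟩
    by_cases hwA : w ∈ A
    · obtain ⟨v, hv⟩ := ofA w hwA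
      have h1 := (mLf v w).1 (hf1 v hv)
      exact ⟨⟨v, Or.inr (hf5 v ⟨w, hv⟩).1⟩, h1.1.symm⟩
    · have hw1 : G.degree w ≠ 1 := hw.resolve_left hwA
      by_cases h0 : In w = ∅
      · have h1 := hf3 w hw1 h0
        have h2 : (f w).Nonempty := by rw [← Finset.card_pos]; omega
        obtain ⟨x, hx⟩ := h2
        have h3 := (mLf w x).1 (hf1 w hx)
        exact ⟨⟨x, Or.inl (memA w x hx)⟩, h3.1⟩
      · obtain ⟨u, hu⟩ := Finset.nonempty_iff_ne_empty.2 h0
        have h1 := (mIn w u).1 hu
        exact ⟨⟨u, Or.inr h1.2⟩, h1.1⟩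
  · rintro ⟨u, hu⟩ ⟨v, hv⟩ huv
    have huv' : G.Adj u v := huv
    by_cases huA : u ∈ A
    · obtain ⟨x, hx, h1, h2, h3⟩ := key u v huA huv'
      exact ⟨⟨x, hx⟩, fun h => h1 (congrArg Subtype.val h), fun h => h2 (congrArg Subtype.val h),
        Or.inr h3⟩
    · by_cases hvA : v ∈ A
      · obtain ⟨x, hx, h1, h2, h3⟩ := key v u hvA huv'.symm
        exact ⟨⟨x, hx⟩, fun h => h2 (congrArg Subtype.val h), fun h => h1 (congrArg Subtype.val h),
          Or.inl h3⟩
      · have hu1 : G.degree u ≠ 1 := hu.resolve_left huA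
        have hv1 : G.degree v ≠ 1 := hv.resolve_left hvA
        have hvu : v ∈ In u := (mIn u v).2 ⟨huv', hv1⟩
        have huv1 : u ∈ In v := (mIn v u).2 ⟨huv'.symm, hu1⟩
        by_cases h1 : In u = {v}
        · by_cases h2 : In v = {u}
          · have h3 := hf4 u hu1 ⟨v, h1, h2⟩
            have h4 : (f u).Nonempty := by rw [← Finset.card_pos]; omega
            obtain ⟨x, hx⟩ := h4
            have h5 := (mLf u x).1 (hf1 u hx)
            exact ⟨⟨x, Or.inl (memA u x hx)⟩,
              fun h => h5.1.ne' (congrArg Subtype.val h),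
              fun h => hv1 (by
                have h' : x = v := congrArg Subtype.val h
                rw [← h']; exact h5.2), Or.inl h5.1⟩
          · have h3 : ∃ x ∈ In v, x ≠ u := by
              by_contra hcon
              push Not at hcon
              exact h2 (Finset.eq_singleton_iff_unique_mem.2 ⟨huv1, hcon⟩)
            obtain ⟨x, hx, hxu⟩ := h3
            have h5 := (mIn v x).1 hx
            exact ⟨⟨x, Or.inr h5.2⟩, fun h => hxu (congrArg Subtype.val h),
              fun h => h5.1.ne' (congrArg Subtype.val h), Or.inr h5.1⟩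
        · have h3 : ∃ x ∈ In u, x ≠ v := by
            by_contra hcon
            push Not at hcon
            exact h1 (Finset.eq_singleton_iff_unique_mem.2 ⟨hvu, hcon⟩)
          obtain ⟨x, hx, hxv⟩ := h3
          have h5 := (mIn u x).1 hx
          exact ⟨⟨x, Or.inr h5.2⟩, fun h => h5.1.ne' (congrArg Subtype.val h),
            fun h => hxv (congrArg Subtype.val h), Or.inl h5.1⟩
  · calc A.card ≤ ∑ w ∈ supp G, (f w).card := Finset.card_biUnion_le
      _ ≤ ∑ _w ∈ supp G, 2 := Finset.sum_le_sum fun w _ => hf2 w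
      _ = 2 * (supp G).card := by rw [Finset.sum_const, smul_eq_mul, mul_comm]

end Pool.Agent.AMG
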