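import Mathlib

/-!
# Alternating low and high labels: load
-/

set_option autoImplicit false

namespace Pool.Agent.AMG

open Finset

private theorem AltLoad_enum {R : Type*} [Fintype R] (w : R → ℕ) :
    ∃ e : R ≃ Fin (Fintype.card R), ∀ u v, (e u).val < (e v).val → w u ≤ w v := by
  classical
  let e : R ≃ Fin (Fintype.card R) := Fintype.equivFin R
  let f : Fin (Fintype.card R) → ℕ := fun i => w (e.symm i)
  have hmono : Monotone (f ∘ Tuple.sort f) := Tuple.monotone_sort f
  refine ⟨e.trans (Tuple.sort f).symm, fun u v h => ?_⟩
  have := hmono (a := (Tuple.sort f).symm (e u)) (b := (Tuple.sort f).symm (e v))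
    (Fin.le_def.2 (le_of_lt h))
  simpa [f] using this

/-- `R` sorted by `(π v).val`; the vertices at odd places are low, the others are high. There is such a
choice `hi : R → Bool` with the following property: whatever labels `b` the vertices get, if the labels of
low vertices are in `[lo0, lo)` and the ones of high vertices in `[lo + N, lo0 + len)`, then for every residue
`s` at most `|R| / 2 + 2` vertices `v` satisfy `π v + b v + x = s` for some `x ∈ [lo, lo + N)`; moreover there are at most
`|R| / 2 + 1` low vertices and at most `|R| / 2` high ones. Proof as in `AMC/AltSort.lean`: if both members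
of the pair number `i` (places `2 i - 1`, `2 i`) satisfy this, the difference of their values
`(π v).val` is `> p - N - len ≥ p / 2`, which happens for at most one `i`. -/
theorem altload {R : Type*} [Fintype R] [DecidableEq R] (p : ℕ) [NeZero p] (π : R → ZMod p)
    (N lo lo0 len : ℕ) (hp : 2 * (N + len) < p) :
    ∃ hi : R → Bool, 2 * (univ.filter fun v => hi v = true).card ≤ Fintype.card R ∧
      2 * (univ.filter fun v => hi v = false).card ≤ Fintype.card R + 1 ∧
      ∀ b : R → ℕ, (∀ v, hi v = false → lo0 ≤ b v ∧ b v < lo) →
        (∀ v, hi v = true → lo + N ≤ b v ∧ b v < lo0 + len) →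
        ∀ s : ZMod p, 2 * (open Classical in (univ.filter fun v => ∃ x : ℕ, lo ≤ x ∧ x < lo + N ∧
          π v + (b v : ZMod p) + (x : ZMod p) = s).card) ≤ Fintype.card R + 4 := by
  classical
  obtain ⟨e, he⟩ := AltLoad_enum (fun v => (π v).val)
  replace he : ∀ u v, (e u).val < (e v).val → (π u).val ≤ (π v).val := he
  obtain ⟨n, hn⟩ : ∃ n, n = Fintype.card R := ⟨_, rfl⟩
  have hinj : ∀ u v, (e u).val = (e v).val → u = v := fun u v h => e.injective (Fin.ext h)
  have hlt : ∀ v, (e v).val < n := fun v => by rw [hn]; exact (e v).isLt
  refine ⟨fun v => decide ((e v).val % 2 = 1), ?_, ?_, ?_⟩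
  · have h1 : (univ.filter fun v => decide ((e v).val % 2 = 1) = true).card ≤ (range (n / 2)).card := by
      apply Finset.card_le_card_of_injOn (fun v => (e v).val / 2)
      · intro v hv
        simp only [coe_filter, mem_univ, true_and, decide_eq_true_eq, Set.mem_ofPred_eq] at hv
        simp only [coe_range, Set.mem_Iio]
        have := hlt v
        omega
      · intro u hu v hv h
        simp only [coe_filter, mem_univ, true_and, decide_eq_true_eq, Set.mem_ofPred_eq] at hu hv
        simp only at h
        exact hinj u v (by omega)
    rw [card_range] at h1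
    change 2 * (univ.filter fun v => decide ((e v).val % 2 = 1) = true).card ≤ _
    omega
  · have h1 : (univ.filter fun v => decide ((e v).val % 2 = 1) = false).card ≤ (range ((n + 1) / 2)).card := by
      apply Finset.card_le_card_of_injOn (fun v => (e v).val / 2)
      · intro v hv
        simp only [coe_filter, mem_univ, true_and, decide_eq_false_iff_not, Set.mem_ofPred_eq] at hv
        simp only [coe_range, Set.mem_Iio]
        have := hlt v
        omega
      · intro u hu v hv h
        simp only [coe_filter, mem_univ, true_and, decide_eq_false_iff_not, Set.mem_ofPred_eq] at hu hv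
        simp only at h
        exact hinj u v (by omega)
    rw [card_range] at h1
    change 2 * (univ.filter fun v => decide ((e v).val % 2 = 1) = false).card ≤ _
    omega
  · intro b hlo hhi s
    set S := univ.filter fun v => ∃ x : ℕ, lo ≤ x ∧ x < lo + N ∧
          π v + (b v : ZMod p) + (x : ZMod p) = s with hS
    set S0 := S.filter fun v => (e v).val % 2 = 0 with hS0
    set S1 := S.filter fun v => ¬ (e v).val % 2 = 0 with hS1
    set U := S0.image fun v => (e v).val / 2 with hU
    set V := S1.image fun v => (e v).val / 2 with hV
    have hcard : S0.card + S1.card = S.card := Finset.card_filter_add_card_filter_not _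
    have hUc : U.card = S0.card := by
      apply Finset.card_image_of_injOn
      intro u hu v hv h
      simp only [hS0, coe_filter, Set.mem_ofPred_eq] at hu hv
      simp only at h
      exact hinj u v (by omega)
    have hVc : V.card = S1.card := by
      apply Finset.card_image_of_injOn
      intro u hu v hv h
      simp only [hS1, coe_filter, Set.mem_ofPred_eq] at hu hv
      simp only at h
      exact hinj u v (by omega)
    have hUV : (U ∪ V).card ≤ (n + 1) / 2 := by
      rw [← card_range ((n + 1) / 2)]
      apply Finset.card_le_card
      intro t ht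
      rw [mem_union, hU, hV, mem_image, mem_image] at ht
      rw [mem_range]
      rcases ht with ⟨v, hv, rfl⟩ | ⟨v, hv, rfl⟩
      · have := hlt v; omega
      · have := hlt v; omega
    have hpval : ∀ v : R, (((π v).val : ℕ) : ZMod p) = π v := fun v => ZMod.natCast_zmod_val (π v)
    have hvlt : ∀ v : R, (π v).val < p := fun v => ZMod.val_lt (π v)
    have hkey : ∀ t ∈ U ∩ V, ∃ u v, (e u).val = 2 * t ∧ (e v).val = 2 * t + 1 ∧
        (π u).val < N + len ∧ p < (π v).val + N + len := by
      intro t ht
      rw [mem_inter, hU, hV, mem_image, mem_image] at ht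
      obtain ⟨⟨u, hu, hut⟩, ⟨v, hv, hvt⟩⟩ := ht
      rw [hS0, mem_filter, hS, mem_filter] at hu
      rw [hS1, mem_filter, hS, mem_filter] at hv
      obtain ⟨⟨-, x, hx1, hx2, hx3⟩, hu2⟩ := hu
      obtain ⟨⟨-, x', hx1', hx2', hx3'⟩, hv2⟩ := hv
      have hu3 : (e u).val = 2 * t := by omega
      have hv3 : (e v).val = 2 * t + 1 := by omega
      refine ⟨u, v, hu3, hv3, ?_⟩
      have hm : (π u).val + b u + x ≡ (π v).val + b v + x' [MOD p] := by
        rw [← ZMod.natCast_eq_natCast_iff]
        push_cast
        rw [hpval, hpval, hx3, hx3']
      have e1 := he u v (by omega)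
      have e2 := hlo u (by rw [decide_eq_false_iff_not]; omega)
      have e3 := hhi v (by rw [decide_eq_true_eq]; omega)
      have e4 := hvlt v
      have hlt' : (π u).val + b u + x < (π v).val + b v + x' := by omega
      have := Nat.le_of_dvd (by omega) ((Nat.modEq_iff_dvd' hlt'.le).1 hm)
      omega
    have hI : (U ∩ V).card ≤ 1 := by
      rw [Finset.card_le_one]
      intro i hi j hj
      by_contra hne
      obtain ⟨u, v, h1, h2, h3, h4⟩ := hkey i hi
      obtain ⟨u', v', h1', h2', h3', h4'⟩ := hkey j hj
      rcases lt_or_gt_of_ne hne with h | h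
      · have := he v u' (by omega)
        omega
      · have := he v' u (by omega)
        omega
    have := Finset.card_union_add_card_inter U V
    omega

end Pool.Agent.AMG
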