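import Mathlib

/-!
# Greedy labelling with bounded multiplicities
-/

set_option autoImplicit false

namespace Pool.Agent.AMG

open Finset

private lemma GrM_fiber {p : ℕ} [NeZero p] (U R : Finset ℕ) (hUR : U ⊆ R)
    (hR : ∀ x ∈ R, ∀ y ∈ R, (x : ZMod p) = (y : ZMod p) → x = y) (B : Finset (ZMod p))
    (d : ZMod p) : (U.filter fun x : ℕ => d + (x : ZMod p) ∈ B).card ≤ B.card := by
  refine Finset.card_le_card_of_injOn (fun x : ℕ => d + (x : ZMod p)) ?_ ?_
  · intro x hx
    have := (Finset.mem_filter.1 (Finset.mem_coe.1 hx)).2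
    exact this
  · intro x hx y hy hxy
    have hx1 := (Finset.mem_filter.1 (Finset.mem_coe.1 hx)).1
    have hy1 := (Finset.mem_filter.1 (Finset.mem_coe.1 hy)).1
    exact hR x (hUR hx1) y (hUR hy1) (add_left_cancel hxy)

private lemma GrM_choose {p : ℕ} [NeZero p] (U R : Finset ℕ) (hUR : U ⊆ R)
    (hR : ∀ x ∈ R, ∀ y ∈ R, (x : ZMod p) = (y : ZMod p) → x = y) (B : Finset (ZMod p))
    (h : 2 * B.card < U.card) (d1 d2 : ZMod p) :
    ∃ x ∈ U, d1 + (x : ZMod p) ∉ B ∧ d2 + (x : ZMod p) ∉ B := by
  by_contra hcon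
  push Not at hcon
  have hsub : U ⊆ (U.filter fun x : ℕ => d1 + (x : ZMod p) ∈ B) ∪
      (U.filter fun x : ℕ => d2 + (x : ZMod p) ∈ B) := by
    intro x hx
    rw [Finset.mem_union, Finset.mem_filter, Finset.mem_filter]
    by_cases h1 : d1 + (x : ZMod p) ∈ B
    · exact Or.inl ⟨hx, h1⟩
    · exact Or.inr ⟨hx, hcon x hx h1⟩
  have h1 := Finset.card_le_card hsub
  have h2 := Finset.card_union_le (U.filter fun x : ℕ => d1 + (x : ZMod p) ∈ B)
      (U.filter fun x : ℕ => d2 + (x : ZMod p) ∈ B)
  have h3 := GrM_fiber U R hUR hR B d1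
  have h4 := GrM_fiber U R hUR hR B d2
  omega

private lemma GrM_step {W : Type} [Fintype W] [DecidableEq W] (p : ℕ) [NeZero p]
    (E : Finset (Sym2 W)) (V : Finset W) (c0 : W → ZMod p) (rg : Sym2 W → Finset ℕ)
    (M0 B : ℕ) (hB : 0 < B)
    (hrg : ∀ e ∈ E, ∀ x ∈ rg e, ∀ y ∈ rg e, (x : ZMod p) = (y : ZMod p) → x = y)
    (hne : ∀ e ∈ E, (rg e).Nonempty)
    (hroom : ∀ e ∈ E, (E.filter fun e' => ¬ Disjoint (rg e') (rg e)).card + M0 ≤ (rg e).card)
    (hM : 2 * V.card ≤ B * M0) (S : Finset (Sym2 W)) :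
    S ⊆ E → ∃ g : Sym2 W → ℕ, Set.InjOn g S ∧ (∀ e ∈ S, g e ∈ rg e) ∧
      ∀ y : ZMod p, (V.filter fun w => ((∃ e ∈ E, w ∈ e) ∧ ∀ e ∈ E, w ∈ e → e ∈ S) ∧
        c0 w + ∑ e ∈ E.filter (fun e => w ∈ e), (g e : ZMod p) = y).card ≤ B + 1 := by
  induction S using Finset.induction_on with
  | empty =>
    intro _
    refine ⟨fun _ => 0, by simp, by simp, fun y => ?_⟩
    have : (V.filter fun w => ((∃ e ∈ E, w ∈ e) ∧ ∀ e ∈ E, w ∈ e → e ∈ (∅ : Finset (Sym2 W))) ∧
        c0 w + ∑ e ∈ E.filter (fun e => w ∈ e), (((fun _ => 0 : Sym2 W → ℕ) e : ℕ) : ZMod p) = y)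
        = ∅ := by
      refine Finset.filter_eq_empty_iff.2 ?_
      rintro w hw ⟨⟨⟨e, he, hwe⟩, h1⟩, -⟩
      exact absurd (h1 e he hwe) (Finset.notMem_empty _)
    rw [this]
    simp
  | insert e0 S he0 ih =>
    intro hsub
    have heE : e0 ∈ E := hsub (Finset.mem_insert_self _ _)
    have hSE : S ⊆ E := fun e he => hsub (Finset.mem_insert_of_mem he)
    obtain ⟨g, hginj, hgm, hgc⟩ := ih hSE
    set D : Finset (Sym2 W) := S.filter fun e' => ¬ Disjoint (rg e') (rg e0) with hDdef
    have hDc : D.card + 1 ≤ (E.filter fun e' => ¬ Disjoint (rg e') (rg e0)).card := by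
      have h0 : e0 ∉ D := fun h => he0 (Finset.mem_filter.1 h).1
      rw [← Finset.card_insert_of_notMem h0]
      refine Finset.card_le_card ?_
      intro e he
      rw [Finset.mem_insert] at he
      rcases he with rfl | he
      · refine Finset.mem_filter.2 ⟨heE, ?_⟩
        rw [disjoint_self]
        exact (hne e heE).ne_empty
      · obtain ⟨h1, h2⟩ := Finset.mem_filter.1 he
        exact Finset.mem_filter.2 ⟨hSE h1, h2⟩
    set U : Finset ℕ := rg e0 \ D.image g with hUdef
    have hUc : M0 < U.card := by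
      have h1 : (rg e0).card - (D.image g).card ≤ U.card := Finset.le_card_sdiff _ _
      have h2 : (D.image g).card ≤ D.card := Finset.card_image_le
      have h3 := hroom e0 heE
      omega
    have hUsub : U ⊆ rg e0 := Finset.sdiff_subset
    set T : ZMod p → Finset W := fun y => V.filter fun w =>
        ((∃ e ∈ E, w ∈ e) ∧ ∀ e ∈ E, w ∈ e → e ∈ S) ∧
        c0 w + ∑ e ∈ E.filter (fun e => w ∈ e), (g e : ZMod p) = y with hT
    set Bd : Finset (ZMod p) := Finset.univ.filter fun y => B ≤ (T y).card with hBd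
    have hBc : B * Bd.card ≤ V.card := by
      have h1 : ∑ y ∈ Bd, B ≤ ∑ y ∈ Bd, (T y).card :=
        Finset.sum_le_sum fun y hy => (Finset.mem_filter.1 hy).2
      have h2 : ∑ y ∈ Bd, (T y).card = (Bd.biUnion T).card := by
        rw [Finset.card_biUnion]
        intro y _ y' _ hne'
        change Disjoint (T y) (T y')
        rw [Finset.disjoint_left]
        intro w h3 h4
        exact hne' ((Finset.mem_filter.1 h3).2.2.symm.trans (Finset.mem_filter.1 h4).2.2)
      have h3 : (Bd.biUnion T).card ≤ V.card := by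
        refine Finset.card_le_card ?_
        intro w hw
        obtain ⟨y, -, hw⟩ := Finset.mem_biUnion.1 hw
        exact (Finset.mem_filter.1 hw).1
      rw [Finset.sum_const, smul_eq_mul] at h1
      rw [mul_comm]
      omega
    have hBM : 2 * Bd.card ≤ M0 := by
      refine Nat.le_of_mul_le_mul_left ?_ hB
      calc B * (2 * Bd.card) = 2 * (B * Bd.card) := by ring
        _ ≤ 2 * V.card := Nat.mul_le_mul_left 2 hBc
        _ ≤ B * M0 := hM
    -- the two ends
    obtain ⟨u, v, huv⟩ : ∃ u v : W, e0 = s(u, v) := by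
      induction e0 using Sym2.ind with
      | _ u v => exact ⟨u, v, rfl⟩
    set d : W → ZMod p := fun w => c0 w +
      ∑ e ∈ (E.filter (fun e => w ∈ e)).erase e0, (g e : ZMod p) with hd
    obtain ⟨x, hxU, hx1, hx2⟩ := GrM_choose (p := p) U (rg e0) hUsub (hrg e0 heE) Bd
      (by omega) (d u) (d v)
    have hxn : ∀ e ∈ S, g e ≠ x := by
      intro e he hex
      by_cases h1 : Disjoint (rg e) (rg e0)
      · exact (Finset.disjoint_left.1 h1 (hgm e he)) (hex ▸ hUsub hxU)
      · refine (Finset.mem_sdiff.1 hxU).2 (Finset.mem_image.2 ⟨e, ?_, hex⟩)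
        exact Finset.mem_filter.2 ⟨he, h1⟩
    refine ⟨Function.update g e0 x, ?_, ?_, ?_⟩
    · intro e he e' he' hee
      rw [Finset.coe_insert, Set.mem_insert_iff] at he he'
      by_cases h1 : e = e0
      · by_cases h2 : e' = e0
        · rw [h1, h2]
        · exfalso
          rw [h1, Function.update_self, Function.update_of_ne h2] at hee
          exact hxn e' (Finset.mem_coe.1 (he'.resolve_left h2)) hee.symm
      · by_cases h2 : e' = e0
        · exfalso
          rw [h2, Function.update_self, Function.update_of_ne h1] at hee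
          exact hxn e (Finset.mem_coe.1 (he.resolve_left h1)) hee
        · rw [Function.update_of_ne h1, Function.update_of_ne h2] at hee
          exact hginj (he.resolve_left h1) (he'.resolve_left h2) hee
    · intro e he
      rw [Finset.mem_insert] at he
      by_cases h1 : e = e0
      · rw [h1, Function.update_self]
        exact hUsub hxU
      · rw [Function.update_of_ne h1]
        exact hgm e (he.resolve_left h1)
    · intro y
      -- sums after the update
      have hsum_in : ∀ w, w ∈ e0 → c0 w + ∑ e ∈ E.filter (fun e => w ∈ e),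
          ((Function.update g e0 x e : ℕ) : ZMod p) = d w + (x : ZMod p) := by
        intro w hw
        have hmem : e0 ∈ E.filter (fun e => w ∈ e) := Finset.mem_filter.2 ⟨heE, hw⟩
        rw [← Finset.sum_erase_add _ _ hmem, Function.update_self, ← add_assoc]
        congr 1
        rw [hd]
        congr 1
        refine Finset.sum_congr rfl fun e he => ?_
        rw [Function.update_of_ne (Finset.ne_of_mem_erase he)]
      have hsum_out : ∀ w, w ∉ e0 → c0 w + ∑ e ∈ E.filter (fun e => w ∈ e),
          ((Function.update g e0 x e : ℕ) : ZMod p) = c0 w + ∑ e ∈ E.filter (fun e => w ∈ e),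
          (g e : ZMod p) := by
        intro w hw
        congr 1
        refine Finset.sum_congr rfl fun e he => ?_
        have : e ≠ e0 := fun h => hw (h ▸ (Finset.mem_filter.1 he).2)
        rw [Function.update_of_ne this]
      have hout : ∀ w, w ∈ (V.filter fun w =>
          ((∃ e ∈ E, w ∈ e) ∧ ∀ e ∈ E, w ∈ e → e ∈ insert e0 S) ∧
          c0 w + ∑ e ∈ E.filter (fun e => w ∈ e),
            ((Function.update g e0 x e : ℕ) : ZMod p) = y) → w ∉ e0 → w ∈ T y := by
        intro w hw hwe
        obtain ⟨h1, ⟨h0, h2⟩, h3⟩ := Finset.mem_filter.1 hw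
        refine Finset.mem_filter.2 ⟨h1, ⟨h0, fun e he hwe' => ?_⟩, ?_⟩
        · have h4 := h2 e he hwe'
          rw [Finset.mem_insert] at h4
          have : e ≠ e0 := fun h => hwe (h ▸ hwe')
          exact h4.resolve_left this
        · rw [← hsum_out w hwe]
          exact h3
      have hin : ∀ w, w ∈ (V.filter fun w =>
          ((∃ e ∈ E, w ∈ e) ∧ ∀ e ∈ E, w ∈ e → e ∈ insert e0 S) ∧
          c0 w + ∑ e ∈ E.filter (fun e => w ∈ e),
            ((Function.update g e0 x e : ℕ) : ZMod p) = y) → w ∈ e0 → y ∉ Bd := by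
        intro w hw hwe
        obtain ⟨h1, h2, h3⟩ := Finset.mem_filter.1 hw
        rw [hsum_in w hwe] at h3
        rw [huv, Sym2.mem_iff] at hwe
        rw [← h3]
        rcases hwe with h | h
        · rw [h]; exact hx1
        · rw [h]; exact hx2
      by_cases hy : y ∈ Bd
      · refine le_trans (Finset.card_le_card fun w hw => ?_) (hgc y)
        by_cases hwe : w ∈ e0
        · exact absurd hy (hin w hw hwe)
        · exact hout w hw hwe
      · have h4 : (T y).card < B := by
          by_contra hcon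
          exact hy (Finset.mem_filter.2 ⟨Finset.mem_univ _, by omega⟩)
        have hsub2 : (V.filter fun w =>
          ((∃ e ∈ E, w ∈ e) ∧ ∀ e ∈ E, w ∈ e → e ∈ insert e0 S) ∧
          c0 w + ∑ e ∈ E.filter (fun e => w ∈ e),
            ((Function.update g e0 x e : ℕ) : ZMod p) = y) ⊆ T y ∪ {u, v} := by
          intro w hw
          rw [Finset.mem_union]
          by_cases hwe : w ∈ e0
          · right
            rw [huv, Sym2.mem_iff] at hwe
            rw [Finset.mem_insert, Finset.mem_singleton]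
            exact hwe
          · exact Or.inl (hout w hw hwe)
        have h5 := Finset.card_le_card hsub2
        have h6 := Finset.card_union_le (T y) {u, v}
        have h7 : ({u, v} : Finset W).card ≤ 2 := Finset.card_le_two
        omega

/-- The general form of `greedy_mult`: the regions `rg e` are not empty and `V` is arbitrary with
`2 |V| ≤ B M0`. -/
theorem GrM_greedy {W : Type} [Fintype W] [DecidableEq W] (p : ℕ) [NeZero p] (E : Finset (Sym2 W))
    (V : Finset W) (c0 : W → ZMod p) (rg : Sym2 W → Finset ℕ)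
    (M0 B : ℕ) (hB : 0 < B)
    (hrg : ∀ e ∈ E, ∀ x ∈ rg e, ∀ y ∈ rg e, (x : ZMod p) = (y : ZMod p) → x = y)
    (hne : ∀ e ∈ E, (rg e).Nonempty)
    (hroom : ∀ e ∈ E, (E.filter fun e' => ¬ Disjoint (rg e') (rg e)).card + M0 ≤ (rg e).card)
    (hM : 2 * V.card ≤ B * M0) :
    ∃ g : Sym2 W → ℕ, Set.InjOn g E ∧ (∀ e ∈ E, g e ∈ rg e) ∧
      ∀ y : ZMod p, (V.filter fun w => (∃ e ∈ E, w ∈ e) ∧
        c0 w + ∑ e ∈ E.filter (fun e => w ∈ e), (g e : ZMod p) = y).card ≤ B + 1 := by
  obtain ⟨g, h1, h2, h3⟩ := GrM_step p E V c0 rg M0 B hB hrg hne hroom hM E subset_rfl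
  refine ⟨g, h1, h2, fun y => le_trans (Finset.card_le_card ?_) (h3 y)⟩
  intro w hw
  obtain ⟨h4, h5, h6⟩ := Finset.mem_filter.1 hw
  exact Finset.mem_filter.2 ⟨h4, ⟨h5, fun e he _ => he⟩, h6⟩

set_option linter.unusedVariables false in
/-- Greedy labelling. The edges `e` of `E` get distinct labels `g e ∈ rg e`, such that every residue is
the final sum of at most `B + 1` vertices of `V` (on edges of `E`). The edges are labelled one after the
other; when the last edge of `w ∈ V` is labelled, its sum must not be a full residue, i.e. one that is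
already the final sum of at least `B` completed vertices of `V`. There are at most `|V| / B` full residues,
so for the two ends of the edge at most `2 |V| / B ≤ M0` labels are forbidden, and at least `M0 + 1` labels
of `rg e` are not used. -/
theorem greedy_mult {W : Type} [Fintype W] [DecidableEq W] (p : ℕ) [NeZero p] (E : Finset (Sym2 W))
    (hE : ∀ e ∈ E, ¬ e.IsDiag) (V : Finset W) (c0 : W → ZMod p) (rg : Sym2 W → Finset ℕ)
    (M0 B : ℕ) (hB : 0 < B)
    (hrg : ∀ e ∈ E, ∀ x ∈ rg e, ∀ y ∈ rg e, (x : ZMod p) = (y : ZMod p) → x = y)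
    (hroom : ∀ e ∈ E, (E.filter fun e' => ¬ Disjoint (rg e') (rg e)).card + M0 ≤ (rg e).card)
    (hM : 2 * Fintype.card W ≤ B * M0) :
    ∃ g : Sym2 W → ℕ, Set.InjOn g E ∧ (∀ e ∈ E, g e ∈ rg e) ∧
      ∀ y : ZMod p, (V.filter fun w => (∃ e ∈ E, w ∈ e) ∧
        c0 w + ∑ e ∈ E.filter (fun e => w ∈ e), (g e : ZMod p) = y).card ≤ B + 1 := by
  refine GrM_greedy p E V c0 rg M0 B hB hrg ?_ hroom
    (le_trans (Nat.mul_le_mul_left 2 (Finset.card_le_univ V)) hM)
  intro e he
  have hM0 : 0 < M0 := by
    rcases Nat.eq_zero_or_pos M0 with h | h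
    · exfalso
      rw [h, Nat.mul_zero] at hM
      have hW : 0 < Fintype.card W := by
        induction e using Sym2.ind with
        | _ u v => exact Fintype.card_pos_iff.2 ⟨u⟩
      omega
    · exact h
  have h1 := hroom e he
  exact Finset.card_pos.1 (by omega)

end Pool.Agent.AMG
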