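import Pool.Agent.AMG.Ind3
import Pool.Agent.AMG.AltLoad
import Pool.Agent.AMG.GrM

/-!
# Background labels with reduced load
-/

set_option autoImplicit false

namespace Pool.Agent.AMG

open Finset

private theorem Bg2_step0 {α : Type*} [DecidableEq α] (F : Finset α) (a : ℕ) :
    ∃ g : α → ℕ, Set.InjOn g F ∧ ∀ e ∈ F, a < g e ∧ g e ≤ a + F.card := by
  classical
  refine ⟨fun e => if h : e ∈ F then a + 1 + (F.equivFin ⟨e, h⟩ : ℕ) else 0, ?_, ?_⟩
  · intro x hx y hy hxy
    have hx' : x ∈ F := hx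
    have hy' : y ∈ F := hy
    simp only [dif_pos hx', dif_pos hy'] at hxy
    have h1 : (F.equivFin ⟨x, hx'⟩ : ℕ) = (F.equivFin ⟨y, hy'⟩ : ℕ) := by omega
    have h2 := F.equivFin.injective (Fin.ext h1)
    exact congrArg Subtype.val h2
  · intro e he
    simp only [dif_pos he]
    have := (F.equivFin ⟨e, he⟩).2
    omega

private theorem Bg2_modinj {p x y l k : ℕ} (hx : l ≤ x) (hx' : x < l + k) (hy : l ≤ y)
    (hy' : y < l + k) (hk : k ≤ p) (h : (x : ZMod p) = (y : ZMod p)) : x = y := by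
  have h1 := (ZMod.natCast_eq_natCast_iff x y p).1 h
  refine Nat.ModEq.eq_of_abs_lt h1 ?_
  rw [abs_lt]
  constructor <;> omega

/-- the load of `R` from the load of `R1` -/
private theorem Bg2_count {W : Type} [DecidableEq W] (R R1 : Finset W) (hsub : R1 ⊆ R)
    (h3 : R.card ≤ 3 * R1.card) (P : W → Prop) [DecidablePred P]
    (hP : 2 * (R1.filter P).card ≤ R1.card + 4) :
    6 * (R.filter P).card ≤ 5 * R.card + 18 := by
  have h1 : (R.filter P).card ≤ (R \ R1).card + (R1.filter P).card := by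
    refine le_trans (card_le_card ?_) (card_union_le _ _)
    intro w hw
    rw [mem_filter] at hw
    rw [mem_union, mem_sdiff, mem_filter]
    by_cases h : w ∈ R1
    · exact Or.inr ⟨h, hw.2⟩
    · exact Or.inl ⟨hw.1, h⟩
  have h2 : (R \ R1).card = R.card - R1.card := card_sdiff_of_subset hsub
  have h4 := card_le_card hsub
  omega

theorem Bg2_main {W : Type} [Fintype W] [DecidableEq W] (E : Finset (Sym2 W))
    (hE : ∀ e ∈ E, ¬ e.IsDiag) (hub R R1 : Finset W) (e2 : W → Sym2 W) (f : W → W)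
    (hsub : R1 ⊆ R) (h3 : R.card ≤ 3 * R1.card) (hf1 : ∀ w ∈ R1, f w ∉ R1)
    (hf2 : ∀ w ∈ R1, e2 w = s(w, f w))
    (hR : ∀ w ∈ R1, e2 w ∈ E) (p : ℕ) [NeZero p]
    (c0 : W → ZMod p) (a N M0 B : ℕ) (hB : 0 < B) (hM : 2 * Fintype.card W ≤ B * M0)
    (hp : 2 * (2 * N + Fintype.card W + 3 * M0 + 3) < p) :
    ∃ (g : Sym2 W → ℕ) (lo : ℕ), Set.InjOn g E ∧
      (∀ e ∈ E, a < g e ∧ g e ≤ a + E.card + N + 3 * M0 + 1) ∧
      (∀ e ∈ E, g e < lo ∨ lo + N ≤ g e) ∧ a < lo ∧ lo + N ≤ a + E.card + N + 3 * M0 + 2 ∧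
      (∀ y : ZMod p, (univ.filter fun w : W => w ∉ hub ∧ (∃ e ∈ E, w ∈ e) ∧
        c0 w + ∑ e ∈ E.filter (fun e => w ∈ e), (g e : ZMod p) = y).card ≤ 2 * B + 2) ∧
      ∀ s : ZMod p, 6 * (open Classical in (R.filter fun w => ∃ x : ℕ, lo ≤ x ∧ x < lo + N ∧
        c0 w + ∑ e ∈ E.filter (fun e => w ∈ e), (g e : ZMod p) + (x : ZMod p) = s).card) ≤
        5 * R.card + 18 := by
  classical
  -- the special edges
  have hinj : Set.InjOn e2 R1 := by
    intro x hx y hy hxy
    have hx' : x ∈ R1 := hx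
    have hy' : y ∈ R1 := hy
    rw [hf2 x hx', hf2 y hy', Sym2.eq_iff] at hxy
    rcases hxy with ⟨h, -⟩ | ⟨h, -⟩
    · exact h
    · exact absurd (h ▸ hx') (hf1 y hy')
  set E2 := R1.image e2 with hE2
  have hE2c : E2.card = R1.card := card_image_of_injOn hinj
  have hE2E : E2 ⊆ E := by
    intro e he
    obtain ⟨w, hw, rfl⟩ := mem_image.1 he
    exact hR w hw
  have hE2w : ∀ w ∈ R1, ∀ e ∈ E2, w ∈ e → e = e2 w := by
    intro w hw e he hwe
    obtain ⟨w', hw', rfl⟩ := mem_image.1 he
    rw [hf2 w' hw', Sym2.mem_iff] at hwe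
    rcases hwe with h | h
    · rw [h]
    · exact absurd (h ▸ hw) (hf1 w' hw')
  have hwe2 : ∀ w ∈ R1, w ∈ e2 w := by
    intro w hw
    rw [hf2 w hw]
    exact Sym2.mem_mk_left _ _
  -- the classes of vertices
  set V1 : Finset W := univ.filter fun w => w ∉ hub ∧ (∃ e ∈ E, w ∈ e) ∧ ¬ ∃ e ∈ E2, w ∈ e with hV1
  set V2 : Finset W := univ.filter fun w => ∃ e ∈ E2, w ∈ e with hV2
  have hch : ∀ w, ∃ e, w ∈ V1 → e ∈ E ∧ w ∈ e := by
    intro w
    by_cases hw : w ∈ V1
    · obtain ⟨e, he, hwe⟩ := (mem_filter.1 hw).2.2.1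
      exact ⟨e, fun _ => ⟨he, hwe⟩⟩
    · exact ⟨s(w, w), fun h => absurd h hw⟩
  choose e1 he1 using hch
  set L1 := V1.image e1 with hL1
  have hL1E : L1 ⊆ E := by
    intro e he
    obtain ⟨w, hw, rfl⟩ := mem_image.1 he
    exact (he1 w hw).1
  have hL1E2 : Disjoint L1 E2 := by
    rw [disjoint_left]
    intro e he he'
    obtain ⟨w, hw, rfl⟩ := mem_image.1 he
    exact (mem_filter.1 hw).2.2.2 ⟨_, he', (he1 w hw).2⟩
  have hL1c : L1.card ≤ V1.card := card_image_le
  have hV1R1 : Disjoint V1 R1 := by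
    rw [disjoint_left]
    intro w hw hw'
    exact (mem_filter.1 hw).2.2.2 ⟨_, mem_image_of_mem _ hw', hwe2 w hw'⟩
  have hcard : V1.card + R1.card ≤ Fintype.card W := by
    rw [← card_union_of_disjoint hV1R1]
    exact card_le_univ _
  set E0 := E \ (L1 ∪ E2) with hE0
  have hEc : E.card = E0.card + (L1.card + R1.card) := by
    have h1 : L1 ∪ E2 ⊆ E := union_subset hL1E hE2E
    have h2 : E0.card + (L1 ∪ E2).card = E.card := card_sdiff_add_card_eq_card h1
    rw [card_union_of_disjoint hL1E2, hE2c] at h2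
    omega
  -- step 0
  obtain ⟨g0, hg0i, hg0r⟩ := Bg2_step0 E0 a
  set A1 := a + E0.card with hA1
  -- step 1
  set A2 := A1 + L1.card + M0 with hA2
  set c1 : W → ZMod p := fun w => c0 w + ∑ e ∈ E0.filter (fun e => w ∈ e), (g0 e : ZMod p) with hc1
  obtain ⟨g1, hg1i, hg1r, hg1m⟩ := greedy_mult p L1 (fun e he => hE e (hL1E he)) V1 c1
    (fun _ => Ioc A1 A2) M0 B hB
    (by
      intro e _ x hx y hy hxy
      rw [mem_Ioc] at hx hy
      exact Bg2_modinj (l := A1 + 1) (k := L1.card + M0) (by omega) (by omega) (by omega) (by omega)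
        (by omega) hxy)
    (by
      intro e _
      have h1 : (L1.filter fun e' => ¬ Disjoint (Ioc A1 A2) (Ioc A1 A2)).card ≤ L1.card :=
        card_filter_le _ _
      rw [Nat.card_Ioc]
      omega)
    (by
      have : V1.card ≤ Fintype.card W := card_le_univ _
      omega)
  -- step 2
  set q1 := (R1.card + 1) / 2 with hq1
  set q2 := R1.card / 2 with hq2
  have hq : q1 + q2 = R1.card := by omega
  set lo0 := A2 + 1 with hlo0
  set lo := lo0 + q1 + M0 with hlo
  set len := q1 + M0 + N + q2 + M0 with hlen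
  set g01 : Sym2 W → ℕ := fun e => if e ∈ L1 then g1 e else g0 e with hg01
  set c2 : W → ZMod p := fun w => c0 w + ∑ e ∈ (E \ E2).filter (fun e => w ∈ e), (g01 e : ZMod p)
    with hc2
  obtain ⟨hi, hhi1, hhi2, hload⟩ := altload (R := {w // w ∈ R1}) p (fun w => c2 w.1) N lo lo0 len
    (by omega)
  rw [Fintype.card_coe] at hhi1 hhi2 hload
  -- step 3
  set Lw : Finset ℕ := Ico lo0 lo with hLw
  set Hg : Finset ℕ := Ico (lo + N) (lo + N + q2 + M0) with hHg
  have hLH : Disjoint Lw Hg := by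
    rw [disjoint_left]
    intro x hx hx'
    rw [mem_Ico] at hx hx'
    omega
  set rg : Sym2 W → Finset ℕ := fun e => if ∃ w : {w // w ∈ R1}, e2 w.1 = e ∧ hi w = true then Hg
    else Lw with hrg
  have hrg1 : ∀ w : {w // w ∈ R1}, hi w = true → rg (e2 w.1) = Hg := by
    intro w hw
    simp only [hrg]
    rw [if_pos ⟨w, rfl, hw⟩]
  have hrg0 : ∀ w : {w // w ∈ R1}, hi w = false → rg (e2 w.1) = Lw := by
    intro w hw
    simp only [hrg]
    rw [if_neg]
    rintro ⟨w', h1, h2⟩
    have h3 : w' = w := Subtype.ext (hinj w'.2 w.2 h1)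
    rw [h3, hw] at h2
    exact absurd h2 (by decide)
  have hcH : (E2.filter fun e => rg e = Hg ∧ ¬ rg e = Lw).card ≤ q2 := by
    have h1 : (E2.filter fun e => rg e = Hg ∧ ¬ rg e = Lw) ⊆
        (univ.filter fun v : {w // w ∈ R1} => hi v = true).image (fun v => e2 v.1) := by
      intro e he
      rw [mem_filter] at he
      obtain ⟨w, hw, rfl⟩ := mem_image.1 he.1
      rw [mem_image]
      refine ⟨⟨w, hw⟩, ?_, rfl⟩
      rw [mem_filter]
      refine ⟨mem_univ _, ?_⟩
      by_contra hcon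
      exact he.2.2 (hrg0 ⟨w, hw⟩ (by simpa using hcon))
    have h2 := (card_le_card h1).trans card_image_le
    omega
  have hcL : (E2.filter fun e => rg e = Lw ∧ ¬ rg e = Hg).card ≤ q1 := by
    have h1 : (E2.filter fun e => rg e = Lw ∧ ¬ rg e = Hg) ⊆
        (univ.filter fun v : {w // w ∈ R1} => hi v = false).image (fun v => e2 v.1) := by
      intro e he
      rw [mem_filter] at he
      obtain ⟨w, hw, rfl⟩ := mem_image.1 he.1
      rw [mem_image]
      refine ⟨⟨w, hw⟩, ?_, rfl⟩
      rw [mem_filter]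
      refine ⟨mem_univ _, ?_⟩
      by_contra hcon
      exact he.2.2 (hrg1 ⟨w, hw⟩ (by simpa using hcon))
    have h2 := (card_le_card h1).trans card_image_le
    omega
  have hrgLH : ∀ e, rg e = Lw ∨ rg e = Hg := by
    intro e
    simp only [hrg]
    split_ifs
    · exact Or.inr rfl
    · exact Or.inl rfl
  obtain ⟨g2, hg2i, hg2r, hg2m⟩ := greedy_mult p E2 (fun e he => hE e (hE2E he)) V2 c2
    rg M0 B hB
    (by
      intro e _ x hx y hy hxy
      rcases hrgLH e with h | h
      · rw [h, hLw, mem_Ico] at hx hy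
        exact Bg2_modinj (l := lo0) (k := q1 + M0) (by omega) (by omega) (by omega) (by omega)
          (by omega) hxy
      · rw [h, hHg, mem_Ico] at hx hy
        exact Bg2_modinj (l := lo + N) (k := q2 + M0) (by omega) (by omega) (by omega) (by omega)
          (by omega) hxy)
    (by
      intro e _
      rcases hrgLH e with h | h
      · rw [h]
        have h1 : (E2.filter fun e' => ¬ Disjoint (rg e') Lw) ⊆
            (E2.filter fun e => rg e = Lw ∧ ¬ rg e = Hg) := by
          intro e' he'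
          rw [mem_filter] at he' ⊢
          have h2 : ¬ rg e' = Hg := fun h3 => he'.2 (by rw [h3]; exact hLH.symm)
          exact ⟨he'.1, (hrgLH e').resolve_right h2, h2⟩
        have h2 := card_le_card h1
        have h3 : Lw.card = q1 + M0 := by rw [hLw, Nat.card_Ico]; omega
        rw [h3]
        omega
      · rw [h]
        have h1 : (E2.filter fun e' => ¬ Disjoint (rg e') Hg) ⊆
            (E2.filter fun e => rg e = Hg ∧ ¬ rg e = Lw) := by
          intro e' he'
          rw [mem_filter] at he' ⊢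
          have h2 : ¬ rg e' = Lw := fun h3 => he'.2 (by rw [h3]; exact hLH)
          exact ⟨he'.1, (hrgLH e').resolve_left h2, h2⟩
        have h2 := card_le_card h1
        have h3 : Hg.card = q2 + M0 := by rw [hHg, Nat.card_Ico]; omega
        rw [h3]
        omega)
    (by
      have : V2.card ≤ Fintype.card W := card_le_univ _
      omega)
  -- the labels
  set g : Sym2 W → ℕ := fun e => if e ∈ E2 then g2 e else g01 e with hg
  have hgE2 : ∀ e ∈ E2, g e = g2 e := fun e he => by simp only [hg]; rw [if_pos he]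
  have hgL1 : ∀ e ∈ L1, g e = g1 e := fun e he => by
    simp only [hg, hg01]
    rw [if_neg (disjoint_left.1 hL1E2 he), if_pos he]
  have hgE0 : ∀ e ∈ E0, g e = g0 e := fun e he => by
    rw [hE0, mem_sdiff, mem_union, not_or] at he
    simp only [hg, hg01]
    rw [if_neg he.2.2, if_neg he.2.1]
  have hgnE2 : ∀ e ∈ E \ E2, g e = g01 e := fun e he => by
    rw [mem_sdiff] at he
    simp only [hg]
    rw [if_neg he.2]
  have hcase : ∀ e ∈ E, e ∈ E0 ∨ e ∈ L1 ∨ e ∈ E2 := by
    intro e he
    rw [hE0, mem_sdiff, mem_union]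
    tauto
  have hrE0 : ∀ e ∈ E0, a < g e ∧ g e ≤ A1 := fun e he => by rw [hgE0 e he]; exact hg0r e he
  have hrL1 : ∀ e ∈ L1, A1 < g e ∧ g e ≤ A2 := fun e he => by
    rw [hgL1 e he]; exact mem_Ioc.1 (hg1r e he)
  have hrE2 : ∀ e ∈ E2, lo0 ≤ g e ∧ g e < lo0 + len ∧ (g e < lo ∨ lo + N ≤ g e) := fun e he => by
    rw [hgE2 e he]
    have h1 := hg2r e he
    rcases hrgLH e with h | h
    · rw [h, hLw, mem_Ico] at h1
      omega
    · rw [h, hHg, mem_Ico] at h1
      omega
  -- sums
  have hsE2 : ∀ w, ∑ e ∈ E2.filter (fun e => w ∈ e), (g e : ZMod p) =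
      ∑ e ∈ E2.filter (fun e => w ∈ e), (g2 e : ZMod p) := fun w =>
    sum_congr rfl fun e he => by rw [hgE2 e (mem_filter.1 he).1]
  have hs1 : ∀ w, c0 w + ∑ e ∈ E.filter (fun e => w ∈ e), (g e : ZMod p) =
      c2 w + ∑ e ∈ E2.filter (fun e => w ∈ e), (g2 e : ZMod p) := by
    intro w
    have h1 : E.filter (fun e => w ∈ e) =
        (E \ E2).filter (fun e => w ∈ e) ∪ E2.filter (fun e => w ∈ e) := by
      rw [← filter_union, sdiff_union_of_subset hE2E]
    have h2 : Disjoint ((E \ E2).filter (fun e => w ∈ e)) (E2.filter (fun e => w ∈ e)) :=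
      disjoint_filter_filter sdiff_disjoint
    rw [h1, sum_union h2, hsE2 w, ← add_assoc]
    simp only [hc2]
    congr 2
    exact sum_congr rfl fun e he => by rw [hgnE2 e (mem_filter.1 he).1]
  have hs2 : ∀ w, c2 w = c1 w + ∑ e ∈ L1.filter (fun e => w ∈ e), (g1 e : ZMod p) := by
    intro w
    have h0 : E \ E2 = E0 ∪ L1 := by
      ext e
      simp only [hE0, mem_sdiff, mem_union]
      constructor
      · rintro ⟨h1, h2⟩
        by_cases h3 : e ∈ L1
        · exact Or.inr h3
        · exact Or.inl ⟨h1, by tauto⟩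
      · rintro (⟨h1, h2⟩ | h1)
        · exact ⟨h1, by tauto⟩
        · exact ⟨hL1E h1, disjoint_left.1 hL1E2 h1⟩
    have h1 : (E \ E2).filter (fun e => w ∈ e) =
        E0.filter (fun e => w ∈ e) ∪ L1.filter (fun e => w ∈ e) := by
      rw [← filter_union, h0]
    have h2 : Disjoint (E0.filter (fun e => w ∈ e)) (L1.filter (fun e => w ∈ e)) := by
      apply disjoint_filter_filter
      rw [disjoint_left]
      intro e he he'
      rw [hE0, mem_sdiff, mem_union] at he
      tauto
    have h5 : ∑ e ∈ E0.filter (fun e => w ∈ e), (g01 e : ZMod p) =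
        ∑ e ∈ E0.filter (fun e => w ∈ e), (g0 e : ZMod p) := by
      refine sum_congr rfl fun e he => ?_
      have h3 : e ∉ L1 := fun h4 => by
        have := (mem_filter.1 he).1
        rw [hE0, mem_sdiff, mem_union] at this
        tauto
      simp only [hg01]
      rw [if_neg h3]
    have h6 : ∑ e ∈ L1.filter (fun e => w ∈ e), (g01 e : ZMod p) =
        ∑ e ∈ L1.filter (fun e => w ∈ e), (g1 e : ZMod p) := by
      refine sum_congr rfl fun e he => ?_
      simp only [hg01]
      rw [if_pos (mem_filter.1 he).1]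
    simp only [hc2, hc1]
    rw [h1, sum_union h2, h5, h6, ← add_assoc]
  refine ⟨g, lo, ?_, ?_, ?_, by omega, by omega, ?_, ?_⟩
  · -- injectivity
    intro x hx y hy hxy
    have hx' := hcase x hx
    have hy' := hcase y hy
    rcases hx' with h1 | h1 | h1 <;> rcases hy' with h2 | h2 | h2
    · rw [hgE0 x h1, hgE0 y h2] at hxy
      exact hg0i h1 h2 hxy
    · have := hrE0 x h1; have := hrL1 y h2; omega
    · have := hrE0 x h1; have := hrE2 y h2; omega
    · have := hrL1 x h1; have := hrE0 y h2; omega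
    · rw [hgL1 x h1, hgL1 y h2] at hxy
      exact hg1i h1 h2 hxy
    · have := hrL1 x h1; have := hrE2 y h2; omega
    · have := hrE2 x h1; have := hrE0 y h2; omega
    · have := hrE2 x h1; have := hrL1 y h2; omega
    · rw [hgE2 x h1, hgE2 y h2] at hxy
      exact hg2i h1 h2 hxy
  · intro e he
    rcases hcase e he with h | h | h
    · have := hrE0 e h; omega
    · have := hrL1 e h; omega
    · have := hrE2 e h; omega
  · intro e he
    rcases hcase e he with h | h | h
    · have := hrE0 e h; omega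
    · have := hrL1 e h; omega
    · exact (hrE2 e h).2.2
  · -- multiplicities
    intro y
    have h1 : (univ.filter fun w : W => w ∉ hub ∧ (∃ e ∈ E, w ∈ e) ∧
        c0 w + ∑ e ∈ E.filter (fun e => w ∈ e), (g e : ZMod p) = y) ⊆
        (V1.filter fun w => (∃ e ∈ L1, w ∈ e) ∧
          c1 w + ∑ e ∈ L1.filter (fun e => w ∈ e), (g1 e : ZMod p) = y) ∪
        (V2.filter fun w => (∃ e ∈ E2, w ∈ e) ∧
          c2 w + ∑ e ∈ E2.filter (fun e => w ∈ e), (g2 e : ZMod p) = y) := by
      intro w hw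
      rw [mem_filter] at hw
      obtain ⟨-, hw1, hw2, hw3⟩ := hw
      by_cases hwE : ∃ e ∈ E2, w ∈ e
      · have hwV : w ∈ V2 := by rw [hV2, mem_filter]; exact ⟨mem_univ _, hwE⟩
        refine mem_union_right _ (mem_filter.2 ⟨hwV, hwE, ?_⟩)
        rw [← hs1 w]
        exact hw3
      · have hwV : w ∈ V1 := by rw [hV1, mem_filter]; exact ⟨mem_univ _, hw1, hw2, hwE⟩
        refine mem_union_left _ (mem_filter.2 ⟨hwV, ⟨e1 w, mem_image_of_mem _ hwV, (he1 w hwV).2⟩, ?_⟩)
        rw [hs1 w, hs2 w] at hw3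
        have h4 : E2.filter (fun e => w ∈ e) = ∅ := by
          rw [filter_eq_empty_iff]
          intro e he hwe
          exact hwE ⟨e, he, hwe⟩
        rw [h4, sum_empty, add_zero] at hw3
        exact hw3
    have h2 := (card_le_card h1).trans (card_union_le _ _)
    have h5 := hg1m y
    have h6 := hg2m y
    omega
  · -- load
    intro s
    have hb := hload (fun w => g2 (e2 w.1))
      (by
        intro v hv
        have h1 := hg2r (e2 v.1) (mem_image_of_mem _ v.2)
        rw [hrg0 v hv, hLw, mem_Ico] at h1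
        exact h1)
      (by
        intro v hv
        have h1 := hg2r (e2 v.1) (mem_image_of_mem _ v.2)
        rw [hrg1 v hv, hHg, mem_Ico] at h1
        omega) s
    refine Bg2_count R R1 hsub h3 _ ?_
    have h1 : (R1.filter fun w => ∃ x : ℕ, lo ≤ x ∧ x < lo + N ∧
        c0 w + ∑ e ∈ E.filter (fun e => w ∈ e), (g e : ZMod p) + (x : ZMod p) = s).card ≤
        (univ.filter fun v : {w // w ∈ R1} => ∃ x : ℕ, lo ≤ x ∧ x < lo + N ∧
          c2 v.1 + (g2 (e2 v.1) : ZMod p) + (x : ZMod p) = s).card := by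
      rw [← card_image_of_injective (univ.filter fun v : {w // w ∈ R1} => ∃ x : ℕ, lo ≤ x ∧
        x < lo + N ∧ c2 v.1 + (g2 (e2 v.1) : ZMod p) + (x : ZMod p) = s) Subtype.val_injective]
      apply card_le_card
      intro w hw
      rw [mem_filter] at hw
      rw [mem_image]
      refine ⟨⟨w, hw.1⟩, ?_, rfl⟩
      rw [mem_filter]
      refine ⟨mem_univ _, ?_⟩
      obtain ⟨x, hx1, hx2, hx3⟩ := hw.2
      refine ⟨x, hx1, hx2, ?_⟩
      rw [hs1 w] at hx3
      have h4 : E2.filter (fun e => w ∈ e) = {e2 w} := by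
        ext e
        rw [mem_filter, mem_singleton]
        constructor
        · rintro ⟨h5, h6⟩
          exact hE2w w hw.1 e h5 h6
        · rintro rfl
          exact ⟨mem_image_of_mem _ hw.1, hwe2 w hw.1⟩
      rw [h4, sum_singleton] at hx3
      exact hx3
    omega

/-- **Background labelling.** `E` background edges, `R` vertices `w` that are no hubs with a background edge
`e2 w` (its other end is arbitrary, it may be in `hub`), `c0` = offsets before. The labels are in `(a, a + |E| + N + 3 M0 + 1]`, the interval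
`[lo, lo + N)` stays free, every residue is the new offset of at most `2 B + 2` vertices outside `hub`
that have a background edge, and for every residue `s` at most `5/6 |R| + 3` vertices `w` of `R` have
`s - (offset) ∈ [lo, lo + N)`.
Proof. `exists_indep3` with `f w` = the other end of `e2 w`: `R1 ⊆ R`, `|R1| ≥ |R| / 3`; the edges `e2 w`, `w ∈ R1`, are
distinct, their other ends are not in `R1`. `Last` = `e2(R1)` and one background edge for every vertex
outside `hub` that has a background edge and is on no edge of `e2(R1)`; `|Last| ≤ |W|`. Regions: first `(a, a + r0]`,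
`r0 = |E| - |Last|`; bottom with `|Last| - |R1| + M0` labels; low with `q1 + M0` labels; then `[lo, lo + N)`; then high
with `q2 + M0` labels, `q1 + q2 ≤ |R1| + 1`. Step 0: the edges outside `Last` get the labels of the first region in any
order. Step 1: `greedy_mult` for `Last \ e2(R1)` with the bottom region and `V` = vertices outside `hub` that
are on no edge of `e2(R1)` and have a background edge. Step 2: `altload` for `{w // w ∈ R1}`, `π w` = `c0 w` plus the labels of
steps 0, 1; then `greedy_mult` for `e2(R1)` with `rg (e2 w)` = low or high region, `V` = vertices outside `hub` on edges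
of `e2(R1)`. -/
theorem bg2 {W : Type} [Fintype W] [DecidableEq W] (E : Finset (Sym2 W))
    (hE : ∀ e ∈ E, ¬ e.IsDiag) (hub R : Finset W) (e2 : W → Sym2 W)
    (hR : ∀ w ∈ R, e2 w ∈ E ∧ w ∈ e2 w ∧ w ∉ hub) (p : ℕ) [NeZero p]
    (c0 : W → ZMod p) (a N M0 B : ℕ) (hB : 0 < B) (hM : 2 * Fintype.card W ≤ B * M0)
    (hp : 2 * (2 * N + Fintype.card W + 3 * M0 + 3) < p) :
    ∃ (g : Sym2 W → ℕ) (lo : ℕ), Set.InjOn g E ∧
      (∀ e ∈ E, a < g e ∧ g e ≤ a + E.card + N + 3 * M0 + 1) ∧
      (∀ e ∈ E, g e < lo ∨ lo + N ≤ g e) ∧ a < lo ∧ lo + N ≤ a + E.card + N + 3 * M0 + 2 ∧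
      (∀ y : ZMod p, (univ.filter fun w : W => w ∉ hub ∧ (∃ e ∈ E, w ∈ e) ∧
        c0 w + ∑ e ∈ E.filter (fun e => w ∈ e), (g e : ZMod p) = y).card ≤ 2 * B + 2) ∧
      ∀ s : ZMod p, 6 * (open Classical in (R.filter fun w => ∃ x : ℕ, lo ≤ x ∧ x < lo + N ∧
        c0 w + ∑ e ∈ E.filter (fun e => w ∈ e), (g e : ZMod p) + (x : ZMod p) = s).card) ≤
        5 * R.card + 18 := by
  classical
  have hf : ∀ w, ∃ u, w ∈ R → e2 w = s(w, u) := by
    intro w
    by_cases hw : w ∈ R
    · exact ⟨_, fun _ => ((Sym2.other_spec (hR w hw).2.1).symm)⟩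
    · exact ⟨w, fun h => absurd h hw⟩
  choose f hf using hf
  obtain ⟨R1, hsub, h3, hf1⟩ := exists_indep3 R f (by
    intro w hw h
    have h1 := hE (e2 w) (hR w hw).1
    rw [hf w hw, h] at h1
    exact h1 (by simp))
  exact Bg2_main E hE hub R R1 e2 f hsub h3 hf1 (fun w hw => hf w (hsub hw))
    (fun w hw => (hR w (hsub hw)).1) p c0 a N M0 B hB hM hp

end Pool.Agent.AMG
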