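import Pool.Agent.AMG.C0I
import Pool.Agent.AMF.C0

/-!
# Case 0 for several components, inner form
-/

set_option autoImplicit false

namespace Pool.Agent.AMG

open Finset Pool.Agent.AMF Pool.Agent.AMC

/-- As `c0_leaf`, with the weaker hypothesis `|X| + |W| ≤ m + ` the number of leaves at `r`. -/
theorem C0H_leaf {W X : Type} [Fintype W] [DecidableEq W] [Fintype X] [DecidableEq X] (own : X → W)
    (r : W) (m : ℕ) (hm : Fintype.card X + Fintype.card W ≤ m + (leavesAt own r).card) :
    ∃ (Pr X2 X3 : Finset X) (lam1 : X → ℕ), Pr ∪ X2 ∪ X3 = univ ∧ Disjoint Pr X2 ∧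
      Disjoint (Pr ∪ X2) X3 ∧ (∀ x ∈ X2, own x = r) ∧ (∀ x ∈ X3, own x ≠ r) ∧
      (∀ w, (leavesAt own w).Nonempty → ((leavesAt own w).filter (· ∈ Pr)).card = 1) ∧
      (∀ x ∈ Pr, m < lam1 x + Fintype.card W ∧ lam1 x ≤ m) ∧
      (∀ x ∈ X3, 1 ≤ lam1 x ∧ lam1 x ≤ X3.card) ∧
      Set.InjOn lam1 (↑(Pr ∪ X3) : Set X) := by
  classical
  -- private leaves
  let IsP : X → Prop := fun x => ∀ h : (leavesAt own (own x)).Nonempty, h.choose = x
  have hne : ∀ x, (leavesAt own (own x)).Nonempty := fun x =>
    ⟨x, mem_filter.2 ⟨mem_univ _, rfl⟩⟩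
  have hch : ∀ w (h : (leavesAt own w).Nonempty), own h.choose = w := fun w h =>
    (mem_filter.1 h.choose_spec).2
  let Pr : Finset X := univ.filter IsP
  let X2 : Finset X := univ.filter fun x => ¬ IsP x ∧ own x = r
  let X3 : Finset X := univ.filter fun x => ¬ IsP x ∧ own x ≠ r
  have hPr : ∀ x, x ∈ Pr ↔ IsP x := fun x => by simp [Pr]
  have hX2 : ∀ x, x ∈ X2 ↔ ¬ IsP x ∧ own x = r := fun x => by simp [X2]
  have hX3 : ∀ x, x ∈ X3 ↔ ¬ IsP x ∧ own x ≠ r := fun x => by simp [X3]
  have hPinj : ∀ x y, IsP x → IsP y → own x = own y → x = y := by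
    intro x y hx hy hxy
    have h1 := hx (hne x)
    have h2 := hy (hne y)
    rw [← h1, ← h2]
    have h3 : ∀ (w w' : W) (hw : (leavesAt own w).Nonempty) (hw' : (leavesAt own w').Nonempty),
        w = w' → hw.choose = hw'.choose := by
      intro w w' hw hw' he
      subst he
      rfl
    exact h3 _ _ _ _ hxy
  have h3W : X3.card + Fintype.card W ≤ m := by
    have h1 : Disjoint X3 (leavesAt own r) := by
      rw [disjoint_left]
      intro x h2 h3
      exact ((hX3 x).1 h2).2 (mem_filter.1 h3).2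
    have h2 : (X3 ∪ leavesAt own r).card ≤ Fintype.card X := card_le_univ _
    rw [card_union_of_disjoint h1] at h2
    omega
  let iw : W → ℕ := fun w => (Fintype.equivFin W w).val
  have hiw : ∀ w, iw w < Fintype.card W := fun w => (Fintype.equivFin W w).isLt
  have hiwinj : ∀ w w', iw w = iw w' → w = w' := fun w w' h =>
    (Fintype.equivFin W).injective (Fin.ext h)
  let e3 := X3.equivFin
  let lam1 : X → ℕ := fun x => if IsP x then m - iw (own x) else
    if hx : x ∈ X3 then (e3 ⟨x, hx⟩).val + 1 else 0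
  have hl1 : ∀ x, IsP x → lam1 x = m - iw (own x) := fun x hx => if_pos hx
  have hl3 : ∀ x (hx : x ∈ X3), lam1 x = (e3 ⟨x, hx⟩).val + 1 := by
    intro x hx
    have h1 : lam1 x = if hx : x ∈ X3 then (e3 ⟨x, hx⟩).val + 1 else 0 := if_neg ((hX3 x).1 hx).1
    rw [h1, dif_pos hx]
  refine ⟨Pr, X2, X3, lam1, ?_, ?_, ?_, fun x hx => ((hX2 x).1 hx).2,
    fun x hx => ((hX3 x).1 hx).2, ?_, ?_, ?_, ?_⟩
  · ext x
    simp only [mem_union, hPr, hX2, hX3, mem_univ, iff_true]
    tauto
  · rw [disjoint_left]
    intro x h1 h2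
    exact ((hX2 x).1 h2).1 ((hPr x).1 h1)
  · rw [disjoint_left]
    intro x h1 h2
    rw [mem_union, hPr, hX2] at h1
    rw [hX3] at h2
    rcases h1 with h1 | h1
    · exact h2.1 h1
    · exact h2.2 h1.2
  · intro w hw
    rw [card_eq_one]
    refine ⟨hw.choose, ?_⟩
    ext x
    rw [mem_filter, mem_singleton, hPr]
    constructor
    · rintro ⟨h1, h2⟩
      have h3 : own x = w := (mem_filter.1 h1).2
      subst h3
      exact (h2 hw).symm
    · intro hx
      have h3 : own x = w := by rw [hx]; exact hch w hw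
      refine ⟨mem_filter.2 ⟨mem_univ _, h3⟩, ?_⟩
      subst h3
      exact fun h => hx.symm
  · intro x hx
    rw [hl1 x ((hPr x).1 hx)]
    have := hiw (own x)
    omega
  · intro x hx
    rw [hl3 x hx]
    have := (e3 ⟨x, hx⟩).isLt
    omega
  · intro x hx y hy hxy
    have hx' := mem_union.1 (mem_coe.1 hx)
    have hy' := mem_union.1 (mem_coe.1 hy)
    rcases hx' with hx' | hx' <;> rcases hy' with hy' | hy'
    · have h1 := (hPr x).1 hx'
      have h2 := (hPr y).1 hy'
      rw [hl1 x h1, hl1 y h2] at hxy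
      have h3 := hiw (own x)
      have h4 := hiw (own y)
      exact hPinj x y h1 h2 (hiwinj _ _ (by omega))
    · rw [hl1 x ((hPr x).1 hx'), hl3 y hy'] at hxy
      have h3 := hiw (own x)
      have h4 := (e3 ⟨y, hy'⟩).isLt
      omega
    · rw [hl3 x hx', hl1 y ((hPr y).1 hy')] at hxy
      have h3 := hiw (own y)
      have h4 := (e3 ⟨x, hx'⟩).isLt
      omega
    · rw [hl3 x hx', hl3 y hy'] at hxy
      have h3 : e3 ⟨x, hx'⟩ = e3 ⟨y, hy'⟩ := Fin.ext (by omega)
      exact congrArg Subtype.val (e3.injective h3)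

/-- the arithmetic of case 0 -/
theorem C0H_arith (n0 a m : ℕ) (ha : 2 * (n0 + 1) ^ 3 + 1 ≤ a)
    (hm : m ≤ n0 * (a + 1) + n0 ^ 2) : m + n0 * m < a * (a + 1) / 2 :=
  C0_arith n0 a m ha hm

/-- **Case 0, inner form.** As `AMF.case0` (see the proof in `AMF/C0.lean`), with `c0_innerG` in place of
`c0_inner` (`lo = m - n' - |E| - 10 n' - 10`). A vertex `w ≠ r` with `|leaves| + degree ≥ 2` has sum `> m` (an
`H`-edge and a second edge, both with labels `> m / 2`); a vertex `w ≠ r` with one edge only (an `H`-edge, no leaf)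
has the sum `g e`, which is different from all `lam x`. `H` may have at most `n0 ^ 2` edges. -/
theorem case0H (n0 : ℕ) : ∃ m0 : ℕ, ∀ (W X : Type) [Fintype W] [DecidableEq W] [Fintype X]
    [DecidableEq X] (H : SimpleGraph W) [DecidableRel H.Adj] (own : X → W),
    Fintype.card W ≤ n0 → m0 ≤ Fintype.card X + H.edgeFinset.card → Big H → IAMg H own := by
  refine ⟨n0 * (2 * (n0 + 1) ^ 3 + 11 * n0 + 13) + 2 * n0 ^ 2 + 22 * n0 + 21, ?_⟩
  intro W X _ _ _ _ H _ own hW hM hB
  -- the number of edges of `H`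
  have hE2 : H.edgeFinset.card ≤ n0 ^ 2 := by
    have h1 := H.card_edgeFinset_le_card_choose_two
    have h2 : (Fintype.card W).choose 2 ≤ (Fintype.card W) ^ 2 := Nat.choose_le_pow _ _
    exact h1.trans (h2.trans (Nat.pow_le_pow_left hW 2))
  have hne : Nonempty W := by
    by_contra hcon
    rw [not_nonempty_iff] at hcon
    have h1 : Fintype.card W = 0 := Fintype.card_eq_zero
    have hX0 : IsEmpty X := ⟨fun x => hcon.elim (own x)⟩
    have h2 : Fintype.card X = 0 := Fintype.card_eq_zero
    have h3 : (n0 ^ 2) ≤ 2 * n0 ^ 2 := by omega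
    have h4 : 0 ≤ n0 * (2 * (n0 + 1) ^ 3 + 11 * n0 + 13) := Nat.zero_le _
    omega
  -- the vertex with the largest number of leaves
  obtain ⟨r, -, hr⟩ := exists_max_image univ (fun w => (leavesAt own w).card) univ_nonempty
  have hX : Fintype.card X ≤ n0 * (leavesAt own r).card := by
    have h1 : Fintype.card X = ∑ w, (leavesAt own w).card := by
      rw [← card_univ]
      exact card_eq_sum_card_fiberwise fun x _ => mem_univ _
    rw [h1]
    calc ∑ w, (leavesAt own w).card ≤ ∑ _w : W, (leavesAt own r).card :=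
          sum_le_sum fun w _ => hr w (mem_univ w)
      _ = Fintype.card W * (leavesAt own r).card := by rw [sum_const, smul_eq_mul, card_univ]
      _ ≤ n0 * (leavesAt own r).card := Nat.mul_le_mul_right _ hW
  -- the number of leaves at `r` is large
  have hl : 2 * (n0 + 1) ^ 3 + 11 * n0 + 13 ≤ (leavesAt own r).card := by
    by_contra hcon
    have h1 : (leavesAt own r).card ≤ 2 * (n0 + 1) ^ 3 + 11 * n0 + 13 := by omega
    have h2 := Nat.mul_le_mul_left n0 h1
    omega
  obtain ⟨a, ha⟩ : ∃ a, (leavesAt own r).card = a + 1 := ⟨(leavesAt own r).card - 1, by omega⟩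
  set m := Fintype.card X + H.edgeFinset.card with hmdef
  have haL : 2 * (n0 + 1) ^ 3 + 1 ≤ a := by omega
  have hmle : m ≤ n0 * (a + 1) + n0 ^ 2 := by rw [ha] at hX; omega
  have harith := C0H_arith n0 a m haL hmle
  have ha3 : 11 * n0 + 12 ≤ a := by omega
  -- the labels of the leaves, first part
  obtain ⟨Pr, X2, X3, lam1, hu, h12, h3, hX2, hX3, hP1, hPr, hl3, hinj1⟩ :=
    C0H_leaf own r m (by omega)
  -- the cardinality of `X2`
  have hX2c : X2.card = a := by
    have h1 : (leavesAt own r).filter (· ∉ Pr) = X2 := by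
      ext x
      rw [mem_filter]
      constructor
      · rintro ⟨h4, h5⟩
        have h6 : x ∈ Pr ∪ X2 ∪ X3 := hu ▸ mem_univ x
        rcases mem_union.1 h6 with h6 | h6
        · exact (mem_union.1 h6).resolve_left h5
        · exact absurd (mem_filter.1 h4).2 (hX3 x h6)
      · intro h4
        exact ⟨mem_filter.2 ⟨mem_univ _, hX2 x h4⟩, fun h5 => disjoint_left.1 h12 h5 h4⟩
    have h2 := card_filter_add_card_filter_not (s := leavesAt own r) (fun x => x ∈ Pr)
    have h3 := hP1 r (card_pos.1 (by omega))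
    rw [h1] at h2
    omega
  have hX3c : X3.card + a ≤ Fintype.card X := by
    have h1 : Disjoint X2 X3 := h3.mono_left subset_union_right
    have h2 : (X2 ∪ X3).card ≤ Fintype.card X := card_le_univ _
    rw [card_union_of_disjoint h1] at h2
    omega
  -- the leaves of the other vertices
  have hother : ∀ w, w ≠ r → ∀ x ∈ leavesAt own w, x ∈ Pr ∪ X3 := by
    intro w hw x hx
    have h6 : x ∈ Pr ∪ X2 ∪ X3 := hu ▸ mem_univ x
    rcases mem_union.1 h6 with h6 | h6
    · rcases mem_union.1 h6 with h6 | h6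
      · exact mem_union_left _ h6
      · exact absurd ((mem_filter.1 hx).2.symm.trans (hX2 x h6)) hw
    · exact mem_union_right _ h6
  -- the labels of the inner edges
  set lo := m - 11 * Fintype.card W - H.edgeFinset.card - 10 with hlo
  obtain ⟨g, hginj, hgb, hgs⟩ := c0_innerG H hB r (fun w => ∑ x ∈ leavesAt own w, lam1 x) lo
  have hn0m : 2 * n0 ^ 2 + 22 * n0 + 21 ≤ m := le_trans (by
    have : 0 ≤ n0 * (2 * (n0 + 1) ^ 3 + 11 * n0 + 13) := Nat.zero_le _
    omega) hM
  have hlo2 : lo + 11 * Fintype.card W + H.edgeFinset.card + 10 = m := by omega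
  have hgm : ∀ e ∈ H.edgeFinset, lo < g e ∧ g e + Fintype.card W ≤ m := by
    intro e he
    have h1 := hgb e he
    omega
  -- the labels of the leaves, second part
  have hUc : (H.edgeFinset.image g).card = H.edgeFinset.card := card_image_of_injOn hginj
  obtain ⟨lam, hlam1, hlaminj, hlamm, hlam2⟩ := c0_leaf2 Pr X2 X3 lam1 m (Fintype.card W)
    (H.edgeFinset.image g) hu h12 h3 hPr hl3 hinj1 (by
      intro y hy
      obtain ⟨e, he, rfl⟩ := mem_image.1 hy
      have h1 := hgm e he
      omega) (by rw [hUc]) (by omega)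
  -- the sums at the other vertices
  have hws : ∀ w, w ≠ r → wsum own H.edgeFinset lam g w =
      ∑ x ∈ leavesAt own w, lam1 x + ∑ e ∈ edgesAt H.edgeFinset w, g e := by
    intro w hw
    unfold wsum
    rw [sum_congr rfl fun x hx => hlam1 x (hother w hw x hx)]
  have hlow : ∀ w, w ≠ r → m < wsum own H.edgeFinset lam g w ∨
      ∃ e ∈ H.edgeFinset, wsum own H.edgeFinset lam g w = g e := by
    intro w hw
    have h1 : 0 < H.degree w := by
      obtain ⟨u, hu⟩ := hB.1 w
      exact (H.degree_pos_iff_exists_adj w).2 ⟨u, hu⟩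
    have h2 : (edgesAt H.edgeFinset w).card * (lo + 1) ≤ ∑ e ∈ edgesAt H.edgeFinset w, g e := by
      rw [← smul_eq_mul]
      exact card_nsmul_le_sum _ _ _ fun e he => (hgm e (mem_filter.1 he).1).1
    rw [C0_edgesAt] at h2
    by_cases h4 : 2 ≤ H.degree w
    · left
      rw [hws w hw]
      have h5 := Nat.mul_le_mul_right (lo + 1) h4
      omega
    · have h5 : H.degree w = 1 := by omega
      by_cases h6 : (leavesAt own w).Nonempty
      · left
        rw [hws w hw]
        obtain ⟨y, hy⟩ := card_eq_one.1 (hP1 w h6)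
        have hy' : y ∈ (leavesAt own w).filter (· ∈ Pr) := hy ▸ mem_singleton_self y
        rw [mem_filter] at hy'
        have h7 := single_le_sum (f := lam1) (fun x _ => Nat.zero_le _) hy'.1
        have h8 := (hPr y hy'.2).1
        rw [h5, one_mul] at h2
        omega
      · right
        have h7 : (edgesAt H.edgeFinset w).card = 1 := by rw [C0_edgesAt, h5]
        obtain ⟨e, he⟩ := card_eq_one.1 h7
        have he' : e ∈ edgesAt H.edgeFinset w := he ▸ mem_singleton_self e
        refine ⟨e, (mem_filter.1 he').1, ?_⟩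
        rw [hws w hw, not_nonempty_iff_eq_empty.1 h6, sum_empty, zero_add, he, sum_singleton]
  have hupp : ∀ w, w ≠ r → wsum own H.edgeFinset lam g w ≤ a * X3.card + m + n0 * m := by
    intro w hw
    rw [hws w hw]
    have h1 : ∑ e ∈ edgesAt H.edgeFinset w, g e ≤ n0 * m := by
      calc ∑ e ∈ edgesAt H.edgeFinset w, g e ≤ (edgesAt H.edgeFinset w).card • m :=
            sum_le_card_nsmul _ _ _ fun e he => by
              have := hgm e (mem_filter.1 he).1
              omega
        _ ≤ n0 * m := by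
            rw [smul_eq_mul, C0_edgesAt]
            exact Nat.mul_le_mul_right _ ((H.degree_lt_card_verts w).le.trans hW)
    have h2 : ∑ x ∈ leavesAt own w, lam1 x ≤ a * X3.card + m := by
      by_cases hne : (leavesAt own w).Nonempty
      · rw [← sum_filter_add_sum_filter_not (leavesAt own w) (fun x => x ∈ Pr), add_comm]
        have h3 := hP1 w hne
        have h4 := card_filter_add_card_filter_not (s := leavesAt own w) (fun x => x ∈ Pr)
        have h5 : (leavesAt own w).card ≤ a + 1 := ha ▸ hr w (mem_univ w)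
        refine add_le_add ?_ ?_
        · calc ∑ x ∈ (leavesAt own w).filter (· ∉ Pr), lam1 x
              ≤ ((leavesAt own w).filter (· ∉ Pr)).card • X3.card :=
                sum_le_card_nsmul _ _ _ fun x hx => by
                  rw [mem_filter] at hx
                  exact (hl3 x ((mem_union.1 (hother w hw x hx.1)).resolve_left hx.2)).2
            _ ≤ a * X3.card := by
                rw [smul_eq_mul]
                exact Nat.mul_le_mul_right _ (by omega)
        · calc ∑ x ∈ (leavesAt own w).filter (· ∈ Pr), lam1 x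
              ≤ ((leavesAt own w).filter (· ∈ Pr)).card • m :=
                sum_le_card_nsmul _ _ _ fun x hx => (hPr x (mem_filter.1 hx).2).2
            _ = m := by rw [h3, one_smul]
      · rw [not_nonempty_iff_eq_empty.1 hne, sum_empty]
        exact Nat.zero_le _
    omega
  -- the sum at `r`
  have hsr : a * X3.card + (m + n0 * m) < wsum own H.edgeFinset lam g r := by
    have h1 := sum_lower X2 lam hlaminj.injOn X3.card hlam2
    rw [hX2c] at h1
    have h2 : ∑ x ∈ X2, lam x ≤ ∑ x ∈ leavesAt own r, lam x :=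
      sum_le_sum_of_subset fun x hx => mem_filter.2 ⟨mem_univ _, hX2 x hx⟩
    have h3 : ∑ x ∈ leavesAt own r, lam x ≤ wsum own H.edgeFinset lam g r := Nat.le_add_right _ _
    omega
  have hgt : ∀ w, m < wsum own H.edgeFinset lam g w ∨
      ∃ e ∈ H.edgeFinset, wsum own H.edgeFinset lam g w = g e := by
    intro w
    by_cases hw : w = r
    · left
      rw [hw]
      omega
    · exact hlow w hw
  have hlamg : ∀ x, ∀ e ∈ H.edgeFinset, lam x ≠ g e := by
    intro x e he h
    exact (hlamm x).2.2 (mem_image.2 ⟨e, he, h.symm⟩)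
  refine ⟨lam, g, ?_⟩
  refine ⟨fun x => ⟨(hlamm x).1, (hlamm x).2.1⟩, fun e he => ?_, hlaminj, hginj, hlamg, ?_, ?_⟩
  · have := hgm e he
    omega
  · intro w w' hww
    by_cases hw : w = r
    · by_cases hw' : w' = r
      · rw [hw, hw']
      · have h1 := hupp w' hw'
        rw [hw] at hww
        omega
    · by_cases hw' : w' = r
      · have h1 := hupp w hw
        rw [hw'] at hww
        omega
      · rw [hws w hw, hws w' hw'] at hww
        exact hgs w w' hw hw' hww
  · intro x w hx
    rcases hgt w with h1 | ⟨e, he, h1⟩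
    · have := (hlamm x).2.1
      omega
    · exact hlamg x e he (hx.trans h1)

end Pool.Agent.AMG
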