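import Pool.Agent.AMG.TuneG

/-!
# Case 0 for several components: the edges of `H`
-/

set_option autoImplicit false

namespace Pool.Agent.AMG

open Finset Pool.Agent.AMF Pool.Agent.AMC

/-- Labels for the edges of `H`. `exists_tunable` with `Z0 = {r}`, `P1 = Xp = ∅`, `T = univ \ {r}` gives `E4`. The
edges outside `E4` get labels `lo + 1, ..., lo + |E \ E4|` in any order, then `Tunable` with `E' = H.edgeFinset`,
`A = {lo + |E \ E4| + 1, ..., lo + |E| + 10 |W| + 10}` and `p = lo + |E| + 10 |W| + 11` (the labels are distinct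
modulo `p`; sums distinct modulo `p` are distinct). See `AMF/C0a.lean` for the connected version. -/
theorem c0_innerG {W : Type} [Fintype W] [DecidableEq W] (H : SimpleGraph W) [DecidableRel H.Adj]
    (hB : Big H) (r : W) (c0 : W → ℕ) (lo : ℕ) :
    ∃ g : Sym2 W → ℕ, Set.InjOn g H.edgeFinset ∧
      (∀ e ∈ H.edgeFinset, lo < g e ∧ g e ≤ lo + H.edgeFinset.card + 10 * Fintype.card W + 10) ∧
      ∀ w w', w ≠ r → w' ≠ r → c0 w + ∑ e ∈ edgesAt H.edgeFinset w, g e =
        c0 w' + ∑ e ∈ edgesAt H.edgeFinset w', g e → w = w' := by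
  classical
  obtain ⟨T, hT⟩ : ∃ T : Finset W, T = univ \ {r} := ⟨_, rfl⟩
  obtain ⟨E4, hE4, hc4, -, htun⟩ := exists_tunable H hB {r} ∅ ∅ (by simp) (by simp) (by simp)
    (fun w => w) (by simp) T (by rw [hT]; simp)
  have hTmem : ∀ w, w ∈ T ↔ w ≠ r := by
    intro w
    rw [hT]
    simp
  have hTcard : T.card ≤ Fintype.card W := Finset.card_le_univ T
  set E := H.edgeFinset with hE
  -- labels of the other edges
  let g0 : Sym2 W → ℕ := fun e =>
    if h : e ∈ E \ E4 then lo + 1 + ((E \ E4).equivFin ⟨e, h⟩ : ℕ) else 0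
  have hg0 : ∀ e (h : e ∈ E \ E4), g0 e = lo + 1 + ((E \ E4).equivFin ⟨e, h⟩ : ℕ) := by
    intro e h
    simp only [g0, dif_pos h]
  set t := (E \ E4).card with ht
  have htle : t ≤ E.card := Finset.card_le_card Finset.sdiff_subset
  set p := lo + E.card + 10 * Fintype.card W + 11 with hp
  haveI : NeZero p := ⟨by omega⟩
  set A : Finset ℕ := Finset.Icc (lo + t + 1) (lo + E.card + 10 * Fintype.card W + 10) with hA
  have hAp : ∀ a ∈ A, a < p := by
    intro a ha
    rw [hA, Finset.mem_Icc] at ha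
    omega
  obtain ⟨g, h1, h2, h3, h5⟩ := htun E hE4 p (fun w => (c0 w : ZMod p)) g0 A
    (by
      intro a ha b hb hab
      have h6 := congrArg ZMod.val hab
      rw [ZMod.val_natCast_of_lt (hAp a ha), ZMod.val_natCast_of_lt (hAp b hb)] at h6
      exact h6)
    (by
      rw [hA, Nat.card_Icc]
      omega)
  have hgN : ∀ e, e ∈ E \ E4 → g e = g0 e := fun e he =>
    h1 e (Finset.mem_sdiff.1 he).2
  have hgNb : ∀ e, e ∈ E \ E4 → lo < g e ∧ g e ≤ lo + t := by
    intro e he
    rw [hgN e he, hg0 e he]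
    have h6 := ((E \ E4).equivFin ⟨e, he⟩).2
    omega
  have hgTb : ∀ e ∈ E4, lo + t + 1 ≤ g e ∧ g e ≤ lo + E.card + 10 * Fintype.card W + 10 := by
    intro e he
    have := h2 e he
    rw [hA, Finset.mem_Icc] at this
    exact this
  refine ⟨g, ?_, ?_, ?_⟩
  · intro e he e' he' hee
    have he1 : e ∈ E := he
    have he1' : e' ∈ E := he'
    by_cases hT1 : e ∈ E4 <;> by_cases hT2 : e' ∈ E4
    · exact h3 hT1 hT2 hee
    · have h6 := hgTb e hT1
      have h7 := hgNb e' (Finset.mem_sdiff.2 ⟨he1', hT2⟩)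
      omega
    · have h6 := hgTb e' hT2
      have h7 := hgNb e (Finset.mem_sdiff.2 ⟨he1, hT1⟩)
      omega
    · have m1 := Finset.mem_sdiff.2 ⟨he1, hT1⟩
      have m2 := Finset.mem_sdiff.2 ⟨he1', hT2⟩
      rw [hgN e m1, hgN e' m2, hg0 e m1, hg0 e' m2] at hee
      have h6 : (E \ E4).equivFin ⟨e, m1⟩ = (E \ E4).equivFin ⟨e', m2⟩ := Fin.ext (by omega)
      exact congrArg Subtype.val ((E \ E4).equivFin.injective h6)
  · intro e he
    by_cases hT1 : e ∈ E4
    · have h6 := hgTb e hT1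
      omega
    · have h7 := hgNb e (Finset.mem_sdiff.2 ⟨he, hT1⟩)
      omega
  · intro w w' hw hw' h
    refine h5 w ((hTmem w).2 hw) w' ((hTmem w').2 hw') ?_
    have h7 := congrArg (fun n : ℕ => (n : ZMod p)) h
    push_cast at h7
    exact h7

end Pool.Agent.AMG
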