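import Pool.Agent.AMF.Defs

/-!
# Graphs with several components: definitions

`W` = inner vertices and some absorbed leaves, `H` = the graph on `W`, `X` = the other leaves, `own x` =
the neighbour of the leaf `x`.
-/

set_option autoImplicit false
set_option linter.unusedSectionVars false
set_option linter.unusedVariables false

namespace Pool.Agent.AMG

open Finset Pool.Agent.AMF

section

variable {W X : Type} [Fintype W] [DecidableEq W] [Fintype X] [DecidableEq X]

/-- Labels `lam` of the leaf edges and `g` of the edges of `H`: together a bijection onto `1, ..., m`,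
the sums at the vertices of `W` are distinct and different from the labels of the leaf edges. -/
structure IsIAMg (own : X → W) (E : Finset (Sym2 W)) (lam : X → ℕ) (g : Sym2 W → ℕ) : Prop where
  lam_mem : ∀ x, 1 ≤ lam x ∧ lam x ≤ Fintype.card X + E.card
  g_mem : ∀ e ∈ E, 1 ≤ g e ∧ g e ≤ Fintype.card X + E.card
  lam_inj : Function.Injective lam
  g_inj : Set.InjOn g E
  lam_ne : ∀ x, ∀ e ∈ E, lam x ≠ g e
  inj : Function.Injective (wsum own E lam g)
  ne : ∀ x w, lam x ≠ wsum own E lam g w

/-- Inner form of antimagic -/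
def IAMg (H : SimpleGraph W) [DecidableRel H.Adj] (own : X → W) : Prop :=
  ∃ (lam : X → ℕ) (g : Sym2 W → ℕ), IsIAMg own H.edgeFinset lam g

theorem IAMg.of_IAM {H : SimpleGraph W} [DecidableRel H.Adj] {own : X → W} (h : IAM H own) :
    IAMg H own := by
  obtain ⟨lam, g, h⟩ := h
  exact ⟨lam, g, h.lam_mem, h.g_mem, h.lam_inj, h.g_inj, h.lam_ne, h.inj, fun x w => (h.gt x w).ne⟩

/-- every component has at least three vertices -/
def Big (H : SimpleGraph W) : Prop :=
  (∀ w, ∃ u, H.Adj w u) ∧
    ∀ u v, H.Adj u v → ∃ x, x ≠ u ∧ x ≠ v ∧ (H.Adj u x ∨ H.Adj v x)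

/-- Whatever the labels of the other edges are, the edges of `E4` can be labelled by given labels (more
than enough labels, distinct modulo `p`) such that the sums at the vertices of `T` are distinct. -/
def Tunable (E4 : Finset (Sym2 W)) (T : Finset W) : Prop :=
  ∀ (E' : Finset (Sym2 W)), E4 ⊆ E' → ∀ (p : ℕ) [NeZero p] (c0 : W → ZMod p) (g0 : Sym2 W → ℕ)
    (A : Finset ℕ), (∀ a ∈ A, ∀ b ∈ A, (a : ZMod p) = b → a = b) → 10 * T.card + 10 ≤ A.card →
    ∃ g : Sym2 W → ℕ, (∀ e, e ∉ E4 → g e = g0 e) ∧ (∀ e ∈ E4, g e ∈ A) ∧ Set.InjOn g E4 ∧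
      ∀ v ∈ T, ∀ w ∈ T, c0 v + ∑ e ∈ edgesAt E' v, (g e : ZMod p) =
        c0 w + ∑ e ∈ edgesAt E' w, (g e : ZMod p) → v = w

end

end Pool.Agent.AMG
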