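import Pool.Agent.AMG.C1G
import Pool.Agent.AMX.Skel2

/-!
# Case I, inner form
-/

set_option autoImplicit false

namespace Pool.Agent.AMG

open Finset
open Pool.Agent.AMX Pool.Agent.AMF

/-- **Case I, inner form.** `H` may have any number of components; all vertices outside a small set
`Y` have no leaves and degree at least two. Proof as `AMF.case1` (last theorem of `AMF/C1.lean`) with
`exists_skel2` and `C1G_core`. -/
theorem case1H (c : ℝ) (hc : 0 < c) : ∃ δ : ℝ, 0 < δ ∧ ∃ n0 : ℕ, ∀ (W X : Type) [Fintype W]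
    [DecidableEq W] [Fintype X] [DecidableEq X] (H : SimpleGraph W) [DecidableRel H.Adj] (own : X → W),
    n0 ≤ Fintype.card W → Big H → ∀ Y : Finset W, (Y.card : ℝ) ≤ δ * Fintype.card W →
    (∀ w, w ∉ Y → leavesAt own w = ∅ ∧ 2 ≤ H.degree w) →
    (∃ M : H.Subgraph, M.IsMatching ∧ c * Fintype.card W ≤ M.edgeSet.ncard) → IAMg H own := by
  classical
  obtain ⟨β, hβ, D0, hSk⟩ := exists_skel2 c hc
  obtain ⟨q0, hq0, hPT⟩ := PT D0 β hβ
  set ε := min (1 / 4) (q0 / 2240) with hε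
  have hε0 : 0 < ε := lt_min (by norm_num) (by positivity)
  obtain ⟨k, D, δ, hδ, n1, hSk1⟩ := hSk ε hε0
  obtain ⟨n0, hPT0⟩ := hPT k D 8 (10 * (2 * k + 1)) (4 * ε) (by positivity) (by positivity)
  refine ⟨δ, hδ, max (max n1 3) (max (2 * n0) (⌈112 / q0⌉₊ + 1)), ?_⟩
  intro W X _ _ _ _ H _ own hn hB Y hY hdeg ⟨M, hM, hMc⟩
  have hn1 : n1 ≤ Fintype.card W := ((le_max_left _ _).trans (le_max_left _ _)).trans hn
  have hn2 : 3 ≤ Fintype.card W := ((le_max_right _ _).trans (le_max_left _ _)).trans hn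
  have hn3 : 2 * n0 ≤ Fintype.card W := ((le_max_left _ _).trans (le_max_right _ _)).trans hn
  have hn4 : ⌈112 / q0⌉₊ + 1 ≤ Fintype.card W :=
    ((le_max_right _ _).trans (le_max_right _ _)).trans hn
  obtain ⟨hub, F, pt, vp, Sp, hYh, hS, h1, h2, h3, h4, h5⟩ := hSk1 W H M Y hn1 hY
    (fun w hw => (hdeg w hw).2) hM hMc
  refine IAMg.of_IAM (C1G_core D0 β q0 hβ hq0 hε0 (min_le_left _ _) ?_ rfl rfl hPT0 H own hB hn2
    ?_ ?_ (fun w hw => ?_) hS h1 h2 h3 h4 h5)
  · have : ε ≤ q0 / 2240 := min_le_right _ _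
    linarith
  · have : (2 : ℝ) * n0 ≤ Fintype.card W := by exact_mod_cast hn3
    linarith
  · have h6 : (⌈112 / q0⌉₊ : ℝ) + 1 ≤ Fintype.card W := by exact_mod_cast hn4
    have h7 := Nat.le_ceil (112 / q0)
    linarith
  · have h6 := (hdeg w fun h => hw (hYh h)).2
    omega

end Pool.Agent.AMG
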