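import Pool.Agent.AMG.ExCfgG
import Pool.Agent.AMG.Lab3G

/-!
# Case 3 for several components, inner form
-/

set_option autoImplicit false

namespace Pool.Agent.AMG

open Finset Pool.Agent.AMF Pool.Agent.AMC

/-- **Case 3, inner form.** As `AMF.case3` (see `AMF/C3.lean`), from `exists_cfgG` and `lab3G`. (Here even `IAM`
holds, use `IAMg.of_IAM` if convenient: all vertices have an edge of `H`.) -/
theorem case3H : ∃ ε : ℝ, 0 < ε ∧ ∃ n0 : ℕ, ∀ (W X : Type) [Fintype W] [DecidableEq W] [Fintype X]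
    [DecidableEq X] (H : SimpleGraph W) [DecidableRel H.Adj] (own : X → W),
    n0 ≤ Fintype.card W → Big H →
    ∀ R : Finset W, (∀ e ∈ H.edgeFinset, ∃ z ∈ R, z ∈ e) → (R.card : ℝ) ≤ ε * Fintype.card W →
    (∀ w, w ∉ R → leavesAt own w = ∅ ∧ 2 ≤ H.degree w) → IAMg H own := by
  obtain ⟨ε3, hε3, q0, hlab⟩ := lab3G
  refine ⟨min (1 / 14) (ε3 / 16), by positivity, max 2 (4 * q0), ?_⟩
  intro W X _ _ _ _ H _ own hn hB R hRcov hRcard hRleaf
  set n : ℕ := Fintype.card W with hnW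
  have hn2 : 2 ≤ n := (le_max_left _ _).trans hn
  have hn4 : 4 * q0 ≤ n := (le_max_right _ _).trans hn
  have hnR : (2 : ℝ) ≤ n := by exact_mod_cast hn2
  have h14 : (R.card : ℝ) ≤ 1 / 14 * n :=
    hRcard.trans (mul_le_mul_of_nonneg_right (min_le_left _ _) (by linarith))
  have h16 : (R.card : ℝ) ≤ ε3 / 16 * n :=
    hRcard.trans (mul_le_mul_of_nonneg_right (min_le_right _ _) (by linarith))
  have hdeg' : ∀ w, w ∉ R → 2 ≤ H.degree w := fun w hw => (hRleaf w hw).2
  have hcard : 3 * R.card < Fintype.card W := by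
    have h1 : (3 : ℝ) * R.card < n := by linarith
    exact_mod_cast h1
  obtain ⟨Q, Tn, h, hb, sA, sB, fi, yi, F4, q, hcfg, hQq, hh2, hhR, hTn, hWq⟩ :=
    exists_cfgG H hB R hRcov hdeg' hcard
  have hWq' : (n : ℝ) ≤ 2 * q + 7 * R.card := by exact_mod_cast hWq
  have h4q : (n : ℝ) ≤ 4 * q := by linarith
  have h4q' : n ≤ 4 * q := by exact_mod_cast h4q
  have hq0 : q0 ≤ q := by omega
  have hhR' : (h : ℝ) ≤ R.card := by exact_mod_cast hhR
  have hTn' : (Tn.card : ℝ) ≤ 4 * R.card := by exact_mod_cast hTn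
  have hRq : (R.card : ℝ) ≤ ε3 / 4 * q := by
    have h1 : ε3 / 16 * n ≤ ε3 / 16 * (4 * q) := mul_le_mul_of_nonneg_left h4q (by positivity)
    linarith
  have hq00 : (0 : ℝ) ≤ q := Nat.cast_nonneg q
  have hεq : 0 ≤ ε3 * q := by positivity
  -- leaf labels
  let lam : X → ℕ := fun x => (Fintype.equivFin X x : ℕ) + 1
  have hlam1 : ∀ x, 1 ≤ lam x := fun x => Nat.le_add_left _ _
  have hlam2 : ∀ x, lam x ≤ Fintype.card X := fun x => (Fintype.equivFin X x).isLt
  have hlaminj : Function.Injective lam := by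
    intro x y hxy
    have h1 : (Fintype.equivFin X x : ℕ) = (Fintype.equivFin X y : ℕ) := Nat.succ_injective hxy
    exact (Fintype.equivFin X).injective (Fin.ext h1)
  obtain ⟨g, hginj, hgmem, hsum⟩ := hlab W H.edgeFinset Q Tn h hb sA sB fi yi F4 q hcfg hQq hq0 hh2
    (by linarith) (by linarith) (fun w => ∑ x ∈ leavesAt own w, lam x) (Fintype.card X)
  refine IAMg.of_IAM ⟨lam, g, ?_⟩
  have hedge : ∀ w, ∃ e ∈ edgesAt H.edgeFinset w, Fintype.card X < g e := by
    intro w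
    obtain ⟨v, hv⟩ := hB.1 w
    have hmem : s(w, v) ∈ H.edgeFinset := by
      rw [SimpleGraph.mem_edgeFinset, SimpleGraph.mem_edgeSet]
      exact hv
    exact ⟨s(w, v), mem_filter.2 ⟨hmem, Sym2.mem_mk_left _ _⟩, (hgmem _ hmem).1⟩
  refine ⟨fun x => ⟨hlam1 x, (hlam2 x).trans (Nat.le_add_right _ _)⟩, ?_, hlaminj, hginj, ?_, hsum, ?_⟩
  · intro e he
    have h1 := hgmem e he
    exact ⟨by omega, h1.2⟩
  · intro x e he hxe
    have h1 := hgmem e he
    have h2 := hlam2 x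
    omega
  · intro x w
    obtain ⟨e, he, hge⟩ := hedge w
    have h1 : g e ≤ ∑ e ∈ edgesAt H.edgeFinset w, g e := Finset.single_le_sum
      (f := g) (fun _ _ => Nat.zero_le _) he
    have h2 := hlam2 x
    have h3 : wsum own H.edgeFinset lam g w =
      ∑ x ∈ leavesAt own w, lam x + ∑ e ∈ edgesAt H.edgeFinset w, g e := rfl
    rw [h3]
    omega

end Pool.Agent.AMG
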