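import Pool.Agent.AMG.Defs
import Pool.Agent.AMC.Cfg

/-!
# Case 3: general configurations

As `AMC.Cfg`, but `F4` is an arbitrary tunable set of edges between vertices of `Tn ∪ hubs`.
-/

set_option autoImplicit false
set_option linter.unusedSectionVars false
set_option linter.unusedVariables false

namespace Pool.Agent.AMG

open Finset Pool.Agent.AMF Pool.Agent.AMC

variable {W : Type} [Fintype W] [DecidableEq W]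

/-- A general configuration. -/
structure CfgG (E : Finset (Sym2 W)) (Q Tn : Finset W) (h : ℕ) (hb sA sB : ℕ → W)
    (fi yi : W → ℕ) (F4 : Finset (Sym2 W)) : Prop where
  nd : ∀ e ∈ E, ¬ e.IsDiag
  cov : ∀ w, w ∈ Q ∨ w ∈ Tn ∨ ∃ i < h, w = hb i ∨ w = sA i ∨ w = sB i
  QT : Disjoint Q Tn
  hb_inj : ∀ i < h, ∀ j < h, hb i = hb j → i = j
  sA_inj : ∀ i < h, ∀ j < h, sA i = sA j → i = j
  sB_inj : ∀ i < h, ∀ j < h, sB i = sB j → i = j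
  hb_not : ∀ i < h, hb i ∉ Q ∧ hb i ∉ Tn
  sA_not : ∀ i < h, sA i ∉ Q ∧ sA i ∉ Tn
  sB_not : ∀ i < h, sB i ∉ Q ∧ sB i ∉ Tn
  hb_ne_sA : ∀ i < h, ∀ j < h, hb i ≠ sA j
  hb_ne_sB : ∀ i < h, ∀ j < h, hb i ≠ sB j
  sA_ne_sB : ∀ i < h, ∀ j < h, sA i ≠ sB j
  fi_lt : ∀ v ∈ Q, fi v < h
  yi_lt : ∀ v ∈ Q, yi v < h
  fy : ∀ v ∈ Q, fi v ≠ yi v
  fE : ∀ v ∈ Q, s(v, hb (fi v)) ∈ E
  yE : ∀ v ∈ Q, s(v, hb (yi v)) ∈ E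
  nb : ∀ e ∈ E, ∀ v ∈ e, (v ∈ Q ∨ ∃ i < h, v = sA i ∨ v = sB i) → ∀ w ∈ e, w ≠ v →
    ∃ j < h, w = hb j
  AE : ∀ i < h, s(hb i, sA i) ∈ E
  BE : ∀ i < h, s(hb i, sB i) ∈ E
  F4E : F4 ⊆ E
  F4T : ∀ e ∈ F4, ∀ w ∈ e, w ∈ Tn ∨ ∃ j < h, w = hb j
  F4c : F4.card ≤ Tn.card
  F4t : Tunable F4 Tn
  even : ∀ i, Even (Q.filter fun v => fi v = i).card

end Pool.Agent.AMG
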