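import Pool.Agent.AMG.Graph

/-!
# From the inner form to the graph
-/

set_option autoImplicit false
set_option linter.unusedSectionVars false
set_option linter.unusedVariables false

namespace Pool.Agent.AMG

open Finset Pool.Agent.AMF

section Aux

variable {V : Type} [Fintype V] [DecidableEq V] {G : SimpleGraph V} [DecidableRel G.Adj]
  {P : V → Prop} [DecidablePred P]

/-- the vertices of `H` -/
abbrev CombG_W (P : V → Prop) : Type := {v : V // P v}

/-- the other leaves -/
abbrev CombG_X (P : V → Prop) : Type := {v : V // ¬ P v}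

/-- the graph on the vertices with `P` -/
abbrev CombG_H (G : SimpleGraph V) (P : V → Prop) : SimpleGraph (CombG_W P) := G.comap Subtype.val

/-- the data of the owners -/
structure CombG_Own (G : SimpleGraph V) (own : CombG_X P → CombG_W P) : Prop where
  adj : ∀ x, G.Adj x.1 (own x).1
  uniq : ∀ (x : CombG_X P) (v : V), G.Adj x.1 v → v = (own x).1

variable {own : CombG_X P → CombG_W P}

theorem CombG_Own.adj_leaf (h : CombG_Own G own) {x : CombG_X P} {v : V} : G.Adj x.1 v ↔ v = (own x).1 :=
  ⟨h.uniq x v, fun h1 => h1 ▸ h.adj x⟩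

/-- the edge of a leaf -/
def CombG_L (own : CombG_X P → CombG_W P) (x : CombG_X P) : Sym2 V := s(x.1, (own x).1)

/-- the edges of the inner graph -/
def CombG_E (e : Sym2 (CombG_W P)) : Sym2 V := Sym2.map Subtype.val e

theorem CombG_E_inj : Function.Injective (CombG_E (P := P)) :=
  Sym2.map.injective Subtype.val_injective

theorem CombG_L_inj (own : CombG_X P → CombG_W P) : Function.Injective (CombG_L own) := by
  intro x y hxy
  unfold CombG_L at hxy
  rw [Sym2.eq_iff] at hxy
  rcases hxy with h1 | h1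
  · exact Subtype.ext h1.1
  · exact absurd (own y).2 (h1.1 ▸ x.2)

theorem CombG_L_ne_E (own : CombG_X P → CombG_W P) (x : CombG_X P) (e : Sym2 (CombG_W P)) :
    CombG_L own x ≠ CombG_E e := by
  intro h1
  have h2 : x.1 ∈ CombG_E e := by
    rw [← h1]
    exact Sym2.mem_mk_left _ _
  unfold CombG_E at h2
  rw [Sym2.mem_map] at h2
  obtain ⟨a, _, ha⟩ := h2
  exact x.2 (ha ▸ a.2)

theorem CombG_L_mem (h : CombG_Own G own) (x : CombG_X P) : CombG_L own x ∈ G.edgeFinset := by
  rw [SimpleGraph.mem_edgeFinset]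
  exact h.adj x

theorem CombG_E_mem_iff (e : Sym2 (CombG_W P)) :
    CombG_E e ∈ G.edgeFinset ↔ e ∈ (CombG_H G P).edgeFinset := by
  rw [SimpleGraph.mem_edgeFinset, SimpleGraph.mem_edgeFinset]
  induction e using Sym2.ind with
  | _ a b => rfl

theorem CombG_cases (h : CombG_Own G own) {e : Sym2 V} (he : e ∈ G.edgeFinset) :
    (∃ x, e = CombG_L own x) ∨ ∃ e' ∈ (CombG_H G P).edgeFinset, e = CombG_E e' := by
  rw [SimpleGraph.mem_edgeFinset] at he
  induction e using Sym2.ind with
  | _ u v =>
    rw [SimpleGraph.mem_edgeSet] at he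
    by_cases hu : ¬ P u
    · left
      refine ⟨⟨u, hu⟩, ?_⟩
      have h1 : v = (own ⟨u, hu⟩).1 := h.uniq ⟨u, hu⟩ v he
      unfold CombG_L
      rw [← h1]
    · by_cases hv : ¬ P v
      · left
        refine ⟨⟨v, hv⟩, ?_⟩
        have h1 : u = (own ⟨v, hv⟩).1 := h.uniq ⟨v, hv⟩ u he.symm
        unfold CombG_L
        rw [← h1]
        exact Sym2.eq_swap
      · right
        refine ⟨s(⟨u, not_not.1 hu⟩, ⟨v, not_not.1 hv⟩), ?_, rfl⟩
        rw [SimpleGraph.mem_edgeFinset]
        exact he

theorem CombG_edges (h : CombG_Own G own) :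
    G.edgeFinset = (univ.image (CombG_L own)) ∪ ((CombG_H G P).edgeFinset.image CombG_E) := by
  ext e
  rw [Finset.mem_union, Finset.mem_image, Finset.mem_image]
  constructor
  · intro he
    rcases CombG_cases h he with ⟨x, hx⟩ | ⟨e', he', hx⟩
    · exact Or.inl ⟨x, Finset.mem_univ x, hx.symm⟩
    · exact Or.inr ⟨e', he', hx.symm⟩
  · rintro (⟨x, _, rfl⟩ | ⟨e', he', rfl⟩)
    · exact CombG_L_mem h x
    · exact (CombG_E_mem_iff e').2 he'

theorem CombG_disjoint (own : CombG_X P → CombG_W P) (A : Finset (CombG_X P))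
    (B : Finset (Sym2 (CombG_W P))) : Disjoint (A.image (CombG_L own)) (B.image CombG_E) := by
  rw [Finset.disjoint_left]
  intro e h1 h2
  obtain ⟨x, _, rfl⟩ := Finset.mem_image.1 h1
  obtain ⟨e', _, h3⟩ := Finset.mem_image.1 h2
  exact CombG_L_ne_E own x e' h3.symm

theorem CombG_card_edges (h : CombG_Own G own) :
    Fintype.card (CombG_X P) + (CombG_H G P).edgeFinset.card = G.edgeFinset.card := by
  rw [CombG_edges h, Finset.card_union_of_disjoint (CombG_disjoint own _ _),
    Finset.card_image_of_injective _ (CombG_L_inj own),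
    Finset.card_image_of_injective _ CombG_E_inj, Finset.card_univ]

theorem CombG_incidence (h : CombG_Own G own) (w : CombG_W P) :
    G.incidenceFinset w.1 = ((leavesAt own w).image (CombG_L own)) ∪
      ((edgesAt (CombG_H G P).edgeFinset w).image CombG_E) := by
  ext e
  rw [SimpleGraph.mem_incidenceFinset, SimpleGraph.incidenceSet, Set.mem_sep_iff,
    ← SimpleGraph.mem_edgeFinset, Finset.mem_union, Finset.mem_image, Finset.mem_image]
  constructor
  · rintro ⟨he, hw⟩
    rcases CombG_cases h he with ⟨x, rfl⟩ | ⟨e', he', rfl⟩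
    · left
      refine ⟨x, ?_, rfl⟩
      unfold leavesAt
      rw [Finset.mem_filter]
      refine ⟨Finset.mem_univ x, ?_⟩
      unfold CombG_L at hw
      rw [Sym2.mem_iff] at hw
      rcases hw with h1 | h1
      · exact absurd w.2 (h1 ▸ x.2)
      · exact (Subtype.ext h1).symm
    · right
      refine ⟨e', ?_, rfl⟩
      unfold edgesAt
      rw [Finset.mem_filter]
      refine ⟨he', ?_⟩
      unfold CombG_E at hw
      rw [Sym2.mem_map] at hw
      obtain ⟨a, ha, haw⟩ := hw
      rwa [← Subtype.ext haw]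
  · rintro (⟨x, hx, rfl⟩ | ⟨e', he', rfl⟩)
    · refine ⟨CombG_L_mem h x, ?_⟩
      unfold leavesAt at hx
      rw [← (Finset.mem_filter.1 hx).2]
      exact Sym2.mem_mk_right _ _
    · unfold edgesAt at he'
      obtain ⟨h1, h2⟩ := Finset.mem_filter.1 he'
      refine ⟨(CombG_E_mem_iff e').2 h1, ?_⟩
      unfold CombG_E
      rw [Sym2.mem_map]
      exact ⟨w, h2, rfl⟩

theorem CombG_incidence_leaf (h : CombG_Own G own) (x : CombG_X P) :
    G.incidenceFinset x.1 = {CombG_L own x} := by
  ext e
  rw [SimpleGraph.mem_incidenceFinset, SimpleGraph.incidenceSet, Set.mem_sep_iff,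
    ← SimpleGraph.mem_edgeFinset, Finset.mem_singleton]
  constructor
  · rintro ⟨he, hx⟩
    rcases CombG_cases h he with ⟨y, rfl⟩ | ⟨e', he', rfl⟩
    · unfold CombG_L at hx
      rw [Sym2.mem_iff] at hx
      rcases hx with h1 | h1
      · rw [Subtype.ext h1]
      · exact absurd (own y).2 (h1 ▸ x.2)
    · unfold CombG_E at hx
      rw [Sym2.mem_map] at hx
      obtain ⟨a, _, ha⟩ := hx
      exact absurd a.2 (ha ▸ x.2)
  · rintro rfl
    exact ⟨CombG_L_mem h x, Sym2.mem_mk_left _ _⟩

open Classical in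
/-- the labelling of `G` -/
noncomputable def CombG_F (own : CombG_X P → CombG_W P) (lam : CombG_X P → ℕ)
    (g : Sym2 (CombG_W P) → ℕ) (e : Sym2 V) : ℕ :=
  if h : ∃ x, CombG_L own x = e then lam h.choose else
    if h' : ∃ e', CombG_E e' = e then g h'.choose else 0

theorem CombG_F_leaf (own : CombG_X P → CombG_W P) (lam : CombG_X P → ℕ) (g : Sym2 (CombG_W P) → ℕ)
    (x : CombG_X P) : CombG_F own lam g (CombG_L own x) = lam x := by
  unfold CombG_F
  have h : ∃ y, CombG_L own y = CombG_L own x := ⟨x, rfl⟩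
  rw [dif_pos h]
  exact congrArg lam (CombG_L_inj own h.choose_spec)

theorem CombG_F_inner (own : CombG_X P → CombG_W P) (lam : CombG_X P → ℕ) (g : Sym2 (CombG_W P) → ℕ)
    (e : Sym2 (CombG_W P)) : CombG_F own lam g (CombG_E e) = g e := by
  unfold CombG_F
  have h0 : ¬ ∃ y, CombG_L own y = CombG_E e := by
    rintro ⟨y, hy⟩
    exact CombG_L_ne_E own y e hy
  have h : ∃ e', CombG_E e' = CombG_E e := ⟨e, rfl⟩
  rw [dif_neg h0, dif_pos h]
  exact congrArg g (CombG_E_inj h.choose_spec)

theorem CombG_antimagic (h : CombG_Own G own) (hI : IAMg (CombG_H G P) own) : Antimagic G := by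
  obtain ⟨lam, g, hI⟩ := hI
  set f := CombG_F own lam g with hf
  have hcard := CombG_card_edges h
  have hmaps : ∀ e ∈ G.edgeFinset, f e ∈ Finset.Icc 1 G.edgeFinset.card := by
    intro e he
    rw [Finset.mem_Icc, ← hcard]
    rcases CombG_cases h he with ⟨x, rfl⟩ | ⟨e', he', rfl⟩
    · rw [hf, CombG_F_leaf]
      exact hI.lam_mem x
    · rw [hf, CombG_F_inner]
      exact hI.g_mem e' he'
  have hinj : Set.InjOn f (G.edgeFinset : Set (Sym2 V)) := by
    intro e he e' he' hee
    rw [Finset.mem_coe] at he he'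
    rcases CombG_cases h he with ⟨x, rfl⟩ | ⟨a, ha, rfl⟩
    · rcases CombG_cases h he' with ⟨y, rfl⟩ | ⟨b, hb, rfl⟩
      · rw [hf, CombG_F_leaf, CombG_F_leaf] at hee
        rw [hI.lam_inj hee]
      · rw [hf, CombG_F_leaf, CombG_F_inner] at hee
        exact absurd hee (hI.lam_ne x b hb)
    · rcases CombG_cases h he' with ⟨y, rfl⟩ | ⟨b, hb, rfl⟩
      · rw [hf, CombG_F_leaf, CombG_F_inner] at hee
        exact absurd hee.symm (hI.lam_ne y a ha)
      · rw [hf, CombG_F_inner, CombG_F_inner] at hee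
        rw [hI.g_inj ha hb hee]
  refine ⟨f, ⟨?_, hinj, ?_⟩, ?_⟩
  · intro e he
    have h1 := hmaps e he
    rw [Finset.mem_Icc] at h1
    exact h1
  · have h1 : G.edgeFinset.image f = Finset.Icc 1 G.edgeFinset.card := by
      apply Finset.eq_of_subset_of_card_le
      · intro y hy
        obtain ⟨e, he, rfl⟩ := Finset.mem_image.1 hy
        exact hmaps e he
      · rw [Finset.card_image_of_injOn hinj, Nat.card_Icc]
        omega
    intro y hy
    have h2 : y ∈ G.edgeFinset.image f := by
      rw [h1, Finset.mem_Icc]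
      exact hy
    obtain ⟨e, he, hey⟩ := Finset.mem_image.1 h2
    exact ⟨e, he, hey⟩
  · have hleaf : ∀ x : CombG_X P, ∑ e ∈ G.incidenceFinset x.1, f e = lam x := by
      intro x
      rw [CombG_incidence_leaf h, Finset.sum_singleton, hf, CombG_F_leaf]
    have hin : ∀ w : CombG_W P, ∑ e ∈ G.incidenceFinset w.1, f e
        = wsum own (CombG_H G P).edgeFinset lam g w := by
      intro w
      rw [CombG_incidence h, Finset.sum_union (CombG_disjoint own _ _),
        Finset.sum_image (fun a _ b _ hab => CombG_L_inj own hab),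
        Finset.sum_image (fun a _ b _ hab => CombG_E_inj hab)]
      unfold wsum
      rw [hf]
      congr 1
      · exact Finset.sum_congr rfl fun x _ => CombG_F_leaf own lam g x
      · exact Finset.sum_congr rfl fun x _ => CombG_F_inner own lam g x
    intro u v huv
    change ∑ e ∈ G.incidenceFinset u, f e = ∑ e ∈ G.incidenceFinset v, f e at huv
    by_cases hu : P u
    · by_cases hv : P v
      · have h1 := hin ⟨u, hu⟩
        have h2 := hin ⟨v, hv⟩
        simp only at h1 h2
        rw [h1, h2] at huv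
        exact congrArg Subtype.val (hI.inj huv)
      · have h1 := hin ⟨u, hu⟩
        have h2 := hleaf ⟨v, hv⟩
        simp only at h1 h2
        rw [h1, h2] at huv
        exact absurd huv.symm (hI.ne _ _)
    · by_cases hv : P v
      · have h1 := hleaf ⟨u, hu⟩
        have h2 := hin ⟨v, hv⟩
        simp only at h1 h2
        rw [h1, h2] at huv
        exact absurd huv (hI.ne _ _)
      · have h1 := hleaf ⟨u, hu⟩
        have h2 := hleaf ⟨v, hv⟩
        simp only at h1 h2
        rw [h1, h2] at huv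
        exact congrArg Subtype.val (hI.lam_inj huv)

end Aux

/-- **Combination.** `own x` is the neighbour of the leaf `x ∉ A` (an inner vertex, as there is no component with
one edge). Labelling of `G`: `lam x` on the edge of `x`, `g` on the edges of `HG G A`. See `AMF/Comb.lean` for the
case `A = ∅`. -/
theorem of_innerG {V : Type} [Fintype V] [DecidableEq V] (G : SimpleGraph V) [DecidableRel G.Adj]
    (A : Finset V) (hG : Adm2 G) :
    ∃ own : {v // ¬ InW G A v} → {v // InW G A v},
      (∀ x : {v // ¬ InW G A v}, G.Adj x.1 (own x).1) ∧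
      Fintype.card {v // ¬ InW G A v} + (HG G A).edgeFinset.card = G.edgeFinset.card ∧
      (IAMg (HG G A) own → Antimagic G) := by
  have hex : ∀ x : {v // ¬ InW G A v}, ∃ u, G.Adj x.1 u ∧ G.degree u ≠ 1 ∧ ∀ v, G.Adj x.1 v → v = u := by
    intro x
    have hx : G.degree x.1 = 1 := by
      by_contra h
      exact x.2 (Or.inr h)
    obtain ⟨u, hu, huniq⟩ := (SimpleGraph.degree_eq_one_iff_existsUnique_adj).1 hx
    exact ⟨u, hu, fun hdu => hG.2 _ _ hu ⟨hx, hdu⟩, huniq⟩
  choose u h1 h2 h3 using hex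
  have h : CombG_Own G (P := InW G A) (fun x => ⟨u x, Or.inr (h2 x)⟩) := ⟨h1, h3⟩
  exact ⟨fun x => ⟨u x, Or.inr (h2 x)⟩, h1, CombG_card_edges h, CombG_antimagic h⟩

end Pool.Agent.AMG
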