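import Pool.Agent.AMG.TuneG
import Pool.Agent.AMG.CfgG
import Pool.Agent.AMC.Hall

/-!
# Case 3: existence of a general configuration
-/

set_option autoImplicit false

namespace Pool.Agent.AMG

open Finset Pool.Agent.AMF Pool.Agent.AMC

/-- the deficiency version of Hall's theorem for the vertices of `W` -/
private theorem ExCfgG_hall {W : Type} [Fintype W] [DecidableEq W] (H : SimpleGraph W)
    [DecidableRel H.Adj] (R : Finset W) (hR : ∀ e ∈ H.edgeFinset, ∃ z ∈ R, z ∈ e)
    (hcard : 3 * R.card < Fintype.card W) :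
    ∃ (Zb P1 : Finset W) (t : W → Fin 2 → W), Zb ⊆ R ∧ Disjoint P1 R ∧
      Fintype.card W ≤ P1.card + 3 * R.card ∧ (∀ v ∈ P1, ∀ z, H.Adj v z → z ∈ Zb) ∧
      (∀ z ∈ Zb, ∀ i, t z i ∈ P1 ∧ H.Adj z (t z i)) ∧
      ∀ z ∈ Zb, ∀ z' ∈ Zb, ∀ i i', t z i = t z' i' → z = z' ∧ i = i' := by
  classical
  have hcov : ∀ v z, v ∉ R → H.Adj v z → z ∈ R := by
    intro v z hv hvz
    obtain ⟨x, hx, hxe⟩ := hR s(v, z) (by rw [SimpleGraph.mem_edgeFinset]; exact hvz)
    rcases Sym2.mem_iff.1 hxe with h | h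
    · exact absurd (h ▸ hx) hv
    · exact h ▸ hx
  have hcP : Fintype.card {v // v ∉ R} = Fintype.card W - R.card := by
    rw [Fintype.card_subtype_compl, Fintype.card_coe]
  have hRW : R.card ≤ Fintype.card W := Finset.card_le_univ R
  have hne : Nonempty {v // v ∉ R} := by
    rw [← Fintype.card_pos_iff, hcP]; omega
  obtain ⟨Zb, P', h1, h2, s, h3, h4⟩ := hall_def
    (fun (z : {z // z ∈ R}) (v : {v // v ∉ R}) => H.Adj (z : W) (v : W)) 2
  have hmZ : ∀ z, z ∈ Zb.map (Function.Embedding.subtype _) → ∃ hz : z ∈ R, (⟨z, hz⟩ : {z // z ∈ R}) ∈ Zb := by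
    intro z hz
    obtain ⟨x, hx, rfl⟩ := Finset.mem_map.1 hz
    exact ⟨x.2, hx⟩
  have hmP : ∀ v, v ∈ P'.map (Function.Embedding.subtype _) → ∃ hv : v ∉ R, (⟨v, hv⟩ : {v // v ∉ R}) ∈ P' := by
    intro v hv
    obtain ⟨x, hx, rfl⟩ := Finset.mem_map.1 hv
    exact ⟨x.2, hx⟩
  refine ⟨Zb.map (Function.Embedding.subtype _), P'.map (Function.Embedding.subtype _),
    fun z i => if hz : z ∈ R then (s ⟨z, hz⟩ i : W) else z, ?_, ?_, ?_, ?_, ?_, ?_⟩
  · intro z hz
    exact (hmZ z hz).1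
  · rw [Finset.disjoint_left]
    intro v hv
    exact (hmP v hv).1
  · rw [Finset.card_map]
    have h5 : (univ \ P').card = Fintype.card {v // v ∉ R} - P'.card := by
      rw [Finset.card_sdiff_of_subset (Finset.subset_univ _), Finset.card_univ]
    have h6 : Fintype.card {z // z ∈ R} = R.card := Fintype.card_coe R
    rw [h5, hcP, h6] at h1
    omega
  · intro v hv z hvz
    obtain ⟨hvR, hvP⟩ := hmP v hv
    have hzR := hcov v z hvR hvz
    exact Finset.mem_map.2 ⟨⟨z, hzR⟩, h2 ⟨v, hvR⟩ hvP ⟨z, hzR⟩ hvz.symm, rfl⟩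
  · intro z hz i
    obtain ⟨hzR, hzZ⟩ := hmZ z hz
    simp only [hzR, dif_pos]
    exact ⟨Finset.mem_map.2 ⟨_, (h3 _ hzZ i).1, rfl⟩, (h3 _ hzZ i).2⟩
  · intro z hz z' hz' i i' he
    obtain ⟨hzR, hzZ⟩ := hmZ z hz
    obtain ⟨hzR', hzZ'⟩ := hmZ z' hz'
    simp only [hzR, hzR', dif_pos] at he
    have h5 := h4 _ hzZ _ hzZ' i i' (Subtype.ext he)
    exact ⟨congrArg Subtype.val h5.1, h5.2⟩

/-- **Existence of a general configuration.** As `AMC.exists_cfg` (see the proof in `AMC/ExCfg.lean`, the first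
part, with `hall_def`, can be copied), but `H` may have several components, all with at least three
vertices; the tune edges come from `exists_tunable` with `Z0 = Zb`, `P1 = P'`, `Xp` = the slot vertices taken out
for parity, `f v = hb i` the hub of `v`, `T = Tn`. -/
theorem exists_cfgG {W : Type} [Fintype W] [DecidableEq W] (H : SimpleGraph W) [DecidableRel H.Adj]
    (hB : Big H) (R : Finset W) (hR : ∀ e ∈ H.edgeFinset, ∃ z ∈ R, z ∈ e)
    (hdeg : ∀ w, w ∉ R → 2 ≤ H.degree w) (hcard : 3 * R.card < Fintype.card W) :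
    ∃ (Q Tn : Finset W) (h : ℕ) (hb sA sB : ℕ → W) (fi yi : W → ℕ) (F4 : Finset (Sym2 W)) (q : ℕ),
      CfgG H.edgeFinset Q Tn h hb sA sB fi yi F4 ∧ Q.card = 2 * q ∧ 2 ≤ h ∧ h ≤ R.card ∧
      Tn.card ≤ 4 * R.card ∧ Fintype.card W ≤ 2 * q + 7 * R.card := by
  classical
  obtain ⟨Zb, P1, t, hZR, hPR, hWc, hP1, ht, htinj⟩ := ExCfgG_hall H R hR hcard
  have hPZ : Disjoint P1 Zb := hPR.mono_right hZR
  have hadj : ∀ {v w : W}, s(v, w) ∈ H.edgeFinset ↔ H.Adj v w := by
    intro v w
    rw [SimpleGraph.mem_edgeFinset, SimpleGraph.mem_edgeSet]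
  -- two hubs for every vertex of `P1`
  have htwo : ∀ v ∈ P1, ∃ a ∈ Zb, ∃ b ∈ Zb, a ≠ b ∧ H.Adj v a ∧ H.Adj v b := by
    intro v hv
    have h1 := hdeg v (Finset.disjoint_left.1 hPR hv)
    rw [← SimpleGraph.card_neighborFinset_eq_degree] at h1
    obtain ⟨a, ha, b, hb, hab⟩ := Finset.one_lt_card.1 (show 1 < (H.neighborFinset v).card by omega)
    rw [SimpleGraph.mem_neighborFinset] at ha hb
    exact ⟨a, hP1 v hv a ha, b, hP1 v hv b hb, hab, ha, hb⟩
  obtain ⟨v0, hv0⟩ : P1.Nonempty := Finset.card_pos.1 (by omega)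
  set h : ℕ := Zb.card with hh
  have hh2 : 2 ≤ h := by
    obtain ⟨a, ha, b, hb, hab, -, -⟩ := htwo v0 hv0
    exact Finset.one_lt_card.2 ⟨a, ha, b, hb, hab⟩
  have hhR : h ≤ R.card := Finset.card_le_card hZR
  -- the hubs
  set hb : ℕ → W := fun i => if hi : i < h then (Zb.equivFin.symm ⟨i, hi⟩ : W) else v0 with hhb
  have hbZ : ∀ i < h, hb i ∈ Zb := by
    intro i hi
    simp only [hhb, hi, dif_pos]
    exact (Zb.equivFin.symm ⟨i, hi⟩).2
  have hbinj : ∀ i < h, ∀ j < h, hb i = hb j → i = j := by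
    intro i hi j hj he
    simp only [hhb, hi, hj, dif_pos] at he
    have h1 := Zb.equivFin.symm.injective (Subtype.ext he)
    exact congrArg Fin.val h1
  have hbsur : ∀ z ∈ Zb, ∃ i < h, z = hb i := by
    intro z hz
    have hlt : (Zb.equivFin ⟨z, hz⟩ : ℕ) < h := (Zb.equivFin ⟨z, hz⟩).2
    refine ⟨Zb.equivFin ⟨z, hz⟩, hlt, ?_⟩
    simp only [hhb]
    rw [dif_pos hlt, Fin.eta, Equiv.symm_apply_apply]
  have hidx : ∀ v, ∃ i j, v ∈ P1 → i < h ∧ j < h ∧ i ≠ j ∧ H.Adj v (hb i) ∧ H.Adj v (hb j) := by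
    intro v
    by_cases hv : v ∈ P1
    · obtain ⟨a, ha, b, hb', hab, h1, h2⟩ := htwo v hv
      obtain ⟨i, hi, hai⟩ := hbsur a ha
      obtain ⟨j, hj, hbj⟩ := hbsur b hb'
      refine ⟨i, j, fun _ => ⟨hi, hj, ?_, hai ▸ h1, hbj ▸ h2⟩⟩
      rintro rfl
      exact hab (hai.trans hbj.symm)
    · exact ⟨0, 0, fun h' => absurd h' hv⟩
  choose fi yi hfy using hidx
  set sA : ℕ → W := fun i => t (hb i) 0 with hsA
  set sB : ℕ → W := fun i => t (hb i) 1 with hsB
  have hsAP : ∀ i < h, sA i ∈ P1 ∧ H.Adj (hb i) (sA i) := fun i hi => ht _ (hbZ i hi) 0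
  have hsBP : ∀ i < h, sB i ∈ P1 ∧ H.Adj (hb i) (sB i) := fun i hi => ht _ (hbZ i hi) 1
  -- the nonspecial vertices
  set PN : Finset W := P1.filter fun v => ¬ ∃ i < h, v = sA i ∨ v = sB i with hPN
  have hPN1 : ∀ v ∈ PN, v ∈ P1 := fun v hv => (Finset.mem_filter.1 hv).1
  set O : Finset ℕ := (Finset.range h).filter fun i => Odd (PN.filter fun v => fi v = i).card with hO
  have hr : ∀ i, ∃ r, i ∈ O → r ∈ PN ∧ fi r = i := by
    intro i
    by_cases hi : i ∈ O
    · have h1 := (Finset.mem_filter.1 hi).2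
      obtain ⟨r, hr⟩ := Finset.card_pos.1 h1.pos
      exact ⟨r, fun _ => Finset.mem_filter.1 hr⟩
    · exact ⟨v0, fun h' => absurd h' hi⟩
  choose r hr using hr
  set Rem : Finset W := O.image r with hRem
  have hRemP : ∀ v ∈ Rem, v ∈ PN ∧ fi v ∈ O ∧ r (fi v) = v := by
    intro v hv
    obtain ⟨i, hi, rfl⟩ := Finset.mem_image.1 hv
    have h1 := hr i hi
    exact ⟨h1.1, by rw [h1.2]; exact hi, by rw [h1.2]⟩
  set Rs : Finset W := univ \ (P1 ∪ Zb) with hRs
  have hRs1 : ∀ v ∈ Rs, v ∉ P1 ∧ v ∉ Zb := by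
    intro v hv
    have h1 := (Finset.mem_sdiff.1 hv).2
    rw [Finset.mem_union, not_or] at h1
    exact h1
  set Q : Finset W := PN \ Rem with hQ
  set Tn : Finset W := Rem ∪ Rs with hTn
  obtain ⟨F4, hF1, hF2, hF3, hF4⟩ := exists_tunable H hB Zb P1 Rem hPZ hP1
    (fun v hv => hPN1 v (hRemP v hv).1) (fun v => hb (fi v))
    (fun v hv => by
      have h1 := hfy v (hPN1 v (hRemP v hv).1)
      exact ⟨h1.2.2.2.1, hbZ _ h1.1⟩) Tn hTn
  have hQP : ∀ v ∈ Q, v ∈ PN := fun v hv => (Finset.mem_sdiff.1 hv).1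
  have hZQ : ∀ z ∈ Zb, z ∉ Q ∧ z ∉ Tn := by
    intro z hz
    refine ⟨fun h1 => Finset.disjoint_left.1 hPZ (hPN1 z (hQP z h1)) hz, fun h1 => ?_⟩
    rcases Finset.mem_union.1 h1 with h2 | h2
    · exact Finset.disjoint_left.1 hPZ (hPN1 z (hRemP z h2).1) hz
    · exact (hRs1 z h2).2 hz
  have hsp : ∀ v ∈ P1, (∃ i < h, v = sA i ∨ v = sB i) → v ∉ Q ∧ v ∉ Tn := by
    intro v hv hsv
    have h0 : v ∉ PN := fun h1 => (Finset.mem_filter.1 h1).2 hsv
    refine ⟨fun h1 => h0 (hQP v h1), fun h1 => ?_⟩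
    rcases Finset.mem_union.1 h1 with h2 | h2
    · exact h0 (hRemP v h2).1
    · exact (hRs1 v h2).1 hv
  have hcovr : ∀ w, w ∈ Q ∨ w ∈ Tn ∨ ∃ i < h, w = hb i ∨ w = sA i ∨ w = sB i := by
    intro w
    by_cases hw : w ∈ P1
    · by_cases hs : ∃ i < h, w = sA i ∨ w = sB i
      · obtain ⟨i, hi, h1⟩ := hs
        exact Or.inr (Or.inr ⟨i, hi, Or.inr h1⟩)
      · have h1 : w ∈ PN := Finset.mem_filter.2 ⟨hw, hs⟩
        by_cases h2 : w ∈ Rem
        · exact Or.inr (Or.inl (Finset.mem_union_left _ h2))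
        · exact Or.inl (Finset.mem_sdiff.2 ⟨h1, h2⟩)
    · by_cases hz : w ∈ Zb
      · obtain ⟨i, hi, h1⟩ := hbsur w hz
        exact Or.inr (Or.inr ⟨i, hi, Or.inl h1⟩)
      · refine Or.inr (Or.inl (Finset.mem_union_right _ (Finset.mem_sdiff.2
          ⟨Finset.mem_univ _, ?_⟩)))
        rw [Finset.mem_union, not_or]
        exact ⟨hw, hz⟩
  have heven : ∀ i, Even (Q.filter fun v => fi v = i).card := by
    intro i
    by_cases hi : i ∈ O
    · have h1 : Q.filter (fun v => fi v = i) = (PN.filter fun v => fi v = i).erase (r i) := by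
        ext v
        simp only [hQ, Finset.mem_filter, Finset.mem_sdiff, Finset.mem_erase]
        constructor
        · rintro ⟨⟨h2, h3⟩, h4⟩
          refine ⟨fun h5 => h3 ?_, h2, h4⟩
          rw [h5]
          exact Finset.mem_image_of_mem r hi
        · rintro ⟨h2, h3, h4⟩
          refine ⟨⟨h3, fun h5 => h2 ?_⟩, h4⟩
          rw [← h4]
          exact ((hRemP v h5).2.2).symm
      have h2 : r i ∈ PN.filter fun v => fi v = i := Finset.mem_filter.2 (hr i hi)
      rw [h1, Finset.card_erase_of_mem h2]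
      have h3 := (Finset.mem_filter.1 hi).2
      obtain ⟨m, hm⟩ := h3
      rw [hm, Nat.add_sub_cancel]
      exact even_two_mul m
    · have h1 : Q.filter (fun v => fi v = i) = PN.filter fun v => fi v = i := by
        ext v
        simp only [hQ, Finset.mem_filter, Finset.mem_sdiff]
        constructor
        · rintro ⟨⟨h2, -⟩, h4⟩
          exact ⟨h2, h4⟩
        · rintro ⟨h2, h4⟩
          refine ⟨⟨h2, fun h5 => hi ?_⟩, h4⟩
          rw [← h4]
          exact (hRemP v h5).2.1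
      rw [h1]
      by_cases hih : i < h
      · by_contra hcon
        exact hi (Finset.mem_filter.2 ⟨Finset.mem_range.2 hih, Nat.not_even_iff_odd.1 hcon⟩)
      · have h2 : (PN.filter fun v => fi v = i) = ∅ := by
          refine Finset.filter_eq_empty_iff.2 fun {v} hv h3 => hih ?_
          rw [← h3]
          exact (hfy v (hPN1 v hv)).1
        rw [h2]
        simp
  have hQfi : ∀ v ∈ Q, fi v ∈ Finset.range h := fun v hv =>
    Finset.mem_range.2 (hfy v (hPN1 v (hQP v hv))).1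
  have hQeven : Even Q.card := by
    rw [Finset.card_eq_sum_card_fiberwise hQfi]
    exact Finset.even_sum _ fun i _ => heven i
  obtain ⟨q, hq⟩ := hQeven
  have hRemc : Rem.card ≤ h := by
    refine Finset.card_image_le.trans ((Finset.card_filter_le _ _).trans ?_)
    rw [Finset.card_range]
  have hRsc : Rs.card + h ≤ 3 * R.card := by
    have h1 : Rs.card = Fintype.card W - (P1 ∪ Zb).card := by
      rw [hRs, Finset.card_sdiff_of_subset (Finset.subset_univ _), Finset.card_univ]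
    have h2 : (P1 ∪ Zb).card = P1.card + h := Finset.card_union_of_disjoint hPZ
    have h3 := Finset.card_le_univ (P1 ∪ Zb)
    omega
  have hTnc : Tn.card ≤ 3 * R.card := by
    have h1 : Tn.card ≤ Rem.card + Rs.card := Finset.card_union_le Rem Rs
    omega
  refine ⟨Q, Tn, h, hb, sA, sB, fi, yi, F4, q, ?_, by omega, hh2, hhR, by omega, ?_⟩
  · refine
      { nd := fun e he => SimpleGraph.not_isDiag_of_mem_edgeFinset he
        cov := hcovr
        QT := ?_
        hb_inj := hbinj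
        sA_inj := ?_
        sB_inj := ?_
        hb_not := fun i hi => hZQ _ (hbZ i hi)
        sA_not := fun i hi => hsp _ (hsAP i hi).1 ⟨i, hi, Or.inl rfl⟩
        sB_not := fun i hi => hsp _ (hsBP i hi).1 ⟨i, hi, Or.inr rfl⟩
        hb_ne_sA := fun i hi j hj he => Finset.disjoint_left.1 hPZ (hsAP j hj).1 (he ▸ hbZ i hi)
        hb_ne_sB := fun i hi j hj he => Finset.disjoint_left.1 hPZ (hsBP j hj).1 (he ▸ hbZ i hi)
        sA_ne_sB := ?_
        fi_lt := fun v hv => (hfy v (hPN1 v (hQP v hv))).1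
        yi_lt := fun v hv => (hfy v (hPN1 v (hQP v hv))).2.1
        fy := fun v hv => (hfy v (hPN1 v (hQP v hv))).2.2.1
        fE := fun v hv => hadj.2 (hfy v (hPN1 v (hQP v hv))).2.2.2.1
        yE := fun v hv => hadj.2 (hfy v (hPN1 v (hQP v hv))).2.2.2.2
        nb := ?_
        AE := fun i hi => hadj.2 (hsAP i hi).2
        BE := fun i hi => hadj.2 (hsBP i hi).2
        F4E := hF1
        F4T := fun e he w hw => (hF3 e he w hw).imp_right (hbsur w)
        F4c := hF2
        F4t := hF4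
        even := heven }
    · rw [Finset.disjoint_left]
      intro v hv hvT
      rcases Finset.mem_union.1 hvT with h1 | h1
      · exact (Finset.mem_sdiff.1 hv).2 h1
      · exact (hRs1 v h1).1 (hPN1 v (hQP v hv))
    · intro i hi j hj he
      exact hbinj i hi j hj (htinj _ (hbZ i hi) _ (hbZ j hj) 0 0 he).1
    · intro i hi j hj he
      exact hbinj i hi j hj (htinj _ (hbZ i hi) _ (hbZ j hj) 1 1 he).1
    · intro i hi j hj he
      have h1 := (htinj _ (hbZ i hi) _ (hbZ j hj) 0 1 he).2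
      exact absurd h1 (by decide)
    · intro e he v hv hvs w hw hwv
      have hvP : v ∈ P1 := by
        rcases hvs with h1 | ⟨i, hi, h1 | h1⟩
        · exact hPN1 v (hQP v h1)
        · rw [h1]; exact (hsAP i hi).1
        · rw [h1]; exact (hsBP i hi).1
      have h1 : e = s(v, w) := ((Sym2.mem_and_mem_iff (Ne.symm hwv)).1 ⟨hv, hw⟩)
      rw [h1] at he
      exact hbsur w (hP1 v hvP w (hadj.1 he))
  · have h1 : (Finset.univ : Finset W) ⊆ Q ∪ Tn ∪ ((Finset.range h).image hb ∪
        (Finset.range h).image sA ∪ (Finset.range h).image sB) := by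
      intro w _
      rcases hcovr w with h2 | h2 | ⟨i, hi, h2 | h2 | h2⟩
      · exact Finset.mem_union_left _ (Finset.mem_union_left _ h2)
      · exact Finset.mem_union_left _ (Finset.mem_union_right _ h2)
      · refine Finset.mem_union_right _ (Finset.mem_union_left _ (Finset.mem_union_left _ ?_))
        rw [h2]; exact Finset.mem_image_of_mem _ (Finset.mem_range.2 hi)
      · refine Finset.mem_union_right _ (Finset.mem_union_left _ (Finset.mem_union_right _ ?_))
        rw [h2]; exact Finset.mem_image_of_mem _ (Finset.mem_range.2 hi)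
      · refine Finset.mem_union_right _ (Finset.mem_union_right _ ?_)
        rw [h2]; exact Finset.mem_image_of_mem _ (Finset.mem_range.2 hi)
    have h2 := Finset.card_le_card h1
    have h3 := Finset.card_union_le (Q ∪ Tn) ((Finset.range h).image hb ∪
        (Finset.range h).image sA ∪ (Finset.range h).image sB)
    have h4 := Finset.card_union_le Q Tn
    have h5 := Finset.card_union_le ((Finset.range h).image hb ∪
        (Finset.range h).image sA) ((Finset.range h).image sB)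
    have h6 := Finset.card_union_le ((Finset.range h).image hb) ((Finset.range h).image sA)
    have h7 : ((Finset.range h).image hb).card ≤ h :=
      Finset.card_image_le.trans (by rw [Finset.card_range])
    have h8 : ((Finset.range h).image sA).card ≤ h :=
      Finset.card_image_le.trans (by rw [Finset.card_range])
    have h9 : ((Finset.range h).image sB).card ≤ h :=
      Finset.card_image_le.trans (by rw [Finset.card_range])
    rw [Finset.card_univ] at h2
    omega

end Pool.Agent.AMG
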