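import Pool.Agent.AMG.MainG

/-!
# Final form
-/

set_option autoImplicit false

namespace Pool.Agent.AMG

open Finset Pool.Agent.AMF

/-- **Final form.** In the wording of the frozen statement. -/
theorem final : ∃ m0 : ℕ, ∀ (V : Type) [Fintype V] [DecidableEq V] (G : SimpleGraph V)
    [DecidableRel G.Adj], (∀ v, 0 < G.degree v) →
    (∀ u v, G.Adj u v → ¬ (G.degree u = 1 ∧ G.degree v = 1)) →
    (∀ u v w, G.Adj u v → G.Adj v w → u ≠ w →
      ¬ (G.degree u = 1 ∧ G.degree w = 1 ∧ G.degree v = 2)) →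
    m0 ≤ G.edgeFinset.card →
    ∃ f : Sym2 V → ℕ,
      Set.BijOn f (↑G.edgeFinset : Set (Sym2 V)) (Set.Icc 1 G.edgeFinset.card) ∧
      Function.Injective (fun v => ∑ e ∈ G.incidenceFinset v, f e) := by
  obtain ⟨m0, h⟩ := mainG
  exact ⟨m0, fun V _ _ G _ h1 h2 h3 hm => h V G ⟨⟨h1, h2⟩, h3⟩ hm⟩

end Pool.Agent.AMG
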