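import Pool.Agent.AMG.Absorb
import Pool.Agent.AMG.CombG
import Pool.Agent.AMG.C0H

/-!
# Case 0: few inner vertices
-/

set_option autoImplicit false

namespace Pool.Agent.AMG

open Finset Pool.Agent.AMF

/-- **Case 0.** `exists_absorb`, `of_innerG`, `case0H (3 * n0)` (`|W| ≤ |inner G| + |A| ≤ 3 |inner G|`). -/
theorem G0 (n0 : ℕ) : ∃ m0 : ℕ, ∀ (V : Type) [Fintype V] [DecidableEq V] (G : SimpleGraph V)
    [DecidableRel G.Adj], Adm2 G → (inner G).card ≤ n0 → m0 ≤ G.edgeFinset.card → Antimagic G := by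
  obtain ⟨m0, hm0⟩ := case0H (3 * n0)
  refine ⟨m0, ?_⟩
  intro V _ _ G _ hG hin hm
  obtain ⟨A, -, hbig, hAc⟩ := exists_absorb G hG
  obtain ⟨own, -, hcard, hfin⟩ := of_innerG G A hG
  refine hfin (hm0 _ _ (HG G A) own ?_ (hcard ▸ hm) hbig)
  have h1 : (supp G).card ≤ (inner G).card := by
    refine Finset.card_le_card ?_
    intro v hv
    unfold supp at hv
    unfold inner
    rw [mem_filter] at hv ⊢
    exact ⟨hv.1, hv.2.1⟩
  have h2 : Fintype.card {v // InW G A v} ≤ A.card + (inner G).card := by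
    rw [Fintype.card_subtype]
    refine le_trans (Finset.card_le_card ?_) (Finset.card_union_le A (inner G))
    intro v hv
    rw [mem_filter] at hv
    rw [mem_union]
    rcases hv.2 with h | h
    · exact Or.inl h
    · right
      unfold inner
      rw [mem_filter]
      exact ⟨mem_univ _, h⟩
  omega

end Pool.Agent.AMG
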