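import Pool.Agent.AMG.CombG
import Pool.Agent.AML.CaseLI

/-!
# Case L: many supports
-/

set_option autoImplicit false
set_option linter.unusedSectionVars false
set_option linter.unusedVariables false

namespace Pool.Agent.AMG

open Finset Pool.Agent.AMF

section

variable {V : Type} [Fintype V] [DecidableEq V] {G : SimpleGraph V} [DecidableRel G.Adj]

private theorem caseL_edges {W : Type} [Fintype W] [DecidableEq W] (H : SimpleGraph W)
    [DecidableRel H.Adj] (w : W) : (edgesAt H.edgeFinset w).card = H.degree w := by
  rw [← SimpleGraph.card_incidenceFinset_eq_degree, SimpleGraph.incidenceFinset_eq_filter]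
  rfl

private theorem caseL_deg (own : {v // ¬ InW G ∅ v} → {v // InW G ∅ v})
    (hown : ∀ x : {v // ¬ InW G ∅ v}, G.Adj x.1 (own x).1) (w : {v // InW G ∅ v}) :
    G.degree w.1 ≤ (leavesAt own w).card + (edgesAt (HG G ∅).edgeFinset w).card := by
  rw [caseL_edges, ← SimpleGraph.card_neighborFinset_eq_degree,
    ← SimpleGraph.card_neighborFinset_eq_degree]
  have h1 : G.neighborFinset w.1 ⊆ ((leavesAt own w).image Subtype.val) ∪
      ((HG G ∅).neighborFinset w).image Subtype.val := by
    intro x hx
    rw [SimpleGraph.mem_neighborFinset] at hx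
    rw [mem_union, mem_image, mem_image]
    by_cases hd : G.degree x = 1
    · left
      have hxn : ¬ InW G ∅ x := by
        intro h
        rcases h with h | h
        · exact absurd h (notMem_empty x)
        · exact h hd
      refine ⟨⟨x, hxn⟩, ?_, rfl⟩
      unfold leavesAt
      rw [mem_filter]
      refine ⟨mem_univ _, ?_⟩
      obtain ⟨u, hu, huniq⟩ := (SimpleGraph.degree_eq_one_iff_existsUnique_adj).1 hd
      have h2 := huniq _ (hown ⟨x, hxn⟩)
      have h3 := huniq _ hx.symm
      exact Subtype.ext (h2.trans h3.symm)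
    · right
      refine ⟨⟨x, Or.inr hd⟩, ?_, rfl⟩
      rw [SimpleGraph.mem_neighborFinset]
      exact hx
  calc _ ≤ _ := card_le_card h1
    _ ≤ _ := card_union_le _ _
    _ ≤ _ := Nat.add_le_add card_image_le card_image_le

end

/-- **Case L.** Many supports (star centres included). -/
theorem caseL (e1 : ℝ) (he1 : 0 < e1) : ∃ n0 : ℕ, ∀ (V : Type) [Fintype V]
    [DecidableEq V] (G : SimpleGraph V) [DecidableRel G.Adj], Adm3 G → n0 ≤ (inner G).card →
    e1 * (inner G).card ≤ ((supp G).card : ℝ) → Antimagic G := by
  obtain ⟨n0, h⟩ := Pool.Agent.AML.caseL_inner e1 he1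
  refine ⟨n0, ?_⟩
  intro V _ _ G _ hG hn hs
  obtain ⟨own, hown, -, hfin⟩ := of_innerG G ∅ hG.1
  apply hfin
  apply IAMg.of_IAM
  have hcard : Fintype.card {v // InW G ∅ v} = (inner G).card := by
    rw [Fintype.card_subtype]
    congr 1
    unfold inner
    refine filter_congr fun v _ => ?_
    simp [InW]
  have hinn : ∀ w : {v // InW G ∅ v}, G.degree w.1 ≠ 1 := by
    intro w
    rcases w.2 with h1 | h1
    · exact absurd h1 (notMem_empty _)
    · exact h1
  refine h _ _ (HG G ∅) own (by rw [hcard]; exact hn) ?_ ?_ ?_
  · intro w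
    refine le_trans ?_ (caseL_deg own hown w)
    have h1 := hinn w
    have h2 := hG.1.1 w.1
    omega
  · intro w hw
    have h0 := caseL_deg own hown w
    rw [hw, card_empty, add_zero] at h0
    refine le_trans ?_ h0
    by_contra hlt
    have h1 := hinn w
    have h2 := hG.1.1 w.1
    have h3 : G.degree w.1 = 2 := by omega
    rw [← SimpleGraph.card_neighborFinset_eq_degree, card_eq_two] at h3
    obtain ⟨u, u', hne, huu⟩ := h3
    have hleaf : ∀ x, G.Adj w.1 x → G.degree x = 1 := by
      intro x hx
      by_contra hd
      have h4 : s(w, ⟨x, Or.inr hd⟩) ∈ edgesAt (HG G ∅).edgeFinset w := by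
        unfold edgesAt
        rw [mem_filter, SimpleGraph.mem_edgeFinset, SimpleGraph.mem_edgeSet]
        exact ⟨hx, Sym2.mem_mk_left _ _⟩
      rw [hw] at h4
      exact absurd h4 (notMem_empty _)
    have hu : G.Adj w.1 u := by
      rw [← SimpleGraph.mem_neighborFinset, huu]
      simp
    have hu' : G.Adj w.1 u' := by
      rw [← SimpleGraph.mem_neighborFinset, huu]
      simp
    have h3 : G.degree w.1 = 2 := by
      rw [← SimpleGraph.card_neighborFinset_eq_degree, huu, card_pair hne]
    exact hG.2 u w.1 u' hu.symm hu' hne ⟨hleaf u hu, hleaf u' hu', h3⟩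
  · rw [hcard]
    refine hs.trans ?_
    have h1 : (supp G).card ≤
        (univ.filter fun w : {v // InW G ∅ v} => (leavesAt own w).Nonempty).card := by
      have h2 : supp G ⊆
          (univ.filter fun w : {v // InW G ∅ v} => (leavesAt own w).Nonempty).image
            Subtype.val := by
        intro v hv
        unfold supp at hv
        rw [mem_filter] at hv
        obtain ⟨-, hd, x, hx, hdx⟩ := hv
        rw [mem_image]
        refine ⟨⟨v, Or.inr hd⟩, ?_, rfl⟩
        rw [mem_filter]
        refine ⟨mem_univ _, ?_⟩
        have hxn : ¬ InW G ∅ x := by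
          intro h
          rcases h with h | h
          · exact absurd h (notMem_empty x)
          · exact h hdx
        refine ⟨⟨x, hxn⟩, ?_⟩
        unfold leavesAt
        rw [mem_filter]
        refine ⟨mem_univ _, ?_⟩
        obtain ⟨u, hu, huniq⟩ := (SimpleGraph.degree_eq_one_iff_existsUnique_adj).1 hdx
        have h2 := huniq _ (hown ⟨x, hxn⟩)
        have h3 := huniq _ hx.symm
        exact Subtype.ext (h2.trans h3.symm)
      exact (card_le_card h2).trans card_image_le
    exact_mod_cast h1

end Pool.Agent.AMG
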