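import Pool.Agent.AMG.Absorb
import Pool.Agent.AMG.CombG
import Pool.Agent.AMG.C3H

/-!
# Case 3: few supports, small cover
-/

set_option autoImplicit false

namespace Pool.Agent.AMG

open Finset Pool.Agent.AMF

/-- **Case 3.** `exists_absorb`, `of_innerG`, `case3H` with the set of the vertices of `R` and the absorbed leaves
(at most `3 |R|` vertices, as `supp G ⊆ R`). The neighbours in `G` of an inner vertex outside `R` are inner
vertices (in `R`), its degree is at least two. -/
theorem G3 : ∃ ε : ℝ, 0 < ε ∧ ∃ n0 : ℕ, ∀ (V : Type) [Fintype V] [DecidableEq V] (G : SimpleGraph V)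
    [DecidableRel G.Adj], Adm2 G → n0 ≤ (inner G).card → ∀ R : Finset V, Covers G R → supp G ⊆ R →
    (R.card : ℝ) ≤ ε * (inner G).card → Antimagic G := by
  obtain ⟨ε, hε, n0, h⟩ := case3H
  refine ⟨ε / 3, by positivity, n0, ?_⟩
  intro V _ _ G _ hG hn R hR hsR hRc
  obtain ⟨A, hA1, hbig, hAc⟩ := exists_absorb G hG
  obtain ⟨own, hown, -, hfin⟩ := of_innerG G A hG
  apply hfin
  -- the inner vertices are vertices of `H`
  have hcardW : (inner G).card ≤ Fintype.card {v // InW G A v} := by
    rw [Fintype.card_subtype]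
    apply card_le_card
    intro v hv
    rw [inner, mem_filter] at hv
    exact mem_filter.2 ⟨mem_univ _, Or.inr hv.2⟩
  have hR'c : ((univ.filter fun w : {v // InW G A v} => w.1 ∈ R ∨ w.1 ∈ A).card : ℝ) ≤
      ε * Fintype.card {v // InW G A v} := by
    have h1 : (univ.filter fun w : {v // InW G A v} => w.1 ∈ R ∨ w.1 ∈ A).card ≤ (R ∪ A).card := by
      apply card_le_card_of_injOn (fun w => w.1)
      · intro w hw
        have hw' := (mem_filter.1 (mem_coe.1 hw)).2
        exact mem_coe.2 (mem_union.2 hw')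
      · intro a _ b _ hab
        exact Subtype.ext hab
    have h2 : (R ∪ A).card ≤ 3 * R.card := by
      have h3 := card_union_le R A
      have h4 := card_le_card hsR
      omega
    have h5 : ((univ.filter fun w : {v // InW G A v} => w.1 ∈ R ∨ w.1 ∈ A).card : ℝ) ≤
        3 * R.card := by
      exact_mod_cast h1.trans h2
    have h6 : ((inner G).card : ℝ) ≤ Fintype.card {v // InW G A v} := by
      exact_mod_cast hcardW
    have h7 : ε * ((inner G).card : ℝ) ≤ ε * Fintype.card {v // InW G A v} :=
      mul_le_mul_of_nonneg_left h6 hε.le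
    linarith
  refine h _ _ (HG G A) own (hn.trans hcardW) hbig
    (univ.filter fun w : {v // InW G A v} => w.1 ∈ R ∨ w.1 ∈ A) ?_ hR'c ?_
  · intro e
    induction e using Sym2.ind with
    | _ u v =>
      intro he
      rw [SimpleGraph.mem_edgeFinset, SimpleGraph.mem_edgeSet] at he
      have hadj : G.Adj u.1 v.1 := he
      by_cases hu : u.1 ∈ A
      · exact ⟨u, mem_filter.2 ⟨mem_univ _, Or.inr hu⟩, Sym2.mem_mk_left u v⟩
      by_cases hv : v.1 ∈ A
      · exact ⟨v, mem_filter.2 ⟨mem_univ _, Or.inr hv⟩, Sym2.mem_mk_right u v⟩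
      have hu' : G.degree u.1 ≠ 1 := u.2.resolve_left hu
      have hv' : G.degree v.1 ≠ 1 := v.2.resolve_left hv
      rcases hR u.1 v.1 hadj hu' hv' with h1 | h1
      · exact ⟨u, mem_filter.2 ⟨mem_univ _, Or.inl h1⟩, Sym2.mem_mk_left u v⟩
      · exact ⟨v, mem_filter.2 ⟨mem_univ _, Or.inl h1⟩, Sym2.mem_mk_right u v⟩
  · intro w hw
    have hw' : ¬ (w.1 ∈ R ∨ w.1 ∈ A) := fun hc => hw (mem_filter.2 ⟨mem_univ _, hc⟩)
    rw [not_or] at hw'
    have hdw : G.degree w.1 ≠ 1 := w.2.resolve_left hw'.2
    -- no leaf is adjacent to `w`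
    have hleaf : ∀ x, G.Adj w.1 x → G.degree x ≠ 1 := by
      intro x hx hdx
      exact hw'.1 (hsR (mem_filter.2 ⟨mem_univ _, hdw, x, hx, hdx⟩))
    constructor
    · rw [leavesAt, filter_eq_empty_iff]
      intro x _ hxw
      have h1 := hown x
      rw [hxw] at h1
      have h2 : G.degree x.1 = 1 := by
        by_contra hc
        exact x.2 (Or.inr hc)
      exact hleaf x.1 h1.symm h2
    · have h1 : G.degree w.1 ≤ (HG G A).degree w := by
        rw [← SimpleGraph.card_neighborFinset_eq_degree, ← SimpleGraph.card_neighborFinset_eq_degree]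
        have h2 : G.neighborFinset w.1 ⊆ ((HG G A).neighborFinset w).image Subtype.val := by
          intro x hx
          rw [SimpleGraph.mem_neighborFinset] at hx
          rw [mem_image]
          refine ⟨⟨x, Or.inr (hleaf x hx)⟩, ?_, rfl⟩
          rw [SimpleGraph.mem_neighborFinset]
          exact hx
        exact (card_le_card h2).trans card_image_le
      have h3 := hG.1 w.1
      omega

end Pool.Agent.AMG
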