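import Pool.Agent.AMG.Absorb
import Pool.Agent.AMG.CombG
import Pool.Agent.AMG.C1H

/-!
# Case I: few supports, large matching of inner vertices
-/

set_option autoImplicit false

namespace Pool.Agent.AMG

open Finset Pool.Agent.AMF

/-- The matching of inner vertices is a matching of `HG G A`. -/
private theorem GI_matching {V : Type} [Fintype V] [DecidableEq V] (G : SimpleGraph V)
    [DecidableRel G.Adj] (A : Finset V) (M : G.Subgraph) (hM : M.IsMatching)
    (hdeg : ∀ v ∈ M.verts, G.degree v ≠ 1) :
    ∃ M' : (HG G A).Subgraph, M'.IsMatching ∧ M.edgeSet.ncard ≤ M'.edgeSet.ncard := by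
  let f : HG G A →g G := ⟨Subtype.val, fun h => h⟩
  refine ⟨M.comap f, ?_, ?_⟩
  · intro v hv
    have hv' : v.1 ∈ M.verts := hv
    obtain ⟨w, hw, huniq⟩ := hM hv'
    have hwv : w ∈ M.verts := M.edge_vert hw.symm
    refine ⟨⟨w, Or.inr (hdeg w hwv)⟩, ⟨M.adj_sub hw, hw⟩, ?_⟩
    intro y hy
    exact Subtype.ext (huniq y.1 hy.2)
  · have hsub : M.edgeSet ⊆ (Sym2.map Subtype.val) '' (M.comap f).edgeSet := by
      intro e
      induction e using Sym2.ind with
      | _ u v =>
        intro he
        have h1 : M.Adj u v := he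
        have hu := M.edge_vert h1
        have hv := M.edge_vert h1.symm
        refine ⟨s(⟨u, Or.inr (hdeg u hu)⟩, ⟨v, Or.inr (hdeg v hv)⟩), ?_, rfl⟩
        exact ⟨M.adj_sub h1, h1⟩
    exact (Set.ncard_le_ncard hsub (Set.toFinite _)).trans (Set.ncard_image_le (Set.toFinite _))

/-- **Case I.** `exists_absorb`, `of_innerG`, `case1H (c / 2)` with `Y` = the vertices of `supp G` and the absorbed
leaves (at most `3 |supp G|`); `|inner G| ≤ |W| ≤ (1 + 2 e1) |inner G|`. The neighbours in `G` of an inner
vertex outside `supp G` are inner vertices, its degree is at least two. The matching `M` of inner vertices of `G`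
gives a matching of `HG G A` with the same number of edges (`comap`, or rebuild it). -/
theorem GI (c : ℝ) (hc : 0 < c) : ∃ e1 : ℝ, 0 < e1 ∧ ∃ n0 : ℕ, ∀ (V : Type) [Fintype V]
    [DecidableEq V] (G : SimpleGraph V) [DecidableRel G.Adj], Adm2 G → n0 ≤ (inner G).card →
    ((supp G).card : ℝ) ≤ e1 * (inner G).card →
    (∃ M : G.Subgraph, M.IsMatching ∧ (∀ v ∈ M.verts, G.degree v ≠ 1) ∧
      c * (inner G).card ≤ M.edgeSet.ncard) → Antimagic G := by
  obtain ⟨δ, hδ, n0, h⟩ := case1H (c / 2) (by positivity)
  refine ⟨min (δ / 3) (1 / 2), by positivity, n0, ?_⟩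
  intro V _ _ G _ hG hn hs hM
  obtain ⟨M, hM1, hM2, hM3⟩ := hM
  obtain ⟨A, hA1, hbig, hAc⟩ := exists_absorb G hG
  obtain ⟨own, hown, -, hfin⟩ := of_innerG G A hG
  apply hfin
  have hin0 : (0 : ℝ) ≤ (inner G).card := Nat.cast_nonneg _
  have hs1 : ((supp G).card : ℝ) ≤ δ / 3 * (inner G).card :=
    hs.trans (mul_le_mul_of_nonneg_right (min_le_left _ _) hin0)
  have hs2 : ((supp G).card : ℝ) ≤ 1 / 2 * (inner G).card :=
    hs.trans (mul_le_mul_of_nonneg_right (min_le_right _ _) hin0)
  -- the inner vertices are vertices of `H`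
  have hcardW : (inner G).card ≤ Fintype.card {v // InW G A v} := by
    rw [Fintype.card_subtype]
    apply card_le_card
    intro v hv
    rw [inner, mem_filter] at hv
    exact mem_filter.2 ⟨mem_univ _, Or.inr hv.2⟩
  have hcardW' : Fintype.card {v // InW G A v} ≤ A.card + (inner G).card := by
    rw [Fintype.card_subtype]
    refine le_trans (Finset.card_le_card ?_) (Finset.card_union_le A (inner G))
    intro v hv
    rw [mem_filter] at hv
    rw [mem_union]
    rcases hv.2 with h | h
    · exact Or.inl h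
    · right
      unfold inner
      rw [mem_filter]
      exact ⟨mem_univ _, h⟩
  have hW1 : ((inner G).card : ℝ) ≤ Fintype.card {v // InW G A v} := by
    exact_mod_cast hcardW
  have hW2 : (Fintype.card {v // InW G A v} : ℝ) ≤ 2 * (inner G).card := by
    have h1 : (Fintype.card {v // InW G A v} : ℝ) ≤ 2 * (supp G).card + (inner G).card := by
      exact_mod_cast hcardW'.trans (Nat.add_le_add_right hAc _)
    linarith
  have hR'c : ((univ.filter fun w : {v // InW G A v} => w.1 ∈ supp G ∨ w.1 ∈ A).card : ℝ) ≤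
      δ * Fintype.card {v // InW G A v} := by
    have h1 : (univ.filter fun w : {v // InW G A v} => w.1 ∈ supp G ∨ w.1 ∈ A).card
        ≤ (supp G ∪ A).card := by
      apply card_le_card_of_injOn (fun w => w.1)
      · intro w hw
        have hw' := (mem_filter.1 (mem_coe.1 hw)).2
        exact mem_coe.2 (mem_union.2 hw')
      · intro a _ b _ hab
        exact Subtype.ext hab
    have h2 : (supp G ∪ A).card ≤ 3 * (supp G).card := by
      have h3 := card_union_le (supp G) A
      omega
    have h5 : ((univ.filter fun w : {v // InW G A v} => w.1 ∈ supp G ∨ w.1 ∈ A).card : ℝ) ≤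
        3 * (supp G).card := by
      exact_mod_cast h1.trans h2
    have h7 : δ * ((inner G).card : ℝ) ≤ δ * Fintype.card {v // InW G A v} :=
      mul_le_mul_of_nonneg_left hW1 hδ.le
    linarith
  refine h _ _ (HG G A) own (hn.trans hcardW) hbig
    (univ.filter fun w : {v // InW G A v} => w.1 ∈ supp G ∨ w.1 ∈ A) hR'c ?_ ?_
  · intro w hw
    have hw' : ¬ (w.1 ∈ supp G ∨ w.1 ∈ A) := fun hc => hw (mem_filter.2 ⟨mem_univ _, hc⟩)
    rw [not_or] at hw'
    have hdw : G.degree w.1 ≠ 1 := w.2.resolve_left hw'.2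
    -- no leaf is adjacent to `w`
    have hleaf : ∀ x, G.Adj w.1 x → G.degree x ≠ 1 := by
      intro x hx hdx
      exact hw'.1 (mem_filter.2 ⟨mem_univ _, hdw, x, hx, hdx⟩)
    constructor
    · rw [leavesAt, filter_eq_empty_iff]
      intro x _ hxw
      have h1 := hown x
      rw [hxw] at h1
      have h2 : G.degree x.1 = 1 := by
        by_contra hc
        exact x.2 (Or.inr hc)
      exact hleaf x.1 h1.symm h2
    · have h1 : G.degree w.1 ≤ (HG G A).degree w := by
        rw [← SimpleGraph.card_neighborFinset_eq_degree, ← SimpleGraph.card_neighborFinset_eq_degree]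
        have h2 : G.neighborFinset w.1 ⊆ ((HG G A).neighborFinset w).image Subtype.val := by
          intro x hx
          rw [SimpleGraph.mem_neighborFinset] at hx
          rw [mem_image]
          refine ⟨⟨x, Or.inr (hleaf x hx)⟩, ?_, rfl⟩
          rw [SimpleGraph.mem_neighborFinset]
          exact hx
        exact (card_le_card h2).trans card_image_le
      have h3 := hG.1 w.1
      omega
  · obtain ⟨M', hM', hM''⟩ := GI_matching G A M hM1 hM2
    refine ⟨M', hM', ?_⟩
    have h1 : (M.edgeSet.ncard : ℝ) ≤ M'.edgeSet.ncard := by exact_mod_cast hM''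
    have h2 : c / 2 * (Fintype.card {v // InW G A v} : ℝ) ≤ c / 2 * (2 * (inner G).card) :=
      mul_le_mul_of_nonneg_left hW2 (by positivity)
    linarith

end Pool.Agent.AMG
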