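import Pool.Agent.AMG.CfgG

/-!
# Case 3: bookkeeping for the edges of a configuration

The classes: slots `s(v, hb (fi v))`, last background edges `s(v, hb (yi v))` (`v ∈ Q`), special edges
`s(hb i, sA i)`, `s(hb i, sB i)` (`i < h`), tune edges `s(v, f v)` (`v ∈ Tn`), others. They are disjoint and the
edges in a class are distinct: an edge at a vertex of `Q` or at a special vertex has a hub as its other
end, a tune edge has both ends in `Tn ∪ hubs`.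
-/

set_option autoImplicit false
set_option linter.unusedSectionVars false
set_option linter.unusedVariables false

namespace Pool.Agent.AMG

open Finset Pool.Agent.AMF Pool.Agent.AMC

variable {W : Type} [Fintype W] [DecidableEq W] {E : Finset (Sym2 W)} {Q Tn : Finset W} {h : ℕ}
  {hb sA sB : ℕ → W} {fi yi : W → ℕ} {F4 : Finset (Sym2 W)}

private theorem neQ (hC : CfgG E Q Tn h hb sA sB fi yi F4) {v : W} (hv : v ∈ Q) {i : ℕ}
    (hi : i < h) : v ≠ hb i := fun hh => (hC.hb_not i hi).1 (hh ▸ hv)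

/-- two edges between `Q` and hubs -/
private theorem eqQQ (hC : CfgG E Q Tn h hb sA sB fi yi F4) {v w : W} (hv : v ∈ Q) (hw : w ∈ Q)
    {i j : ℕ} (hi : i < h) (hj : j < h) (he : s(v, hb i) = s(w, hb j)) : v = w ∧ i = j := by
  rcases Sym2.eq_iff.1 he with ⟨h1, h2⟩ | ⟨h1, _⟩
  · exact ⟨h1, hC.hb_inj i hi j hj h2⟩
  · exact absurd h1 (neQ hC hv hj)

private theorem neQA (hC : CfgG E Q Tn h hb sA sB fi yi F4) {v : W} (hv : v ∈ Q)
    {i j : ℕ} (hi : i < h) (hj : j < h) : s(v, hb i) ≠ s(hb j, sA j) := by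
  intro he
  rcases Sym2.eq_iff.1 he with ⟨h1, _⟩ | ⟨h1, _⟩
  · exact neQ hC hv hj h1
  · exact (hC.sA_not j hj).1 (h1 ▸ hv)

private theorem neQB (hC : CfgG E Q Tn h hb sA sB fi yi F4) {v : W} (hv : v ∈ Q)
    {i j : ℕ} (hi : i < h) (hj : j < h) : s(v, hb i) ≠ s(hb j, sB j) := by
  intro he
  rcases Sym2.eq_iff.1 he with ⟨h1, _⟩ | ⟨h1, _⟩
  · exact neQ hC hv hj h1
  · exact (hC.sB_not j hj).1 (h1 ▸ hv)

private theorem eqAA (hC : CfgG E Q Tn h hb sA sB fi yi F4) {i j : ℕ} (hi : i < h) (hj : j < h)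
    (he : s(hb i, sA i) = s(hb j, sA j)) : i = j := by
  rcases Sym2.eq_iff.1 he with ⟨h1, _⟩ | ⟨h1, _⟩
  · exact hC.hb_inj i hi j hj h1
  · exact absurd h1 (hC.hb_ne_sA i hi j hj)

private theorem eqBB (hC : CfgG E Q Tn h hb sA sB fi yi F4) {i j : ℕ} (hi : i < h) (hj : j < h)
    (he : s(hb i, sB i) = s(hb j, sB j)) : i = j := by
  rcases Sym2.eq_iff.1 he with ⟨h1, _⟩ | ⟨h1, _⟩
  · exact hC.hb_inj i hi j hj h1
  · exact absurd h1 (hC.hb_ne_sB i hi j hj)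

private theorem neAB (hC : CfgG E Q Tn h hb sA sB fi yi F4) {i j : ℕ} (hi : i < h) (hj : j < h) :
    s(hb i, sA i) ≠ s(hb j, sB j) := by
  intro he
  rcases Sym2.eq_iff.1 he with ⟨_, h2⟩ | ⟨h1, _⟩
  · exact hC.sA_ne_sB i hi j hj h2
  · exact hC.hb_ne_sB i hi j hj h1

private theorem mem_E1 {e : Sym2 W} : e ∈ E1 Q hb fi ↔ ∃ v ∈ Q, e = s(v, hb (fi v)) := by
  unfold E1
  rw [Finset.mem_image]
  exact ⟨fun ⟨v, hv, h⟩ => ⟨v, hv, h.symm⟩, fun ⟨v, hv, h⟩ => ⟨v, hv, h.symm⟩⟩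

private theorem mem_E2 {e : Sym2 W} : e ∈ E2 Q hb yi ↔ ∃ v ∈ Q, e = s(v, hb (yi v)) := by
  unfold E2
  rw [Finset.mem_image]
  exact ⟨fun ⟨v, hv, h⟩ => ⟨v, hv, h.symm⟩, fun ⟨v, hv, h⟩ => ⟨v, hv, h.symm⟩⟩

private theorem mem_A {e : Sym2 W} : e ∈ ((range h).image fun i => s(hb i, sA i)) ↔
    ∃ i < h, e = s(hb i, sA i) := by
  rw [Finset.mem_image]
  exact ⟨fun ⟨v, hv, h⟩ => ⟨v, Finset.mem_range.1 hv, h.symm⟩,
    fun ⟨v, hv, h⟩ => ⟨v, Finset.mem_range.2 hv, h.symm⟩⟩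

/-- the sum over all edges, class by class -/
private theorem sum_split (hC : CfgG E Q Tn h hb sA sB fi yi F4) (G : Sym2 W → ℕ) :
    ∑ e ∈ E, G e = ∑ e ∈ E04 E Q h hb sA sB fi yi, G e + ∑ v ∈ Q, G s(v, hb (fi v)) +
      ∑ v ∈ Q, G s(v, hb (yi v)) + ∑ i ∈ range h, G s(hb i, sA i) +
      ∑ i ∈ range h, G s(hb i, sB i) := by
  have hsub : E1 Q hb fi ∪ E2 Q hb yi ∪ E3 h hb sA sB ⊆ E := by
    intro e he
    rw [Finset.mem_union, Finset.mem_union] at he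
    unfold E3 at he
    rw [Finset.mem_union] at he
    rcases he with (he | he) | he | he
    · obtain ⟨v, hv, rfl⟩ := mem_E1.1 he
      exact hC.fE v hv
    · obtain ⟨v, hv, rfl⟩ := mem_E2.1 he
      exact hC.yE v hv
    · obtain ⟨i, hi, rfl⟩ := mem_A.1 he
      exact hC.AE i hi
    · obtain ⟨i, hi, rfl⟩ := mem_A.1 he
      exact hC.BE i hi
  have hd12 : Disjoint (E1 Q hb fi) (E2 Q hb yi) := by
    rw [Finset.disjoint_left]
    intro e h1 h2
    obtain ⟨v, hv, rfl⟩ := mem_E1.1 h1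
    obtain ⟨w, hw, he⟩ := mem_E2.1 h2
    obtain ⟨rfl, h3⟩ := eqQQ hC hv hw (hC.fi_lt v hv) (hC.yi_lt w hw) he
    exact hC.fy v hv h3
  have hd3 : Disjoint (E1 Q hb fi ∪ E2 Q hb yi) (E3 h hb sA sB) := by
    rw [Finset.disjoint_left]
    intro e h1 h2
    unfold E3 at h2
    rw [Finset.mem_union] at h1 h2
    rcases h1 with h1 | h1
    · obtain ⟨v, hv, rfl⟩ := mem_E1.1 h1
      rcases h2 with h2 | h2
      · obtain ⟨j, hj, he⟩ := mem_A.1 h2
        exact neQA hC hv (hC.fi_lt v hv) hj he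
      · obtain ⟨j, hj, he⟩ := mem_A.1 h2
        exact neQB hC hv (hC.fi_lt v hv) hj he
    · obtain ⟨v, hv, rfl⟩ := mem_E2.1 h1
      rcases h2 with h2 | h2
      · obtain ⟨j, hj, he⟩ := mem_A.1 h2
        exact neQA hC hv (hC.yi_lt v hv) hj he
      · obtain ⟨j, hj, he⟩ := mem_A.1 h2
        exact neQB hC hv (hC.yi_lt v hv) hj he
  have hdAB : Disjoint ((range h).image fun i => s(hb i, sA i))
      ((range h).image fun i => s(hb i, sB i)) := by
    rw [Finset.disjoint_left]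
    intro e h1 h2
    obtain ⟨i, hi, rfl⟩ := mem_A.1 h1
    obtain ⟨j, hj, he⟩ := mem_A.1 h2
    exact neAB hC hi hj he
  have hE1 : ∑ e ∈ E1 Q hb fi, G e = ∑ v ∈ Q, G s(v, hb (fi v)) := by
    unfold E1
    rw [Finset.sum_image]
    intro v hv w hw he
    exact (eqQQ hC hv hw (hC.fi_lt v hv) (hC.fi_lt w hw) he).1
  have hE2 : ∑ e ∈ E2 Q hb yi, G e = ∑ v ∈ Q, G s(v, hb (yi v)) := by
    unfold E2
    rw [Finset.sum_image]
    intro v hv w hw he
    exact (eqQQ hC hv hw (hC.yi_lt v hv) (hC.yi_lt w hw) he).1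
  have hE3 : ∑ e ∈ E3 h hb sA sB, G e = ∑ i ∈ range h, G s(hb i, sA i) +
      ∑ i ∈ range h, G s(hb i, sB i) := by
    unfold E3
    rw [Finset.sum_union hdAB, Finset.sum_image, Finset.sum_image]
    · intro i hi j hj he
      exact eqBB hC (Finset.mem_range.1 hi) (Finset.mem_range.1 hj) he
    · intro i hi j hj he
      exact eqAA hC (Finset.mem_range.1 hi) (Finset.mem_range.1 hj) he
  have h0 := Finset.sum_sdiff (f := G) hsub
  rw [← h0, Finset.sum_union hd3, Finset.sum_union hd12, hE1, hE2, hE3]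
  unfold E04
  ring

/-- the sum over the edges at a vertex, class by class -/
private theorem sum_at (hC : CfgG E Q Tn h hb sA sB fi yi F4) (g : Sym2 W → ℕ) (w : W) :
    ∑ e ∈ edgesAt E w, g e = ∑ e ∈ edgesAt (E04 E Q h hb sA sB fi yi) w, g e +
      ∑ v ∈ Q, (if w ∈ s(v, hb (fi v)) then g s(v, hb (fi v)) else 0) +
      ∑ v ∈ Q, (if w ∈ s(v, hb (yi v)) then g s(v, hb (yi v)) else 0) +
      ∑ i ∈ range h, (if w ∈ s(hb i, sA i) then g s(hb i, sA i) else 0) +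
      ∑ i ∈ range h, (if w ∈ s(hb i, sB i) then g s(hb i, sB i) else 0) := by
  unfold edgesAt
  rw [Finset.sum_filter, Finset.sum_filter]
  exact sum_split hC fun e => if w ∈ e then g e else 0

/-- the tune edges are in `E04` -/
theorem tune_sub (hC : CfgG E Q Tn h hb sA sB fi yi F4) : F4 ⊆ E04 E Q h hb sA sB fi yi := by
  intro e he
  unfold E04
  rw [Finset.mem_sdiff]
  refine ⟨hC.F4E he, fun hm => ?_⟩
  rw [Finset.mem_union, Finset.mem_union] at hm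
  unfold E3 at hm
  rw [Finset.mem_union] at hm
  rcases hm with (hm | hm) | hm | hm
  · obtain ⟨u, hu, h1⟩ := mem_E1.1 hm
    rcases hC.F4T e he u (by rw [h1]; exact Sym2.mem_mk_left _ _) with h2 | ⟨j, hj, h2⟩
    · exact Finset.disjoint_left.1 hC.QT hu h2
    · exact (hC.hb_not j hj).1 (h2 ▸ hu)
  · obtain ⟨u, hu, h1⟩ := mem_E2.1 hm
    rcases hC.F4T e he u (by rw [h1]; exact Sym2.mem_mk_left _ _) with h2 | ⟨j, hj, h2⟩
    · exact Finset.disjoint_left.1 hC.QT hu h2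
    · exact (hC.hb_not j hj).1 (h2 ▸ hu)
  · obtain ⟨i, hi, h1⟩ := mem_A.1 hm
    rcases hC.F4T e he (sA i) (by rw [h1]; exact Sym2.mem_mk_right _ _) with h2 | ⟨j, hj, h2⟩
    · exact (hC.sA_not i hi).2 h2
    · exact hC.hb_ne_sA j hj i hi h2.symm
  · obtain ⟨i, hi, h1⟩ := mem_A.1 hm
    rcases hC.F4T e he (sB i) (by rw [h1]; exact Sym2.mem_mk_right _ _) with h2 | ⟨j, hj, h2⟩
    · exact (hC.sB_not i hi).2 h2
    · exact hC.hb_ne_sB j hj i hi h2.symm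

/-- number of edges -/
theorem card_E (hC : CfgG E Q Tn h hb sA sB fi yi F4) :
    E.card = (E04 E Q h hb sA sB fi yi \ F4).card + F4.card + 2 * Q.card + 2 * h := by
  have h1 := sum_split hC fun _ => 1
  simp only [Finset.sum_const, smul_eq_mul, mul_one, Finset.card_range] at h1
  have h3 := Finset.card_sdiff_add_card_eq_card (tune_sub hC)
  omega

/-- every edge is in `E04` or of one of the four kinds -/
theorem edge_cases (hC : CfgG E Q Tn h hb sA sB fi yi F4) {e : Sym2 W} (he : e ∈ E) :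
    e ∈ E04 E Q h hb sA sB fi yi ∨ (∃ v ∈ Q, e = s(v, hb (fi v))) ∨ (∃ v ∈ Q, e = s(v, hb (yi v))) ∨
      (∃ i < h, e = s(hb i, sA i)) ∨ ∃ i < h, e = s(hb i, sB i) := by
  by_cases hm : e ∈ E1 Q hb fi ∪ E2 Q hb yi ∪ E3 h hb sA sB
  · right
    rw [Finset.mem_union, Finset.mem_union] at hm
    unfold E3 at hm
    rw [Finset.mem_union] at hm
    rcases hm with (hm | hm) | hm | hm
    · exact Or.inl (mem_E1.1 hm)
    · exact Or.inr (Or.inl (mem_E2.1 hm))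
    · exact Or.inr (Or.inr (Or.inl (mem_A.1 hm)))
    · exact Or.inr (Or.inr (Or.inr (mem_A.1 hm)))
  · left
    exact Finset.mem_sdiff.2 ⟨he, hm⟩

private theorem not04 {e : Sym2 W} (he : e ∈ E04 E Q h hb sA sB fi yi) :
    (∀ v ∈ Q, e ≠ s(v, hb (fi v))) ∧ (∀ v ∈ Q, e ≠ s(v, hb (yi v))) ∧
      (∀ i < h, e ≠ s(hb i, sA i)) ∧ ∀ i < h, e ≠ s(hb i, sB i) := by
  have h1 := (Finset.mem_sdiff.1 he).2
  rw [Finset.mem_union, Finset.mem_union] at h1
  unfold E3 at h1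
  rw [Finset.mem_union] at h1
  exact ⟨fun v hv h2 => h1 (Or.inl (Or.inl (mem_E1.2 ⟨v, hv, h2⟩))),
    fun v hv h2 => h1 (Or.inl (Or.inr (mem_E2.2 ⟨v, hv, h2⟩))),
    fun i hi h2 => h1 (Or.inr (Or.inl (mem_A.2 ⟨i, hi, h2⟩))),
    fun i hi h2 => h1 (Or.inr (Or.inr (mem_A.2 ⟨i, hi, h2⟩)))⟩

/-- Gluing of labels. -/
theorem glue (hC : CfgG E Q Tn h hb sA sB fi yi F4) (gt : Sym2 W → ℕ) (b ψ : W → ℕ) (α β : ℕ → ℕ) :
    ∃ g : Sym2 W → ℕ, (∀ e ∈ E04 E Q h hb sA sB fi yi, g e = gt e) ∧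
      (∀ v ∈ Q, g s(v, hb (fi v)) = ψ v) ∧ (∀ v ∈ Q, g s(v, hb (yi v)) = b v) ∧
      (∀ i < h, g s(hb i, sA i) = α i) ∧ (∀ i < h, g s(hb i, sB i) = β i) := by
  classical
  let g : Sym2 W → ℕ := fun e =>
    if e ∈ E04 E Q h hb sA sB fi yi then gt e
    else if h1 : ∃ v ∈ Q, e = s(v, hb (fi v)) then ψ h1.choose
    else if h2 : ∃ v ∈ Q, e = s(v, hb (yi v)) then b h2.choose
    else if h3 : ∃ i < h, e = s(hb i, sA i) then α h3.choose
    else if h4 : ∃ i < h, e = s(hb i, sB i) then β h4.choose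
    else 0
  refine ⟨g, fun e he => if_pos he, fun v hv => ?_, fun v hv => ?_, fun i hi => ?_, fun i hi => ?_⟩
  · have h0 : s(v, hb (fi v)) ∉ E04 E Q h hb sA sB fi yi := fun he => (not04 he).1 v hv rfl
    have h1 : ∃ u ∈ Q, s(v, hb (fi v)) = s(u, hb (fi u)) := ⟨v, hv, rfl⟩
    show (if _ then _ else _) = _
    rw [if_neg h0, dif_pos h1]
    have h2 := h1.choose_spec
    rw [← (eqQQ hC hv h2.1 (hC.fi_lt v hv) (hC.fi_lt _ h2.1) h2.2).1]
  · have h0 : s(v, hb (yi v)) ∉ E04 E Q h hb sA sB fi yi := fun he => (not04 he).2.1 v hv rfl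
    have h1 : ¬ ∃ u ∈ Q, s(v, hb (yi v)) = s(u, hb (fi u)) := by
      rintro ⟨u, hu, he⟩
      obtain ⟨rfl, h3⟩ := eqQQ hC hv hu (hC.yi_lt v hv) (hC.fi_lt u hu) he
      exact hC.fy v hv h3.symm
    have h2 : ∃ u ∈ Q, s(v, hb (yi v)) = s(u, hb (yi u)) := ⟨v, hv, rfl⟩
    show (if _ then _ else _) = _
    rw [if_neg h0, dif_neg h1, dif_pos h2]
    have h3 := h2.choose_spec
    rw [← (eqQQ hC hv h3.1 (hC.yi_lt v hv) (hC.yi_lt _ h3.1) h3.2).1]
  · have h0 : s(hb i, sA i) ∉ E04 E Q h hb sA sB fi yi := fun he => (not04 he).2.2.1 i hi rfl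
    have h1 : ¬ ∃ u ∈ Q, s(hb i, sA i) = s(u, hb (fi u)) := by
      rintro ⟨u, hu, he⟩
      exact neQA hC hu (hC.fi_lt u hu) hi he.symm
    have h2 : ¬ ∃ u ∈ Q, s(hb i, sA i) = s(u, hb (yi u)) := by
      rintro ⟨u, hu, he⟩
      exact neQA hC hu (hC.yi_lt u hu) hi he.symm
    have h3 : ∃ j < h, s(hb i, sA i) = s(hb j, sA j) := ⟨i, hi, rfl⟩
    show (if _ then _ else _) = _
    rw [if_neg h0, dif_neg h1, dif_neg h2, dif_pos h3]
    have h4 := h3.choose_spec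
    rw [← eqAA hC hi h4.1 h4.2]
  · have h0 : s(hb i, sB i) ∉ E04 E Q h hb sA sB fi yi := fun he => (not04 he).2.2.2 i hi rfl
    have h1 : ¬ ∃ u ∈ Q, s(hb i, sB i) = s(u, hb (fi u)) := by
      rintro ⟨u, hu, he⟩
      exact neQB hC hu (hC.fi_lt u hu) hi he.symm
    have h2 : ¬ ∃ u ∈ Q, s(hb i, sB i) = s(u, hb (yi u)) := by
      rintro ⟨u, hu, he⟩
      exact neQB hC hu (hC.yi_lt u hu) hi he.symm
    have h3 : ¬ ∃ j < h, s(hb i, sB i) = s(hb j, sA j) := by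
      rintro ⟨j, hj, he⟩
      exact neAB hC hj hi he.symm
    have h4 : ∃ j < h, s(hb i, sB i) = s(hb j, sB j) := ⟨i, hi, rfl⟩
    show (if _ then _ else _) = _
    rw [if_neg h0, dif_neg h1, dif_neg h2, dif_neg h3, dif_pos h4]
    have h5 := h4.choose_spec
    rw [← eqBB hC hi h5.1 h5.2]

/-- Injectivity of a glued labelling. -/
theorem glue_inj (hC : CfgG E Q Tn h hb sA sB fi yi F4) (g : Sym2 W → ℕ) (b ψ : W → ℕ)
    (α β : ℕ → ℕ) (hψ : ∀ v ∈ Q, g s(v, hb (fi v)) = ψ v) (hb' : ∀ v ∈ Q, g s(v, hb (yi v)) = b v)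
    (hα : ∀ i < h, g s(hb i, sA i) = α i) (hβ : ∀ i < h, g s(hb i, sB i) = β i)
    (h1 : Set.InjOn g (E04 E Q h hb sA sB fi yi)) (h2 : Set.InjOn b Q) (h3 : Set.InjOn ψ Q)
    (h4 : ∀ i < h, ∀ j < h, α i = α j → i = j) (h5 : ∀ i < h, ∀ j < h, β i = β j → i = j)
    (h6 : ∀ e ∈ E04 E Q h hb sA sB fi yi, ∀ v ∈ Q, g e ≠ b v ∧ g e ≠ ψ v)
    (h7 : ∀ e ∈ E04 E Q h hb sA sB fi yi, ∀ i < h, g e ≠ α i ∧ g e ≠ β i)
    (h8 : ∀ v ∈ Q, ∀ w ∈ Q, b v ≠ ψ w) (h9 : ∀ v ∈ Q, ∀ i < h, b v ≠ α i ∧ b v ≠ β i)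
    (h10 : ∀ v ∈ Q, ∀ i < h, ψ v ≠ α i ∧ ψ v ≠ β i) (h11 : ∀ i < h, ∀ j < h, α i ≠ β j) :
    Set.InjOn g E := by
  intro e he e' he' hg
  rcases edge_cases hC he with h | ⟨v, hv, rfl⟩ | ⟨v, hv, rfl⟩ | ⟨i, hi, rfl⟩ | ⟨i, hi, rfl⟩ <;>
    rcases edge_cases hC he' with h' | ⟨w, hw, rfl⟩ | ⟨w, hw, rfl⟩ | ⟨j, hj, rfl⟩ | ⟨j, hj, rfl⟩
  · exact h1 h h' hg
  · rw [hψ w hw] at hg; exact absurd hg (h6 _ h w hw).2
  · rw [hb' w hw] at hg; exact absurd hg (h6 _ h w hw).1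
  · rw [hα j hj] at hg; exact absurd hg (h7 _ h j hj).1
  · rw [hβ j hj] at hg; exact absurd hg (h7 _ h j hj).2
  · rw [hψ v hv] at hg; exact absurd hg.symm (h6 _ h' v hv).2
  · rw [hψ v hv, hψ w hw] at hg; rw [h3 hv hw hg]
  · rw [hψ v hv, hb' w hw] at hg; exact absurd hg.symm (h8 w hw v hv)
  · rw [hψ v hv, hα j hj] at hg; exact absurd hg (h10 v hv j hj).1
  · rw [hψ v hv, hβ j hj] at hg; exact absurd hg (h10 v hv j hj).2
  · rw [hb' v hv] at hg; exact absurd hg.symm (h6 _ h' v hv).1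
  · rw [hb' v hv, hψ w hw] at hg; exact absurd hg (h8 v hv w hw)
  · rw [hb' v hv, hb' w hw] at hg; rw [h2 hv hw hg]
  · rw [hb' v hv, hα j hj] at hg; exact absurd hg (h9 v hv j hj).1
  · rw [hb' v hv, hβ j hj] at hg; exact absurd hg (h9 v hv j hj).2
  · rw [hα i hi] at hg; exact absurd hg.symm (h7 _ h' i hi).1
  · rw [hα i hi, hψ w hw] at hg; exact absurd hg.symm (h10 w hw i hi).1
  · rw [hα i hi, hb' w hw] at hg; exact absurd hg.symm (h9 w hw i hi).1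
  · rw [hα i hi, hα j hj] at hg; rw [h4 i hi j hj hg]
  · rw [hα i hi, hβ j hj] at hg; exact absurd hg (h11 i hi j hj)
  · rw [hβ i hi] at hg; exact absurd hg.symm (h7 _ h' i hi).2
  · rw [hβ i hi, hψ w hw] at hg; exact absurd hg.symm (h10 w hw i hi).2
  · rw [hβ i hi, hb' w hw] at hg; exact absurd hg.symm (h9 w hw i hi).2
  · rw [hβ i hi, hα j hj] at hg; exact absurd hg.symm (h11 j hj i hi)
  · rw [hβ i hi, hβ j hj] at hg; rw [h5 i hi j hj hg]

/-- sum at a slot vertex -/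
theorem sumQ (hC : CfgG E Q Tn h hb sA sB fi yi F4) (g : Sym2 W → ℕ) {v : W} (hv : v ∈ Q) :
    ∑ e ∈ edgesAt E v, g e = ∑ e ∈ edgesAt (E04 E Q h hb sA sB fi yi) v, g e +
      g s(v, hb (yi v)) + g s(v, hb (fi v)) := by
  have hQ : ∀ (z : W → ℕ), (∀ u ∈ Q, z u < h) →
      ∑ u ∈ Q, (if v ∈ s(u, hb (z u)) then g s(u, hb (z u)) else 0) = g s(v, hb (z v)) := by
    intro z hz
    rw [Finset.sum_eq_single_of_mem v hv]
    · rw [if_pos (Sym2.mem_mk_left _ _)]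
    · intro u hu hne
      rw [if_neg]
      intro hm
      rcases Sym2.mem_iff.1 hm with h1 | h1
      · exact hne h1.symm
      · exact neQ hC hv (hz u hu) h1
  have hA : ∑ i ∈ range h, (if v ∈ s(hb i, sA i) then g s(hb i, sA i) else 0) = 0 := by
    refine Finset.sum_eq_zero fun i hi => ?_
    rw [if_neg]
    intro hm
    rcases Sym2.mem_iff.1 hm with h1 | h1
    · exact neQ hC hv (Finset.mem_range.1 hi) h1
    · exact (hC.sA_not i (Finset.mem_range.1 hi)).1 (h1 ▸ hv)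
  have hB : ∑ i ∈ range h, (if v ∈ s(hb i, sB i) then g s(hb i, sB i) else 0) = 0 := by
    refine Finset.sum_eq_zero fun i hi => ?_
    rw [if_neg]
    intro hm
    rcases Sym2.mem_iff.1 hm with h1 | h1
    · exact neQ hC hv (Finset.mem_range.1 hi) h1
    · exact (hC.sB_not i (Finset.mem_range.1 hi)).1 (h1 ▸ hv)
  rw [sum_at hC g v, hQ fi hC.fi_lt, hQ yi hC.yi_lt, hA, hB]
  ring

/-- sum at a tuned vertex -/
theorem sumT (hC : CfgG E Q Tn h hb sA sB fi yi F4) (g : Sym2 W → ℕ) {v : W} (hv : v ∈ Tn) :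
    ∑ e ∈ edgesAt E v, g e = ∑ e ∈ edgesAt (E04 E Q h hb sA sB fi yi) v, g e := by
  have hQ : ∀ (z : W → ℕ), (∀ u ∈ Q, z u < h) →
      ∑ u ∈ Q, (if v ∈ s(u, hb (z u)) then g s(u, hb (z u)) else 0) = 0 := by
    intro z hz
    refine Finset.sum_eq_zero fun u hu => ?_
    rw [if_neg]
    intro hm
    rcases Sym2.mem_iff.1 hm with h1 | h1
    · exact Finset.disjoint_left.1 hC.QT hu (h1 ▸ hv)
    · exact (hC.hb_not _ (hz u hu)).2 (h1 ▸ hv)
  have hA : ∑ i ∈ range h, (if v ∈ s(hb i, sA i) then g s(hb i, sA i) else 0) = 0 := by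
    refine Finset.sum_eq_zero fun i hi => ?_
    rw [if_neg]
    intro hm
    rcases Sym2.mem_iff.1 hm with h1 | h1
    · exact (hC.hb_not i (Finset.mem_range.1 hi)).2 (h1 ▸ hv)
    · exact (hC.sA_not i (Finset.mem_range.1 hi)).2 (h1 ▸ hv)
  have hB : ∑ i ∈ range h, (if v ∈ s(hb i, sB i) then g s(hb i, sB i) else 0) = 0 := by
    refine Finset.sum_eq_zero fun i hi => ?_
    rw [if_neg]
    intro hm
    rcases Sym2.mem_iff.1 hm with h1 | h1
    · exact (hC.hb_not i (Finset.mem_range.1 hi)).2 (h1 ▸ hv)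
    · exact (hC.sB_not i (Finset.mem_range.1 hi)).2 (h1 ▸ hv)
  rw [sum_at hC g v, hQ fi hC.fi_lt, hQ yi hC.yi_lt, hA, hB]
  ring

/-- sum at a special vertex -/
theorem sumA (hC : CfgG E Q Tn h hb sA sB fi yi F4) (g : Sym2 W → ℕ) {i : ℕ} (hi : i < h) :
    ∑ e ∈ edgesAt E (sA i), g e = ∑ e ∈ edgesAt (E04 E Q h hb sA sB fi yi) (sA i), g e +
      g s(hb i, sA i) := by
  have hQ : ∀ (z : W → ℕ), (∀ u ∈ Q, z u < h) →
      ∑ u ∈ Q, (if sA i ∈ s(u, hb (z u)) then g s(u, hb (z u)) else 0) = 0 := by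
    intro z hz
    refine Finset.sum_eq_zero fun u hu => ?_
    rw [if_neg]
    intro hm
    rcases Sym2.mem_iff.1 hm with h1 | h1
    · exact (hC.sA_not i hi).1 (h1 ▸ hu)
    · exact hC.hb_ne_sA _ (hz u hu) i hi h1.symm
  have hA : ∑ j ∈ range h, (if sA i ∈ s(hb j, sA j) then g s(hb j, sA j) else 0) =
      g s(hb i, sA i) := by
    rw [Finset.sum_eq_single_of_mem i (Finset.mem_range.2 hi)]
    · rw [if_pos (Sym2.mem_mk_right _ _)]
    · intro j hj hne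
      rw [if_neg]
      intro hm
      rcases Sym2.mem_iff.1 hm with h1 | h1
      · exact hC.hb_ne_sA j (Finset.mem_range.1 hj) i hi h1.symm
      · exact hne (hC.sA_inj i hi j (Finset.mem_range.1 hj) h1).symm
  have hB : ∑ j ∈ range h, (if sA i ∈ s(hb j, sB j) then g s(hb j, sB j) else 0) = 0 := by
    refine Finset.sum_eq_zero fun j hj => ?_
    rw [if_neg]
    intro hm
    rcases Sym2.mem_iff.1 hm with h1 | h1
    · exact hC.hb_ne_sA j (Finset.mem_range.1 hj) i hi h1.symm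
    · exact hC.sA_ne_sB i hi j (Finset.mem_range.1 hj) h1
  rw [sum_at hC g (sA i), hQ fi hC.fi_lt, hQ yi hC.yi_lt, hA, hB]
  ring

/-- sum at a special vertex -/
theorem sumB (hC : CfgG E Q Tn h hb sA sB fi yi F4) (g : Sym2 W → ℕ) {i : ℕ} (hi : i < h) :
    ∑ e ∈ edgesAt E (sB i), g e = ∑ e ∈ edgesAt (E04 E Q h hb sA sB fi yi) (sB i), g e +
      g s(hb i, sB i) := by
  have hQ : ∀ (z : W → ℕ), (∀ u ∈ Q, z u < h) →
      ∑ u ∈ Q, (if sB i ∈ s(u, hb (z u)) then g s(u, hb (z u)) else 0) = 0 := by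
    intro z hz
    refine Finset.sum_eq_zero fun u hu => ?_
    rw [if_neg]
    intro hm
    rcases Sym2.mem_iff.1 hm with h1 | h1
    · exact (hC.sB_not i hi).1 (h1 ▸ hu)
    · exact hC.hb_ne_sB _ (hz u hu) i hi h1.symm
  have hA : ∑ j ∈ range h, (if sB i ∈ s(hb j, sA j) then g s(hb j, sA j) else 0) = 0 := by
    refine Finset.sum_eq_zero fun j hj => ?_
    rw [if_neg]
    intro hm
    rcases Sym2.mem_iff.1 hm with h1 | h1
    · exact hC.hb_ne_sB j (Finset.mem_range.1 hj) i hi h1.symm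
    · exact hC.sA_ne_sB j (Finset.mem_range.1 hj) i hi h1.symm
  have hB : ∑ j ∈ range h, (if sB i ∈ s(hb j, sB j) then g s(hb j, sB j) else 0) =
      g s(hb i, sB i) := by
    rw [Finset.sum_eq_single_of_mem i (Finset.mem_range.2 hi)]
    · rw [if_pos (Sym2.mem_mk_right _ _)]
    · intro j hj hne
      rw [if_neg]
      intro hm
      rcases Sym2.mem_iff.1 hm with h1 | h1
      · exact hC.hb_ne_sB j (Finset.mem_range.1 hj) i hi h1.symm
      · exact hne (hC.sB_inj i hi j (Finset.mem_range.1 hj) h1).symm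
  rw [sum_at hC g (sB i), hQ fi hC.fi_lt, hQ yi hC.yi_lt, hA, hB]
  ring

/-- sum at a hub -/
theorem sumH (hC : CfgG E Q Tn h hb sA sB fi yi F4) (g : Sym2 W → ℕ) {i : ℕ} (hi : i < h) :
    ∑ e ∈ edgesAt E (hb i), g e = ∑ e ∈ edgesAt (E04 E Q h hb sA sB fi yi) (hb i), g e +
      ∑ v ∈ Q.filter (fun v => yi v = i), g s(v, hb (yi v)) +
      ∑ v ∈ Q.filter (fun v => fi v = i), g s(v, hb (fi v)) +
      g s(hb i, sA i) + g s(hb i, sB i) := by
  have hQ : ∀ (z : W → ℕ), (∀ u ∈ Q, z u < h) →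
      ∑ u ∈ Q, (if hb i ∈ s(u, hb (z u)) then g s(u, hb (z u)) else 0) =
        ∑ u ∈ Q.filter (fun v => z v = i), g s(u, hb (z u)) := by
    intro z hz
    rw [Finset.sum_filter]
    refine Finset.sum_congr rfl fun u hu => ?_
    have : hb i ∈ s(u, hb (z u)) ↔ z u = i := by
      rw [Sym2.mem_iff]
      constructor
      · rintro (h1 | h1)
        · exact absurd h1.symm (neQ hC hu hi)
        · exact (hC.hb_inj i hi _ (hz u hu) h1).symm
      · intro h1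
        right
        rw [h1]
    by_cases h1 : z u = i
    · rw [if_pos (this.2 h1), if_pos h1]
    · rw [if_neg fun h2 => h1 (this.1 h2), if_neg h1]
  have hA : ∑ j ∈ range h, (if hb i ∈ s(hb j, sA j) then g s(hb j, sA j) else 0) =
      g s(hb i, sA i) := by
    rw [Finset.sum_eq_single_of_mem i (Finset.mem_range.2 hi)]
    · rw [if_pos (Sym2.mem_mk_left _ _)]
    · intro j hj hne
      rw [if_neg]
      intro hm
      rcases Sym2.mem_iff.1 hm with h1 | h1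
      · exact hne (hC.hb_inj i hi j (Finset.mem_range.1 hj) h1).symm
      · exact hC.hb_ne_sA i hi j (Finset.mem_range.1 hj) h1
  have hB : ∑ j ∈ range h, (if hb i ∈ s(hb j, sB j) then g s(hb j, sB j) else 0) =
      g s(hb i, sB i) := by
    rw [Finset.sum_eq_single_of_mem i (Finset.mem_range.2 hi)]
    · rw [if_pos (Sym2.mem_mk_left _ _)]
    · intro j hj hne
      rw [if_neg]
      intro hm
      rcases Sym2.mem_iff.1 hm with h1 | h1
      · exact hne (hC.hb_inj i hi j (Finset.mem_range.1 hj) h1).symm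
      · exact hC.hb_ne_sB i hi j (Finset.mem_range.1 hj) h1
  rw [sum_at hC g (hb i), hQ fi hC.fi_lt, hQ yi hC.yi_lt, hA, hB]
  ring

end Pool.Agent.AMG
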