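import Pool.Agent.AMG.Defs

/-!
# The graph `G` and its inner vertices
-/

set_option autoImplicit false
set_option linter.unusedSectionVars false
set_option linter.unusedVariables false

namespace Pool.Agent.AMG

open Finset Pool.Agent.AMF

variable {V : Type} [Fintype V] [DecidableEq V]

/-- inner vertices (degree at least two if there are no isolated vertices) -/
def inner (G : SimpleGraph V) [DecidableRel G.Adj] : Finset V := univ.filter fun v => G.degree v ≠ 1

/-- inner vertices with a leaf -/
def supp (G : SimpleGraph V) [DecidableRel G.Adj] : Finset V :=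
  univ.filter fun v => G.degree v ≠ 1 ∧ ∃ x, G.Adj v x ∧ G.degree x = 1

/-- `Z` covers all edges between inner vertices -/
def Covers (G : SimpleGraph V) [DecidableRel G.Adj] (Z : Finset V) : Prop :=
  ∀ u v, G.Adj u v → G.degree u ≠ 1 → G.degree v ≠ 1 → u ∈ Z ∨ v ∈ Z

/-- no isolated vertex, no component with one edge -/
def Adm2 (G : SimpleGraph V) [DecidableRel G.Adj] : Prop :=
  (∀ v, 0 < G.degree v) ∧ ∀ u v, G.Adj u v → ¬ (G.degree u = 1 ∧ G.degree v = 1)

/-- no isolated vertex, no component `P2`, no component `P3` -/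
def Adm3 (G : SimpleGraph V) [DecidableRel G.Adj] : Prop :=
  Adm2 G ∧ ∀ u v w, G.Adj u v → G.Adj v w → u ≠ w →
    ¬ (G.degree u = 1 ∧ G.degree w = 1 ∧ G.degree v = 2)

/-- inner vertices and absorbed leaves -/
abbrev InW (G : SimpleGraph V) [DecidableRel G.Adj] (A : Finset V) (v : V) : Prop :=
  v ∈ A ∨ G.degree v ≠ 1

/-- the graph on the inner vertices and the absorbed leaves -/
abbrev HG (G : SimpleGraph V) [DecidableRel G.Adj] (A : Finset V) : SimpleGraph {v // InW G A v} :=
  G.comap Subtype.val

end Pool.Agent.AMG
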