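import Mathlib

/-!
# A third of the vertices of a functional graph is independent
-/

set_option autoImplicit false

namespace Pool.Agent.AMG

open Finset

private theorem Ind3_third (a b : Fin 3) : ∃ c : Fin 3, c ≠ a ∧ c ≠ b := by
  revert a b
  decide

/-- a vertex with at most one preimage -/
private theorem Ind3_vertex {W : Type*} [DecidableEq W] (S : Finset W) (hS : S.Nonempty) (f : W → W) :
    ∃ v ∈ S, (S.filter fun w => f w = v).card ≤ 1 := by
  by_contra hcon
  push Not at hcon
  have h1 : ∑ v ∈ S, (S.filter fun w => f w = v).card ≤ S.card := by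
    have h2 : ∑ v ∈ S, (S.filter fun w => f w = v).card =
        (S.filter fun w => f w ∈ S).card := by
      rw [card_eq_sum_card_fiberwise (f := f) (s := S.filter fun w => f w ∈ S) (t := S)
        (fun w hw => (mem_filter.1 hw).2)]
      refine sum_congr rfl fun v hv => ?_
      congr 1
      ext w
      simp only [mem_filter]
      constructor
      · rintro ⟨h3, h4⟩
        exact ⟨⟨h3, h4 ▸ hv⟩, h4⟩
      · rintro ⟨⟨h3, -⟩, h4⟩
        exact ⟨h3, h4⟩
    rw [h2]
    exact card_filter_le _ _
  have h3 : S.card * 2 ≤ ∑ v ∈ S, (S.filter fun w => f w = v).card := by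
    rw [← smul_eq_mul]
    exact card_nsmul_le_sum _ _ _ fun v hv => hcon v hv
  have h4 := card_pos.2 hS
  omega

private theorem Ind3_colour {W : Type*} [DecidableEq W] (f : W → W) :
    ∀ (n : ℕ) (S : Finset W), S.card = n → (∀ w ∈ S, f w ≠ w) →
      ∃ c : W → Fin 3, ∀ w ∈ S, f w ∈ S → c w ≠ c (f w) := by
  intro n
  induction n with
  | zero =>
    intro S hS _
    rw [card_eq_zero] at hS
    subst hS
    exact ⟨fun _ => 0, fun w hw => absurd hw (notMem_empty w)⟩
  | succ n ih =>
    intro S hS hf
    obtain ⟨v, hv, hcard⟩ := Ind3_vertex S (card_pos.1 (by omega)) f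
    obtain ⟨c, hc⟩ := ih (S.erase v) (by rw [card_erase_of_mem hv, hS]; rfl)
      (fun w hw => hf w (mem_of_mem_erase hw))
    -- the colour to be avoided
    obtain ⟨b, hb⟩ : ∃ b : Fin 3, ∀ w ∈ S, f w = v → c w = b := by
      rcases (S.filter fun w => f w = v).eq_empty_or_nonempty with he | ⟨w0, hw0⟩
      · refine ⟨0, fun w hw hwv => ?_⟩
        have : w ∈ S.filter fun w => f w = v := mem_filter.2 ⟨hw, hwv⟩
        rw [he] at this
        exact absurd this (notMem_empty w)
      · refine ⟨c w0, fun w hw hwv => ?_⟩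
        have h1 : w ∈ S.filter fun w => f w = v := mem_filter.2 ⟨hw, hwv⟩
        rw [card_le_one.1 hcard w h1 w0 hw0]
    obtain ⟨col, h1, h2⟩ := Ind3_third (c (f v)) b
    refine ⟨Function.update c v col, fun w hw hfw => ?_⟩
    by_cases hwv : w = v
    · subst hwv
      rw [Function.update_self, Function.update_of_ne (hf w hw)]
      exact h1
    · rw [Function.update_of_ne hwv]
      by_cases hfv : f w = v
      · rw [hfv, Function.update_self, hb w hw hfv]
        exact h2.symm
      · rw [Function.update_of_ne hfv]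
        exact hc w (mem_erase.2 ⟨hwv, hw⟩) (mem_erase.2 ⟨hfv, hfw⟩)

/-- Every map without fixed points has an independent set of at least a third of the vertices. Proof:
the graph with the edges `w - f w` (`w ∈ R`) on every subset `S` of `R` has at most `|S|` edges, so it has a
vertex of degree at most two in `S`; by induction on `|S|` it has a proper colouring with three colours
(colour `S` minus this vertex first); take the largest colour class. -/
theorem exists_indep3 {W : Type*} [DecidableEq W] (R : Finset W) (f : W → W)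
    (hf : ∀ w ∈ R, f w ≠ w) :
    ∃ R1 : Finset W, R1 ⊆ R ∧ R.card ≤ 3 * R1.card ∧ ∀ w ∈ R1, f w ∉ R1 := by
  obtain ⟨c, hc⟩ := Ind3_colour f R.card R rfl hf
  have hsum : R.card = ∑ i : Fin 3, (R.filter fun w => c w = i).card :=
    card_eq_sum_card_fiberwise fun _ _ => mem_univ _
  rw [Fin.sum_univ_three] at hsum
  have hcls : ∀ i : Fin 3, ∀ w ∈ R.filter (fun w => c w = i), f w ∉ R.filter (fun w => c w = i) := by
    intro i w hw hfw
    obtain ⟨h1, h2⟩ := mem_filter.1 hw
    obtain ⟨h3, h4⟩ := mem_filter.1 hfw
    exact hc w h1 h3 (h2.trans h4.symm)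
  by_cases h0 : R.card ≤ 3 * (R.filter fun w => c w = 0).card
  · exact ⟨_, filter_subset _ _, h0, hcls 0⟩
  · by_cases h1 : R.card ≤ 3 * (R.filter fun w => c w = 1).card
    · exact ⟨_, filter_subset _ _, h1, hcls 1⟩
    · exact ⟨_, filter_subset _ _, by omega, hcls 2⟩

end Pool.Agent.AMG
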