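import Pool.Agent.AMG.Graph
import Pool.Agent.AMF.MoC

/-!
# Matching of inner vertices or cover
-/

set_option autoImplicit false

namespace Pool.Agent.AMG

open Finset Pool.Agent.AMF

/-- A maximal matching of inner vertices, or a cover. `matching_or_cover` for the graph `HG G ∅`. -/
theorem matching_or_coverG {V : Type} [Fintype V] [DecidableEq V] (G : SimpleGraph V)
    [DecidableRel G.Adj] (t : ℝ) (ht : 0 ≤ t) :
    (∃ M : G.Subgraph, M.IsMatching ∧ (∀ v ∈ M.verts, G.degree v ≠ 1) ∧ t ≤ M.edgeSet.ncard) ∨
      ∃ Z : Finset V, Covers G Z ∧ (Z.card : ℝ) ≤ 2 * t := by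
  classical
  set P : ℕ → Prop := fun k => ∃ M : G.Subgraph, M.IsMatching ∧ (∀ v ∈ M.verts, G.degree v ≠ 1) ∧
    M.edgeSet.ncard = k ∧ M.verts.ncard ≤ 2 * k with hP
  have h0 : P 0 := by
    refine ⟨⊥, ?_, ?_, ?_, ?_⟩
    · intro v hv; simp at hv
    · intro v hv; simp at hv
    · simp
    · simp
  have hbd : ∀ k, P k → k ≤ Fintype.card (Sym2 V) := by
    rintro k ⟨M, -, -, hk, -⟩
    rw [← hk, ← Nat.card_eq_fintype_card, ← Set.ncard_univ]
    exact Set.ncard_le_ncard (Set.subset_univ _) (Set.toFinite _)
  obtain ⟨k, hk, hmax⟩ : ∃ k, P k ∧ ¬ P (k + 1) := by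
    by_contra hcon
    push Not at hcon
    have hall : ∀ k, P k := fun k => Nat.rec h0 (fun k ih => hcon k ih) k
    have := hbd _ (hall (Fintype.card (Sym2 V) + 1))
    omega
  obtain ⟨M, hM, hMi, hMk, hMv⟩ := hk
  by_cases htk : t ≤ k
  · left
    exact ⟨M, hM, hMi, by rw [hMk]; exact htk⟩
  · right
    push Not at htk
    refine ⟨M.verts.toFinset, ?_, ?_⟩
    · intro v w he hdv hdw
      by_contra hno
      push Not at hno
      have hv : v ∉ M.verts := fun h => hno.1 (Set.mem_toFinset.2 h)
      have hw : w ∉ M.verts := fun h => hno.2 (Set.mem_toFinset.2 h)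
      apply hmax
      refine ⟨M ⊔ G.subgraphOfAdj he, ?_, ?_, ?_, ?_⟩
      · refine hM.sup (SimpleGraph.Subgraph.IsMatching.subgraphOfAdj he) ?_
        rw [Set.disjoint_left]
        intro x hx hx'
        have hx1 : x ∈ M.verts := M.support_subset_verts hx
        have hx2 : x ∈ (G.subgraphOfAdj he).verts :=
          (G.subgraphOfAdj he).support_subset_verts hx'
        simp only [SimpleGraph.subgraphOfAdj_verts, Set.mem_insert_iff,
          Set.mem_singleton_iff] at hx2
        rcases hx2 with rfl | rfl
        · exact hv hx1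
        · exact hw hx1
      · intro x hx
        rw [SimpleGraph.Subgraph.verts_sup, SimpleGraph.subgraphOfAdj_verts] at hx
        rcases hx with hx | hx
        · exact hMi x hx
        · simp only [Set.mem_insert_iff, Set.mem_singleton_iff] at hx
          rcases hx with rfl | rfl
          · exact hdv
          · exact hdw
      · have hnot : s(v, w) ∉ M.edgeSet := by
          intro h
          rw [SimpleGraph.Subgraph.mem_edgeSet] at h
          exact hv h.fst_mem
        rw [SimpleGraph.Subgraph.edgeSet_sup, SimpleGraph.edgeSet_subgraphOfAdj,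
          Set.union_singleton, Set.ncard_insert_of_notMem hnot (Set.toFinite _), hMk]
      · rw [SimpleGraph.Subgraph.verts_sup, SimpleGraph.subgraphOfAdj_verts]
        refine (Set.ncard_union_le _ _).trans ?_
        have := Set.ncard_insert_le v ({w} : Set V)
        rw [Set.ncard_singleton] at this
        omega
    · rw [← Set.ncard_eq_toFinset_card']
      have : (M.verts.ncard : ℝ) ≤ 2 * k := by exact_mod_cast hMv
      linarith

end Pool.Agent.AMG
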