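import Pool.Agent.AMG.G0
import Pool.Agent.AMG.G3
import Pool.Agent.AMG.GI
import Pool.Agent.AMG.G12
import Pool.Agent.AMG.MoCG

/-!
# All large graphs without isolated vertices, `P2`, `P3` components are antimagic
-/

set_option autoImplicit false

namespace Pool.Agent.AMG

open Finset Pool.Agent.AMF

/-- **Main theorem.** -/
theorem mainG : ∃ m0 : ℕ, ∀ (V : Type) [Fintype V] [DecidableEq V] (G : SimpleGraph V)
    [DecidableRel G.Adj], Adm3 G → m0 ≤ G.edgeFinset.card → Antimagic G := by
  obtain ⟨ε, hε, n3, h3⟩ := G3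
  obtain ⟨e1', he1', nI, hI⟩ := GI (ε / 4) (by positivity)
  obtain ⟨e1, he1, he11, he12⟩ : ∃ e1 : ℝ, 0 < e1 ∧ e1 ≤ e1' ∧ e1 ≤ ε / 4 :=
    ⟨min e1' (ε / 4), by positivity, min_le_left _ _, min_le_right _ _⟩
  obtain ⟨nL, hL⟩ := caseL e1 he1
  obtain ⟨m0, h0⟩ := G0 (n3 + nI + nL)
  refine ⟨m0, ?_⟩
  intro V _ _ G _ hG hm
  obtain ⟨n, hn⟩ : ∃ n, n = (inner G).card := ⟨_, rfl⟩
  by_cases hcase : n ≤ n3 + nI + nL
  · exact h0 V G hG.1 (hn ▸ hcase) hm
  · push Not at hcase
    have hnn : (0 : ℝ) ≤ n := Nat.cast_nonneg n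
    by_cases hsup : e1 * n ≤ ((supp G).card : ℝ)
    · rw [hn] at hsup
      exact hL V G hG (by omega) hsup
    · push Not at hsup
      rcases matching_or_coverG G (ε / 4 * n) (by positivity) with hM | ⟨Z, hZ, hZc⟩
      · rw [hn] at hM
        refine hI V G hG.1 (by omega) ?_ hM
        rw [← hn]
        have := mul_le_mul_of_nonneg_right he11 hnn
        linarith
      · refine h3 V G hG.1 (by omega) (Z ∪ supp G) ?_ subset_union_right ?_
        · intro u v huv hu hv
          rcases hZ u v huv hu hv with h | h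
          · exact Or.inl (mem_union_left _ h)
          · exact Or.inr (mem_union_left _ h)
        · rw [← hn]
          have h5 : ((Z ∪ supp G).card : ℝ) ≤ Z.card + (supp G).card := by
            exact_mod_cast card_union_le _ _
          have := mul_le_mul_of_nonneg_right he12 hnn
          linarith

end Pool.Agent.AMG
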