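import Pool.Agent.AMG.Defs

/-!
# Triples in the components that do not meet a given set
-/

set_option autoImplicit false

namespace Pool.Agent.AMG

open Finset Pool.Agent.AMF

private theorem Roots_triple {W : Type} (H : SimpleGraph W)
    (hB : (∀ w, ∃ u, H.Adj w u) ∧
      ∀ u v, H.Adj u v → ∃ x, x ≠ u ∧ x ≠ v ∧ (H.Adj u x ∨ H.Adj v x)) (w : W) :
    ∃ t : W × W × W, (H.Adj t.1 t.2.1 ∧ H.Adj t.1 t.2.2 ∧ t.2.1 ≠ t.2.2) ∧ H.Reachable w t.1 := by
  obtain ⟨u, hu⟩ := hB.1 w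
  obtain ⟨x, hxw, hxu, hx | hx⟩ := hB.2 w u hu
  · exact ⟨(w, u, x), ⟨hu, hx, hxu.symm⟩, SimpleGraph.Reachable.refl w⟩
  · exact ⟨(u, w, x), ⟨hu.symm, hx, hxw.symm⟩, hu.reachable⟩

/-- In every component of `H` that does not meet `Z0` choose a vertex `x` with two neighbours `y`, `z` (the
component has at least three vertices). -/
theorem exists_roots {W : Type} [Fintype W] [DecidableEq W] (H : SimpleGraph W) (hB : Big H)
    (Z0 : Finset W) :
    ∃ l : List (W × W × W), (∀ u ∈ l, H.Adj u.1 u.2.1 ∧ H.Adj u.1 u.2.2 ∧ u.2.1 ≠ u.2.2) ∧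
      (l.Pairwise fun u v => ¬ H.Reachable u.1 v.1) ∧
      (∀ u ∈ l, ∀ z ∈ Z0, ¬ H.Reachable u.1 z) ∧
      ∀ w, (∃ z ∈ Z0, H.Reachable w z) ∨ ∃ u ∈ l, H.Reachable w u.1 := by
  classical
  have hfin : Finite H.ConnectedComponent :=
    Finite.of_surjective H.connectedComponentMk (fun c => c.exists_rep)
  let _ : Fintype H.ConnectedComponent := Fintype.ofFinite _
  have hc : ∀ c : H.ConnectedComponent, ∃ t : W × W × W,
      (H.Adj t.1 t.2.1 ∧ H.Adj t.1 t.2.2 ∧ t.2.1 ≠ t.2.2) ∧ H.connectedComponentMk t.1 = c := by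
    intro c
    obtain ⟨w, rfl⟩ := c.exists_rep
    obtain ⟨t, h1, h2⟩ := Roots_triple H hB w
    exact ⟨t, h1, (SimpleGraph.ConnectedComponent.eq.2 h2).symm⟩
  choose t ht1 ht2 using hc
  let C : Finset H.ConnectedComponent :=
    Finset.univ.filter fun c => ∀ z ∈ Z0, H.connectedComponentMk z ≠ c
  have hC : ∀ c, c ∈ C ↔ ∀ z ∈ Z0, H.connectedComponentMk z ≠ c := fun c => by simp [C]
  refine ⟨C.toList.map t, ?_, ?_, ?_, ?_⟩
  · intro u hu
    obtain ⟨c, -, rfl⟩ := List.mem_map.1 hu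
    exact ht1 c
  · rw [List.pairwise_map]
    refine (Finset.nodup_toList C).imp ?_
    intro a b hab hr
    apply hab
    rw [← ht2 a, ← ht2 b]
    exact SimpleGraph.ConnectedComponent.eq.2 hr
  · intro u hu z hz hr
    obtain ⟨c, hcC, rfl⟩ := List.mem_map.1 hu
    rw [Finset.mem_toList, hC] at hcC
    apply hcC z hz
    rw [← ht2 c]
    exact (SimpleGraph.ConnectedComponent.eq.2 hr).symm
  · intro w
    by_cases h : ∃ z ∈ Z0, H.Reachable w z
    · exact Or.inl h
    · right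
      push Not at h
      have hw : H.connectedComponentMk w ∈ C := by
        rw [hC]
        intro z hz h'
        exact h z hz (SimpleGraph.ConnectedComponent.eq.1 h').symm
      refine ⟨t (H.connectedComponentMk w), List.mem_map.2 ⟨_, Finset.mem_toList.2 hw, rfl⟩, ?_⟩
      exact (SimpleGraph.ConnectedComponent.eq.1 (ht2 (H.connectedComponentMk w))).symm

end Pool.Agent.AMG
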