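import Pool.Agent.AMG.GlueG

/-!
# Case 3: labels of the tune edges and the other edges
-/

set_option autoImplicit false

namespace Pool.Agent.AMG

open Finset Pool.Agent.AMF Pool.Agent.AMC

/-- First stage. The edges of `E04 \ F4` get the labels `a + 1, ..., a + r` (`r` = their number) in any
order; then `Tunable F4 Tn` (with `E' = E04`, `A = {a + r + 1, ..., a + r + q + t}`, `t = |F4|`). -/
theorem stage1G {W : Type} [Fintype W] [DecidableEq W] {E : Finset (Sym2 W)} {Q Tn : Finset W} {h : ℕ}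
    {hb sA sB : ℕ → W} {fi yi : W → ℕ} {F4 : Finset (Sym2 W)}
    (hC : CfgG E Q Tn h hb sA sB fi yi F4) (p : ℕ) [NeZero p] (c0 : W → ZMod p) (a q : ℕ)
    (hq : 10 * Tn.card + 10 ≤ q) (hp : q + Tn.card ≤ p) :
    ∃ gt : Sym2 W → ℕ, Set.InjOn gt (E04 E Q h hb sA sB fi yi) ∧
      (∀ e ∈ E04 E Q h hb sA sB fi yi \ F4,
        a < gt e ∧ gt e ≤ a + (E04 E Q h hb sA sB fi yi \ F4).card) ∧
      (∀ e ∈ F4, a + (E04 E Q h hb sA sB fi yi \ F4).card < gt e ∧
        gt e ≤ a + (E04 E Q h hb sA sB fi yi \ F4).card + (q + F4.card)) ∧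
      ∀ v ∈ Tn, ∀ w ∈ Tn,
        c0 v + ∑ e ∈ edgesAt (E04 E Q h hb sA sB fi yi) v, (gt e : ZMod p) =
          c0 w + ∑ e ∈ edgesAt (E04 E Q h hb sA sB fi yi) w, (gt e : ZMod p) → v = w := by
  classical
  obtain ⟨r, hr⟩ : ∃ r, r = (E04 E Q h hb sA sB fi yi \ F4).card := ⟨_, rfl⟩
  set R := E04 E Q h hb sA sB fi yi \ F4 with hR
  have hsub := tune_sub hC
  -- labels of the other edges
  let en := R.equivFin
  let g0 : Sym2 W → ℕ := fun e => if he : e ∈ R then a + (en ⟨e, he⟩ : ℕ) + 1 else 0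
  have hg0 : ∀ e (he : e ∈ R), g0 e = a + (en ⟨e, he⟩ : ℕ) + 1 := fun e he => dif_pos he
  have hc4 := hC.F4c
  obtain ⟨g, h1, h2, h3, h4⟩ := hC.F4t (E04 E Q h hb sA sB fi yi) hsub p c0 g0
    (Finset.Ioc (a + R.card) (a + R.card + (q + F4.card))) (by
      intro x hx y hy hxy
      rw [mem_Ioc] at hx hy
      have h5 := (ZMod.natCast_eq_natCast_iff x y p).1 hxy
      have h6 : x ≤ y ∨ y ≤ x := le_total x y
      rcases h6 with h6 | h6
      · have h7 := (Nat.modEq_iff_dvd' h6).1 h5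
        have h8 : y - x < p := by omega
        have := Nat.eq_zero_of_dvd_of_lt h7 h8
        omega
      · have h7 := (Nat.modEq_iff_dvd' h6).1 h5.symm
        have h8 : x - y < p := by omega
        have := Nat.eq_zero_of_dvd_of_lt h7 h8
        omega) (by rw [Nat.card_Ioc]; omega)
  have hgR : ∀ e (he : e ∈ R), g e = a + (en ⟨e, he⟩ : ℕ) + 1 := by
    intro e he
    rw [h1 e (mem_sdiff.1 he).2, hg0 e he]
  refine ⟨g, ?_, ?_, ?_, h4⟩
  · intro e he e' he' hee
    by_cases h5 : e ∈ F4 <;> by_cases h6 : e' ∈ F4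
    · exact h3 h5 h6 hee
    · exfalso
      have h7 := h2 e h5
      have h8 : e' ∈ R := mem_sdiff.2 ⟨he', h6⟩
      rw [mem_Ioc] at h7
      rw [hee, hgR e' h8] at h7
      have := (en ⟨e', h8⟩).isLt
      omega
    · exfalso
      have h7 := h2 e' h6
      have h8 : e ∈ R := mem_sdiff.2 ⟨he, h5⟩
      rw [mem_Ioc] at h7
      rw [← hee, hgR e h8] at h7
      have := (en ⟨e, h8⟩).isLt
      omega
    · have h7 : e ∈ R := mem_sdiff.2 ⟨he, h5⟩
      have h8 : e' ∈ R := mem_sdiff.2 ⟨he', h6⟩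
      rw [hgR e h7, hgR e' h8] at hee
      have h9 : (en ⟨e, h7⟩ : ℕ) = (en ⟨e', h8⟩ : ℕ) := by omega
      have h10 := en.injective (Fin.ext h9)
      exact congrArg Subtype.val h10
  · intro e he
    rw [hgR e he]
    have := (en ⟨e, he⟩).isLt
    omega
  · intro e he
    have := h2 e he
    rw [mem_Ioc] at this
    exact this

end Pool.Agent.AMG
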