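import Pool.Agent.AMG.Defs

/-!
# Greedy labelling of triples
-/

set_option autoImplicit false

namespace Pool.Agent.AMG

open Finset Pool.Agent.AMF

theorem Trip_avoid {p : ℕ} [NeZero p] (A : Finset ℕ)
    (hA : ∀ a ∈ A, ∀ b ∈ A, (a : ZMod p) = b → a = b) (K : ZMod p) (Z : Finset (ZMod p)) :
    (A.filter fun a : ℕ => K + (a : ZMod p) ∈ Z).card ≤ Z.card := by
  refine Finset.card_le_card_of_injOn (fun a : ℕ => K + (a : ZMod p)) ?_ ?_
  · intro a ha
    exact (Finset.mem_filter.1 ha).2
  · intro a ha b hb hab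
    exact hA a (Finset.mem_filter.1 ha).1 b (Finset.mem_filter.1 hb).1 (add_left_cancel hab)

theorem Trip_avoid_one {p : ℕ} [NeZero p] (A : Finset ℕ)
    (hA : ∀ a ∈ A, ∀ b ∈ A, (a : ZMod p) = b → a = b) (c : ZMod p) :
    (A.filter fun a : ℕ => (a : ZMod p) = c).card ≤ 1 := by
  refine Finset.card_le_one.2 fun a ha b hb => ?_
  exact hA a (Finset.mem_filter.1 ha).1 b (Finset.mem_filter.1 hb).1
    ((Finset.mem_filter.1 ha).2.trans (Finset.mem_filter.1 hb).2.symm)

/-- **Triples.** `l` is a list of triples `(x, y, z)` (`u.1 = x`, `u.2.1 = y`, `u.2.2 = z`) with edges `xy`, `xz`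
in `E`; different triples are disjoint. `g0` gives the labels of the other edges of `E`. The edges of the
triples get distinct labels of `A` (distinct modulo `p`) such that the sums at the vertices of the triples
are distinct and not in `Y`. Induction on the list. For a triple let `K1, K2, K3` be the sums of the other
edges (and `c0`) at `x, y, z`. First choose `b = g (xz)`: unused, `K3 + b` not in `Y` and not one of the
earlier sums, `K1 + b ≠ K2`. Then `a = g (xy)`: unused, `K2 + a`, `K1 + b + a` not in `Y` and not earlier sums,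
`K1 + a ≠ K3`, `K2 + a ≠ K3 + b`. At most `2 |Y| + 8 n + 4` forbidden labels (`n` = length of the list). -/
theorem triples {W : Type} [Fintype W] [DecidableEq W] (p : ℕ) [NeZero p] (c0 : W → ZMod p)
    (E : Finset (Sym2 W)) (l : List (W × W × W))
    (hE : ∀ u ∈ l, s(u.1, u.2.1) ∈ E ∧ s(u.1, u.2.2) ∈ E)
    (hne : ∀ u ∈ l, u.1 ≠ u.2.1 ∧ u.1 ≠ u.2.2 ∧ u.2.1 ≠ u.2.2)
    (hpw : l.Pairwise fun u v => Disjoint ({u.1, u.2.1, u.2.2} : Finset W) {v.1, v.2.1, v.2.2})
    (g0 : Sym2 W → ℕ) (A : Finset ℕ) (hA : ∀ a ∈ A, ∀ b ∈ A, (a : ZMod p) = b → a = b)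
    (Y : Finset (ZMod p)) (hc : 8 * l.length + 2 * Y.card + 4 ≤ A.card) :
    ∃ g : Sym2 W → ℕ, (∀ e, (∀ u ∈ l, e ≠ s(u.1, u.2.1) ∧ e ≠ s(u.1, u.2.2)) → g e = g0 e) ∧
      (∀ u ∈ l, g s(u.1, u.2.1) ∈ A ∧ g s(u.1, u.2.2) ∈ A) ∧
      (∀ u ∈ l, ∀ v ∈ l, ∀ e ∈ ({s(u.1, u.2.1), s(u.1, u.2.2)} : Finset (Sym2 W)),
        ∀ e' ∈ ({s(v.1, v.2.1), s(v.1, v.2.2)} : Finset (Sym2 W)), g e = g e' → e = e') ∧
      (∀ u ∈ l, ∀ w ∈ ({u.1, u.2.1, u.2.2} : Finset W),
        c0 w + ∑ e ∈ edgesAt E w, (g e : ZMod p) ∉ Y) ∧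
      ∀ u ∈ l, ∀ v ∈ l, ∀ w ∈ ({u.1, u.2.1, u.2.2} : Finset W), ∀ w' ∈ ({v.1, v.2.1, v.2.2} : Finset W),
        c0 w + ∑ e ∈ edgesAt E w, (g e : ZMod p) = c0 w' + ∑ e ∈ edgesAt E w', (g e : ZMod p) →
        w = w' := by
  induction l with
  | nil => exact ⟨g0, fun _ _ => rfl, by simp, by simp, by simp, by simp⟩
  | cons u l ih =>
    obtain ⟨x, y, z⟩ := u
    rw [List.pairwise_cons] at hpw
    obtain ⟨hpw1, hpw2⟩ := hpw
    simp only [List.length_cons] at hc
    obtain ⟨g, h1, h2, h3, h4, h5⟩ := ih (fun v hv => hE v (List.mem_cons_of_mem _ hv))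
      (fun v hv => hne v (List.mem_cons_of_mem _ hv)) hpw2 (by omega)
    obtain ⟨haE, hbE⟩ : s(x, y) ∈ E ∧ s(x, z) ∈ E := hE (x, y, z) List.mem_cons_self
    obtain ⟨hxy, hxz, hyz⟩ : x ≠ y ∧ x ≠ z ∧ y ≠ z := hne (x, y, z) List.mem_cons_self
    have hdis : ∀ v ∈ l, ∀ w ∈ ({v.1, v.2.1, v.2.2} : Finset W), w ≠ x ∧ w ≠ y ∧ w ≠ z := by
      intro v hv w hw
      have h6 : Disjoint ({x, y, z} : Finset W) {v.1, v.2.1, v.2.2} := hpw1 v hv
      rw [Finset.disjoint_left] at h6
      refine ⟨?_, ?_, ?_⟩ <;> rintro rfl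
      · exact h6 (by simp) hw
      · exact h6 (by simp) hw
      · exact h6 (by simp) hw
    have hab : s(x, y) ≠ s(x, z) := by
      intro h
      rcases Sym2.eq_iff.1 h with h6 | h6
      · exact hyz h6.2
      · exact hxz h6.1
    -- the edges of the other triples are different from the two edges
    have hedge : ∀ v ∈ l, ∀ e ∈ ({s(v.1, v.2.1), s(v.1, v.2.2)} : Finset (Sym2 W)),
        e ≠ s(x, y) ∧ e ≠ s(x, z) := by
      intro v hv e he
      have h6 : v.1 ∈ e := by
        rw [Finset.mem_insert, Finset.mem_singleton] at he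
        rcases he with rfl | rfl <;> exact Sym2.mem_mk_left _ _
      obtain ⟨h7, h8, h9⟩ := hdis v hv v.1 (by simp)
      constructor
      · rintro rfl
        rcases Sym2.mem_iff.1 h6 with h | h
        · exact h7 h
        · exact h8 h
      · rintro rfl
        rcases Sym2.mem_iff.1 h6 with h | h
        · exact h7 h
        · exact h9 h
    -- used labels and sums
    set U : Finset ℕ := (l.map fun v => g s(v.1, v.2.1)).toFinset ∪
      (l.map fun v => g s(v.1, v.2.2)).toFinset with hU
    have hUc : U.card ≤ 2 * l.length := by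
      refine (Finset.card_union_le _ _).trans ?_
      have e1 := List.toFinset_card_le (l.map fun v => g s(v.1, v.2.1))
      have e2 := List.toFinset_card_le (l.map fun v => g s(v.1, v.2.2))
      rw [List.length_map] at e1 e2
      omega
    have hUm : ∀ v ∈ l, ∀ e ∈ ({s(v.1, v.2.1), s(v.1, v.2.2)} : Finset (Sym2 W)), g e ∈ U := by
      intro v hv e he
      rw [Finset.mem_insert, Finset.mem_singleton] at he
      rw [hU, Finset.mem_union, List.mem_toFinset, List.mem_toFinset]
      rcases he with rfl | rfl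
      · exact Or.inl (List.mem_map_of_mem (f := fun v : W × W × W => g s(v.1, v.2.1)) hv)
      · exact Or.inr (List.mem_map_of_mem (f := fun v : W × W × W => g s(v.1, v.2.2)) hv)
    set sm : W → ZMod p := fun w => c0 w + ∑ e ∈ edgesAt E w, (g e : ZMod p) with hsm
    set S : Finset (ZMod p) := (l.map fun v => sm v.1).toFinset ∪
      ((l.map fun v => sm v.2.1).toFinset ∪ (l.map fun v => sm v.2.2).toFinset) with hS
    have hSc : S.card ≤ 3 * l.length := by
      refine (Finset.card_union_le _ _).trans ?_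
      have e0 := Finset.card_union_le (l.map fun v => sm v.2.1).toFinset
        (l.map fun v => sm v.2.2).toFinset
      have e1 := List.toFinset_card_le (l.map fun v => sm v.1)
      have e2 := List.toFinset_card_le (l.map fun v => sm v.2.1)
      have e3 := List.toFinset_card_le (l.map fun v => sm v.2.2)
      rw [List.length_map] at e1 e2 e3
      omega
    have hSm : ∀ v ∈ l, ∀ w ∈ ({v.1, v.2.1, v.2.2} : Finset W), sm w ∈ S := by
      intro v hv w hw
      rw [Finset.mem_insert, Finset.mem_insert, Finset.mem_singleton] at hw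
      rw [hS, Finset.mem_union, Finset.mem_union, List.mem_toFinset, List.mem_toFinset,
        List.mem_toFinset]
      rcases hw with rfl | rfl | rfl
      · exact Or.inl (List.mem_map_of_mem (f := fun v : W × W × W => sm v.1) hv)
      · exact Or.inr (Or.inl (List.mem_map_of_mem (f := fun v : W × W × W => sm v.2.1) hv))
      · exact Or.inr (Or.inr (List.mem_map_of_mem (f := fun v : W × W × W => sm v.2.2) hv))
    have hZc : (Y ∪ S).card ≤ Y.card + 3 * l.length :=
      (Finset.card_union_le _ _).trans (Nat.add_le_add_left hSc _)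
    set K1 : ZMod p := c0 x + ∑ e ∈ ((edgesAt E x).erase s(x, y)).erase s(x, z), (g e : ZMod p)
      with hK1
    set K2 : ZMod p := c0 y + ∑ e ∈ (edgesAt E y).erase s(x, y), (g e : ZMod p) with hK2
    set K3 : ZMod p := c0 z + ∑ e ∈ (edgesAt E z).erase s(x, z), (g e : ZMod p) with hK3
    -- choice of `b`
    obtain ⟨b, hbA, hbB⟩ : ∃ b ∈ A, b ∉ U ∪ ((A.filter fun b : ℕ => K3 + (b : ZMod p) ∈ Y ∪ S) ∪
        (A.filter fun b : ℕ => (b : ZMod p) = K2 - K1)) := by
      by_contra hcon
      push Not at hcon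
      have e0 := Finset.card_le_card (show A ⊆ U ∪ ((A.filter fun b : ℕ =>
        K3 + (b : ZMod p) ∈ Y ∪ S) ∪ (A.filter fun b : ℕ => (b : ZMod p) = K2 - K1)) from
        fun b hb => hcon b hb)
      have e1 := Finset.card_union_le U ((A.filter fun b : ℕ => K3 + (b : ZMod p) ∈ Y ∪ S) ∪
        (A.filter fun b : ℕ => (b : ZMod p) = K2 - K1))
      have e2 := Finset.card_union_le (A.filter fun b : ℕ => K3 + (b : ZMod p) ∈ Y ∪ S)
        (A.filter fun b : ℕ => (b : ZMod p) = K2 - K1)
      have e3 := Trip_avoid A hA K3 (Y ∪ S)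
      have e4 := Trip_avoid_one A hA (K2 - K1)
      omega
    simp only [Finset.mem_union (s := U), Finset.mem_union (s := A.filter _), not_or] at hbB
    obtain ⟨hb1, hb2, hb3⟩ := hbB
    have hb2' : K3 + (b : ZMod p) ∉ Y ∪ S := fun h => hb2 (Finset.mem_filter.2 ⟨hbA, h⟩)
    have hb3' : K1 + (b : ZMod p) ≠ K2 := fun h => hb3 (Finset.mem_filter.2 ⟨hbA, by
      rw [← h]
      ring⟩)
    -- choice of `a`
    obtain ⟨a, haA, haB⟩ : ∃ a ∈ A, a ∉ (insert b U) ∪
        (((A.filter fun a : ℕ => K2 + (a : ZMod p) ∈ Y ∪ S) ∪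
          (A.filter fun a : ℕ => (K1 + (b : ZMod p)) + (a : ZMod p) ∈ Y ∪ S)) ∪
        ((A.filter fun a : ℕ => (a : ZMod p) = K3 - K1) ∪
          (A.filter fun a : ℕ => (a : ZMod p) = K3 + b - K2))) := by
      by_contra hcon
      push Not at hcon
      have e0 := Finset.card_le_card (show A ⊆ _ from fun a ha => hcon a ha)
      have e1 := Finset.card_union_le (insert b U)
        (((A.filter fun a : ℕ => K2 + (a : ZMod p) ∈ Y ∪ S) ∪
          (A.filter fun a : ℕ => (K1 + (b : ZMod p)) + (a : ZMod p) ∈ Y ∪ S)) ∪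
        ((A.filter fun a : ℕ => (a : ZMod p) = K3 - K1) ∪
          (A.filter fun a : ℕ => (a : ZMod p) = K3 + b - K2)))
      have e2 := Finset.card_union_le
        ((A.filter fun a : ℕ => K2 + (a : ZMod p) ∈ Y ∪ S) ∪
          (A.filter fun a : ℕ => (K1 + (b : ZMod p)) + (a : ZMod p) ∈ Y ∪ S))
        ((A.filter fun a : ℕ => (a : ZMod p) = K3 - K1) ∪
          (A.filter fun a : ℕ => (a : ZMod p) = K3 + b - K2))
      have e3 := Finset.card_union_le (A.filter fun a : ℕ => K2 + (a : ZMod p) ∈ Y ∪ S)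
          (A.filter fun a : ℕ => (K1 + (b : ZMod p)) + (a : ZMod p) ∈ Y ∪ S)
      have e4 := Finset.card_union_le (A.filter fun a : ℕ => (a : ZMod p) = K3 - K1)
          (A.filter fun a : ℕ => (a : ZMod p) = K3 + b - K2)
      have e5 := Trip_avoid A hA K2 (Y ∪ S)
      have e6 := Trip_avoid A hA (K1 + (b : ZMod p)) (Y ∪ S)
      have e7 := Trip_avoid_one A hA (K3 - K1)
      have e8 := Trip_avoid_one A hA (K3 + b - K2)
      have e9 := Finset.card_insert_le b U
      omega
    simp only [Finset.mem_union, not_or] at haB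
    obtain ⟨ha1, ⟨ha2, ha3⟩, ha4, ha5⟩ := haB
    rw [Finset.mem_insert, not_or] at ha1
    obtain ⟨hab', ha1⟩ := ha1
    have ha2' : K2 + (a : ZMod p) ∉ Y ∪ S := fun h =>
      ha2 (Finset.mem_filter.2 ⟨haA, Finset.mem_union.1 h⟩)
    have ha3' : K1 + (b : ZMod p) + (a : ZMod p) ∉ Y ∪ S :=
      fun h => ha3 (Finset.mem_filter.2 ⟨haA, Finset.mem_union.1 h⟩)
    have ha4' : K1 + (b : ZMod p) + (a : ZMod p) ≠ K3 + b := fun h =>
      ha4 (Finset.mem_filter.2 ⟨haA, by linear_combination h⟩)
    have ha5' : K2 + (a : ZMod p) ≠ K3 + b := fun h =>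
      ha5 (Finset.mem_filter.2 ⟨haA, by linear_combination h⟩)
    have hb4' : K1 + (b : ZMod p) + (a : ZMod p) ≠ K2 + a := fun h => hb3' (add_right_cancel h)
    -- the new labels
    set g' : Sym2 W → ℕ := Function.update (Function.update g s(x, y) a) s(x, z) b with hg'
    have ga : g' s(x, y) = a := by
      rw [hg', Function.update_of_ne hab, Function.update_self]
    have gb : g' s(x, z) = b := by rw [hg', Function.update_self]
    have go : ∀ e, e ≠ s(x, y) → e ≠ s(x, z) → g' e = g e := by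
      intro e he1 he2
      rw [hg', Function.update_of_ne he2, Function.update_of_ne he1]
    have gl : ∀ v ∈ l, ∀ e ∈ ({s(v.1, v.2.1), s(v.1, v.2.2)} : Finset (Sym2 W)), g' e = g e :=
      fun v hv e he => go e (hedge v hv e he).1 (hedge v hv e he).2
    -- the new sums
    have sl : ∀ v ∈ l, ∀ w ∈ ({v.1, v.2.1, v.2.2} : Finset W),
        c0 w + ∑ e ∈ edgesAt E w, (g' e : ZMod p) = sm w := by
      intro v hv w hw
      rw [hsm]
      congr 1
      refine Finset.sum_congr rfl fun e he => ?_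
      obtain ⟨h6, h7, h8⟩ := hdis v hv w hw
      have h9 : w ∈ e := (Finset.mem_filter.1 he).2
      rw [go e ?_ ?_]
      · rintro rfl
        rcases Sym2.mem_iff.1 h9 with h | h
        · exact h6 h
        · exact h7 h
      · rintro rfl
        rcases Sym2.mem_iff.1 h9 with h | h
        · exact h6 h
        · exact h8 h
    have sx : c0 x + ∑ e ∈ edgesAt E x, (g' e : ZMod p) = K1 + b + a := by
      have m1 : s(x, y) ∈ edgesAt E x := Finset.mem_filter.2 ⟨haE, Sym2.mem_mk_left _ _⟩
      have m2 : s(x, z) ∈ (edgesAt E x).erase s(x, y) :=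
        Finset.mem_erase.2 ⟨hab.symm, Finset.mem_filter.2 ⟨hbE, Sym2.mem_mk_left _ _⟩⟩
      rw [← Finset.add_sum_erase _ _ m1, ← Finset.add_sum_erase _ _ m2, ga, gb, hK1]
      have e1 : ∑ e ∈ ((edgesAt E x).erase s(x, y)).erase s(x, z), (g' e : ZMod p) =
          ∑ e ∈ ((edgesAt E x).erase s(x, y)).erase s(x, z), (g e : ZMod p) := by
        refine Finset.sum_congr rfl fun e he => ?_
        rw [go e (Finset.mem_erase.1 (Finset.mem_erase.1 he).2).1 (Finset.mem_erase.1 he).1]
      rw [e1]
      ring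
    have sy : c0 y + ∑ e ∈ edgesAt E y, (g' e : ZMod p) = K2 + a := by
      have m1 : s(x, y) ∈ edgesAt E y := Finset.mem_filter.2 ⟨haE, Sym2.mem_mk_right _ _⟩
      rw [← Finset.add_sum_erase _ _ m1, ga, hK2]
      have e1 : ∑ e ∈ (edgesAt E y).erase s(x, y), (g' e : ZMod p) =
          ∑ e ∈ (edgesAt E y).erase s(x, y), (g e : ZMod p) := by
        refine Finset.sum_congr rfl fun e he => ?_
        obtain ⟨he1, he2⟩ := Finset.mem_erase.1 he
        have h9 : y ∈ e := (Finset.mem_filter.1 he2).2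
        rw [go e he1]
        rintro rfl
        rcases Sym2.mem_iff.1 h9 with h | h
        · exact hxy h.symm
        · exact hyz h
      rw [e1]
      ring
    have sz : c0 z + ∑ e ∈ edgesAt E z, (g' e : ZMod p) = K3 + b := by
      have m1 : s(x, z) ∈ edgesAt E z := Finset.mem_filter.2 ⟨hbE, Sym2.mem_mk_right _ _⟩
      rw [← Finset.add_sum_erase _ _ m1, gb, hK3]
      have e1 : ∑ e ∈ (edgesAt E z).erase s(x, z), (g' e : ZMod p) =
          ∑ e ∈ (edgesAt E z).erase s(x, z), (g e : ZMod p) := by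
        refine Finset.sum_congr rfl fun e he => ?_
        obtain ⟨he1, he2⟩ := Finset.mem_erase.1 he
        have h9 : z ∈ e := (Finset.mem_filter.1 he2).2
        rw [go e ?_ he1]
        rintro rfl
        rcases Sym2.mem_iff.1 h9 with h | h
        · exact hxz h.symm
        · exact hyz h.symm
      rw [e1]
      ring
    -- the sums at the new triple
    have su : ∀ w ∈ ({x, y, z} : Finset W),
        (w = x ∧ c0 w + ∑ e ∈ edgesAt E w, (g' e : ZMod p) = K1 + b + a) ∨
        (w = y ∧ c0 w + ∑ e ∈ edgesAt E w, (g' e : ZMod p) = K2 + a) ∨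
        (w = z ∧ c0 w + ∑ e ∈ edgesAt E w, (g' e : ZMod p) = K3 + b) := by
      intro w hw
      rw [Finset.mem_insert, Finset.mem_insert, Finset.mem_singleton] at hw
      rcases hw with rfl | rfl | rfl
      · exact Or.inl ⟨rfl, sx⟩
      · exact Or.inr (Or.inl ⟨rfl, sy⟩)
      · exact Or.inr (Or.inr ⟨rfl, sz⟩)
    have suZ : ∀ w ∈ ({x, y, z} : Finset W),
        c0 w + ∑ e ∈ edgesAt E w, (g' e : ZMod p) ∉ Y ∪ S := by
      intro w hw
      rcases su w hw with ⟨-, h⟩ | ⟨-, h⟩ | ⟨-, h⟩
      · rw [h]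
        exact ha3'
      · rw [h]
        exact ha2'
      · rw [h]
        exact hb2'
    have gu : ∀ e ∈ ({s(x, y), s(x, z)} : Finset (Sym2 W)), g' e ∈ A ∧ g' e ∉ U := by
      intro e he
      rw [Finset.mem_insert, Finset.mem_singleton] at he
      rcases he with rfl | rfl
      · rw [ga]
        exact ⟨haA, ha1⟩
      · rw [gb]
        exact ⟨hbA, hb1⟩
    refine ⟨g', ?_, ?_, ?_, ?_, ?_⟩
    · intro e he
      obtain ⟨h6, h7⟩ : e ≠ s(x, y) ∧ e ≠ s(x, z) := he (x, y, z) List.mem_cons_self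
      rw [go e h6 h7]
      exact h1 e fun v hv => he v (List.mem_cons_of_mem _ hv)
    · intro v hv
      rcases List.mem_cons.1 hv with rfl | hv
      · exact ⟨(gu _ (by simp)).1, (gu _ (by simp)).1⟩
      · rw [gl v hv _ (by simp), gl v hv _ (by simp)]
        exact h2 v hv
    · intro v hv v' hv' e he e' he' hee
      rcases List.mem_cons.1 hv with rfl | hv <;> rcases List.mem_cons.1 hv' with rfl | hv'
      · have he2 : e = s(x, y) ∨ e = s(x, z) := by
          rw [Finset.mem_insert, Finset.mem_singleton] at he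
          exact he
        have he2' : e' = s(x, y) ∨ e' = s(x, z) := by
          rw [Finset.mem_insert, Finset.mem_singleton] at he'
          exact he'
        rcases he2 with h6 | h6 <;> rcases he2' with h7 | h7
        · rw [h6, h7]
        · rw [h6, h7, ga, gb] at hee
          exact absurd hee hab'
        · rw [h6, h7, ga, gb] at hee
          exact absurd hee.symm hab'
        · rw [h6, h7]
      · exfalso
        apply (gu e he).2
        rw [hee, gl v' hv' e' he']
        exact hUm v' hv' e' he'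
      · exfalso
        apply (gu e' he').2
        rw [← hee, gl v hv e he]
        exact hUm v hv e he
      · rw [gl v hv e he, gl v' hv' e' he'] at hee
        exact h3 v hv v' hv' e he e' he' hee
    · intro v hv w hw
      rcases List.mem_cons.1 hv with rfl | hv
      · exact fun h => suZ w hw (Finset.mem_union_left _ h)
      · rw [sl v hv w hw]
        exact h4 v hv w hw
    · intro v hv v' hv' w hw w' hw' hww
      rcases List.mem_cons.1 hv with rfl | hv <;> rcases List.mem_cons.1 hv' with rfl | hv'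
      · rcases su w hw with ⟨h6, h7⟩ | ⟨h6, h7⟩ | ⟨h6, h7⟩ <;>
          rcases su w' hw' with ⟨h8, h9⟩ | ⟨h8, h9⟩ | ⟨h8, h9⟩ <;> rw [h7, h9] at hww
        · rw [h6, h8]
        · exact absurd hww hb4'
        · exact absurd hww ha4'
        · exact absurd hww.symm hb4'
        · rw [h6, h8]
        · exact absurd hww ha5'
        · exact absurd hww.symm ha4'
        · exact absurd hww.symm ha5'
        · rw [h6, h8]
      · exfalso
        rw [sl v' hv' w' hw'] at hww
        apply suZ w hw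
        rw [hww]
        exact Finset.mem_union_right _ (hSm v' hv' w' hw')
      · exfalso
        rw [sl v hv w hw] at hww
        apply suZ w' hw'
        rw [← hww]
        exact Finset.mem_union_right _ (hSm v hv w hw)
      · rw [sl v hv w hw, sl v' hv' w' hw'] at hww
        exact h5 v hv v' hv' w hw w' hw' hww

end Pool.Agent.AMG
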