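import Pool.Agent.AMG.Trip
import Pool.Agent.AMG.Roots
import Pool.Agent.AMC.Tune
import Pool.Agent.AMC.Par

/-!
# Existence of tunable sets of edges
-/

set_option autoImplicit false

namespace Pool.Agent.AMG

open Finset Pool.Agent.AMF Pool.Agent.AMC

/-- **Tunable sets.** `P1` = vertices with all neighbours in `Z0`; `Xp ⊆ P1` some of them, `f v ∈ Z0` a
neighbour of `v ∈ Xp`. The set `T = Xp ∪ (W \ (P1 ∪ Z0))` is tunable by a set `E4` of at most `|T|` edges with
both ends in `T ∪ Z0`. Proof: `exists_roots` for `Z0`, `R3` = the set of vertices of the triples (they are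
not in `P1`, since their component does not meet `Z0`); `exists_par` with `Zb = Z0 ∪ R3`, `P' = P1`. `E4` = the
edges `s(v, f v)`, `v ∈ Xp`, the edges `s(x, par x)`, `x ∈ W \ (P1 ∪ Z0 ∪ R3)`, and the two edges of every triple.
Tuning: first `tune` (with `Y = ∅`) with the list of the pairs `(s(v, f v), v)` and `(s(x, par x), x)`, sorted by decreasing
`dp`, with half of `A`, then `triples` with the other half of `A` and `Y` = the sums at the vertices done (these
vertices are not on edges of triples). -/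
theorem exists_tunable {W : Type} [Fintype W] [DecidableEq W] (H : SimpleGraph W) [DecidableRel H.Adj]
    (hB : Big H) (Z0 P1 Xp : Finset W) (hd : Disjoint P1 Z0) (hP : ∀ v ∈ P1, ∀ z, H.Adj v z → z ∈ Z0)
    (hX : Xp ⊆ P1) (f : W → W) (hf : ∀ v ∈ Xp, H.Adj v (f v) ∧ f v ∈ Z0) (T : Finset W)
    (hT : T = Xp ∪ (univ \ (P1 ∪ Z0))) :
    ∃ E4 : Finset (Sym2 W), E4 ⊆ H.edgeFinset ∧ E4.card ≤ T.card ∧
      (∀ e ∈ E4, ∀ w ∈ e, w ∈ T ∨ w ∈ Z0) ∧ Tunable E4 T := by
  obtain ⟨lt, ht1, ht2, ht3, ht4⟩ := exists_roots H hB Z0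
  set tri : W × W × W → Finset W := fun u => {u.1, u.2.1, u.2.2} with htri
  have hmt : ∀ u : W × W × W, ∀ w, w ∈ tri u ↔ w = u.1 ∨ w = u.2.1 ∨ w = u.2.2 := by
    intro u w
    simp [htri]
  set R3 : Finset W := lt.toFinset.biUnion tri with hR3
  have hmR : ∀ w, w ∈ R3 ↔ ∃ u ∈ lt, w ∈ tri u := by
    intro w
    simp [hR3]
  have hreach : ∀ u ∈ lt, ∀ w ∈ tri u, H.Reachable u.1 w := by
    intro u hu w hw
    obtain ⟨h1, h2, _⟩ := ht1 u hu
    rcases (hmt u w).1 hw with h | h | h
    · rw [h]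
    · rw [h]; exact h1.reachable
    · rw [h]; exact h2.reachable
  have hRZ : ∀ w ∈ R3, w ∉ Z0 := by
    intro w hw hz
    obtain ⟨u, hu, hwu⟩ := (hmR w).1 hw
    exact ht3 u hu w hz (hreach u hu w hwu)
  have hRP : ∀ w ∈ R3, w ∉ P1 := by
    intro w hw hp
    obtain ⟨u, hu, hwu⟩ := (hmR w).1 hw
    obtain ⟨z, hz⟩ := hB.1 w
    exact ht3 u hu z (hP w hp z hz) ((hreach u hu w hwu).trans hz.reachable)
  have hpt : ∀ u ∈ lt, ∀ v ∈ lt, u ≠ v → Disjoint (tri u) (tri v) := by
    intro u hu v hv huv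
    have hsy : Std.Symm (fun u v : W × W × W => ¬ H.Reachable u.1 v.1) :=
      ⟨fun a b hab hba => hab hba.symm⟩
    have h1 : ¬ H.Reachable u.1 v.1 := ht2.forall hu hv huv
    rw [Finset.disjoint_left]
    intro w hw hw'
    exact h1 ((hreach u hu w hw).trans (hreach v hv w hw').symm)
  have hltnd : lt.Nodup := by
    refine ht2.imp ?_
    intro a b hab h
    exact hab (by rw [h])
  -- parents
  obtain ⟨par, dp, hpar⟩ := exists_par H P1 (Z0 ∪ R3) (by
      intro x
      rcases ht4 x with ⟨z, hz, hxz⟩ | ⟨u, hu, hxu⟩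
      · exact ⟨z, Finset.mem_union_left _ hz, hxz⟩
      · exact ⟨u.1, Finset.mem_union_right _ ((hmR _).2 ⟨u, hu, (hmt u _).2 (Or.inl rfl)⟩), hxu⟩)
    (by
      rw [Finset.disjoint_union_right]
      exact ⟨hd, Finset.disjoint_left.2 fun w hw hw' => hRP w hw' hw⟩)
    (fun v hv z hz => Finset.mem_union_left _ (hP v hv z hz))
  set D : Finset W := univ \ (P1 ∪ Z0 ∪ R3) with hD
  have hmD : ∀ w, w ∈ D ↔ w ∉ P1 ∧ w ∉ Z0 ∧ w ∉ R3 := by
    intro w
    simp only [hD, Finset.mem_sdiff, Finset.mem_univ, true_and, Finset.mem_union, not_or]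
    tauto
  set q : W → W := fun v => if v ∈ P1 then f v else par v with hq
  have hqX : ∀ v ∈ Xp, q v = f v := by
    intro v hv
    simp only [hq]
    rw [if_pos (hX hv)]
  have hqD : ∀ v ∈ D, q v = par v := by
    intro v hv
    simp only [hq]
    rw [if_neg ((hmD v).1 hv).1]
  have hparD : ∀ v ∈ D, H.Adj v (par v) ∧ par v ∉ P1 ∧ dp (par v) < dp v := by
    intro v hv
    obtain ⟨h1, h2, h3⟩ := (hmD v).1 hv
    exact hpar v h1 (by rw [Finset.mem_union, not_or]; exact ⟨h2, h3⟩)
  set B : Finset W := Xp ∪ D with hBd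
  have hBR : ∀ v ∈ B, v ∉ R3 := by
    intro v hv hv'
    rcases Finset.mem_union.1 hv with h | h
    · exact hRP v hv' (hX h)
    · exact ((hmD v).1 h).2.2 hv'
  have hBZ : ∀ v ∈ B, v ∉ Z0 := by
    intro v hv hv'
    rcases Finset.mem_union.1 hv with h | h
    · exact Finset.disjoint_left.1 hd (hX h) hv'
    · exact ((hmD v).1 h).2.1 hv'
  have hadj : ∀ v ∈ B, H.Adj v (q v) := by
    intro v hv
    rcases Finset.mem_union.1 hv with h | h
    · rw [hqX v h]; exact (hf v h).1
    · rw [hqD v h]; exact (hparD v h).1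
  have hTm : ∀ w, w ∈ T ↔ w ∈ B ∨ w ∈ R3 := by
    intro w
    rw [hT, hBd]
    simp only [Finset.mem_union, Finset.mem_sdiff, Finset.mem_univ, true_and, not_or, hmD]
    constructor
    · rintro (h | ⟨h1, h2⟩)
      · exact Or.inl (Or.inl h)
      · by_cases h3 : w ∈ R3
        · exact Or.inr h3
        · exact Or.inl (Or.inr ⟨h1, h2, h3⟩)
    · rintro ((h | ⟨h1, h2, _⟩) | h)
      · exact Or.inl h
      · exact Or.inr ⟨h1, h2⟩
      · exact Or.inr ⟨hRP w h, hRZ w h⟩
  have hqT : ∀ v ∈ B, q v ∈ T ∨ q v ∈ Z0 := by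
    intro v hv
    rcases Finset.mem_union.1 hv with h | h
    · rw [hqX v h]; exact Or.inr (hf v h).2
    · rw [hqD v h]
      by_cases hz : par v ∈ Z0
      · exact Or.inr hz
      · refine Or.inl ?_
        rw [hT]
        refine Finset.mem_union_right _ ?_
        simp only [Finset.mem_sdiff, Finset.mem_univ, true_and, Finset.mem_union, not_or]
        exact ⟨(hparD v h).2.1, hz⟩
  -- the list of the vertices of `B`, sorted
  obtain ⟨L, hLB, hLnd, hLs⟩ : ∃ L : List W, (∀ w, w ∈ L ↔ w ∈ B) ∧ L.Nodup ∧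
      L.Pairwise (fun a b => a ∉ s(b, q b)) := by
    obtain ⟨L, hL1, hL2⟩ : ∃ L : List W, L.Perm B.toList ∧ L.Pairwise (fun a b => dp b ≤ dp a) := by
      refine ⟨B.toList.insertionSort (fun a b => dp b ≤ dp a), List.perm_insertionSort _ _, ?_⟩
      have : Std.Total (fun a b : W => dp b ≤ dp a) := ⟨fun a b => le_total (dp b) (dp a)⟩
      have : IsTrans W (fun a b : W => dp b ≤ dp a) := ⟨fun a b c h1 h2 => le_trans h2 h1⟩
      exact List.pairwise_insertionSort _ _
    have hmem : ∀ w, w ∈ L ↔ w ∈ B := by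
      intro w
      rw [hL1.mem_iff, Finset.mem_toList]
    have hnd : L.Nodup := hL1.nodup_iff.2 (Finset.nodup_toList B)
    refine ⟨L, hmem, hnd, ?_⟩
    have h3 := hL2.and hnd
    refine h3.imp_of_mem ?_
    rintro a b ha hb ⟨h4, h5⟩ h6
    rcases Sym2.mem_iff.1 h6 with h7 | h7
    · exact h5 h7
    · have hb' := (hmem b).1 hb
      have ha' := (hmem a).1 ha
      rcases Finset.mem_union.1 hb' with h8 | h8
      · rw [hqX b h8] at h7
        exact hBZ a ha' (h7 ▸ (hf b h8).2)
      · rw [hqD b h8] at h7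
        have := (hparD b h8).2.2
        rw [← h7] at this
        omega
  set l : List (Sym2 W × W) := L.map (fun v => (s(v, q v), v)) with hl
  have hlfst : l.map Prod.fst = L.map (fun v => s(v, q v)) := by
    rw [hl, List.map_map]
    rfl
  set EL : Finset (Sym2 W) := (L.map (fun v => s(v, q v))).toFinset with hEL
  set E3 : Finset (Sym2 W) := lt.toFinset.biUnion (fun u => {s(u.1, u.2.1), s(u.1, u.2.2)}) with hE3
  have hmEL : ∀ e, e ∈ EL ↔ ∃ v ∈ B, e = s(v, q v) := by
    intro e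
    rw [hEL, List.mem_toFinset, List.mem_map]
    constructor
    · rintro ⟨v, hv, rfl⟩
      exact ⟨v, (hLB v).1 hv, rfl⟩
    · rintro ⟨v, hv, rfl⟩
      exact ⟨v, (hLB v).2 hv, rfl⟩
  have hmE3 : ∀ e, e ∈ E3 ↔ ∃ u ∈ lt, e = s(u.1, u.2.1) ∨ e = s(u.1, u.2.2) := by
    intro e
    simp [hE3]
  have hE3R : ∀ e ∈ E3, ∀ w ∈ e, w ∈ R3 := by
    intro e he w hw
    obtain ⟨u, hu, h | h⟩ := (hmE3 e).1 he
    · rw [h, Sym2.mem_iff] at hw
      refine (hmR w).2 ⟨u, hu, (hmt u w).2 ?_⟩
      tauto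
    · rw [h, Sym2.mem_iff] at hw
      refine (hmR w).2 ⟨u, hu, (hmt u w).2 ?_⟩
      tauto
  have hdis : ∀ e ∈ EL, e ∉ E3 := by
    intro e he he3
    obtain ⟨v, hv, rfl⟩ := (hmEL e).1 he
    exact hBR v hv (hE3R _ he3 v (Sym2.mem_mk_left _ _))
  have hLB' : L.length = B.card := by
    rw [← List.toFinset_card_of_nodup hLnd]
    congr 1
    ext w
    rw [List.mem_toFinset, hLB]
  have hR3c : R3.card = 3 * lt.length := by
    rw [hR3, Finset.card_biUnion]
    · have h1 : ∀ u ∈ lt.toFinset, (tri u).card = 3 := by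
        intro u hu
        obtain ⟨h1, h2, h3⟩ := ht1 u (List.mem_toFinset.1 hu)
        simp only [htri]
        exact Finset.card_eq_three.2 ⟨u.1, u.2.1, u.2.2, h1.ne, h2.ne, h3, rfl⟩
      rw [Finset.sum_congr rfl h1, Finset.sum_const, List.toFinset_card_of_nodup hltnd,
        smul_eq_mul, Nat.mul_comm]
    · intro u hu v hv huv
      exact hpt u (List.mem_toFinset.1 hu) v (List.mem_toFinset.1 hv) huv
  have hTc : T.card = L.length + 3 * lt.length := by
    have h1 : T = B ∪ R3 := by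
      ext w
      rw [hTm]
      exact Finset.mem_union.symm
    rw [h1, Finset.card_union_of_disjoint (Finset.disjoint_left.2 hBR), hLB', hR3c]
  have hELc : EL.card ≤ L.length := by
    refine (List.toFinset_card_le _).trans ?_
    simp
  have hE3c : E3.card ≤ 2 * lt.length := by
    rw [hE3]
    refine Finset.card_biUnion_le.trans ?_
    refine (Finset.sum_le_card_nsmul _ _ 2 fun u _ => Finset.card_le_two).trans ?_
    rw [smul_eq_mul, Nat.mul_comm]
    exact Nat.mul_le_mul_left _ (List.toFinset_card_le _)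
  refine ⟨EL ∪ E3, ?_, ?_, ?_, ?_⟩
  · intro e he
    rw [SimpleGraph.mem_edgeFinset]
    rcases Finset.mem_union.1 he with h | h
    · obtain ⟨v, hv, rfl⟩ := (hmEL e).1 h
      exact hadj v hv
    · obtain ⟨u, hu, h | h⟩ := (hmE3 e).1 h
      · rw [h]; exact (ht1 u hu).1
      · rw [h]; exact (ht1 u hu).2.1
  · refine (Finset.card_union_le _ _).trans ?_
    omega
  · intro e he w hw
    rcases Finset.mem_union.1 he with h | h
    · obtain ⟨v, hv, rfl⟩ := (hmEL e).1 h
      rcases Sym2.mem_iff.1 hw with h1 | h1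
      · rw [h1]; exact Or.inl ((hTm v).2 (Or.inl hv))
      · rw [h1]; exact hqT v hv
    · exact Or.inl ((hTm w).2 (Or.inr (hE3R e h w hw)))
  · intro E' hE' p _ c0 g0 A hA hAc
    obtain ⟨A1, hA1, hA1c⟩ := Finset.exists_subset_card_eq
      (show 2 * L.length ≤ A.card by omega)
    have hlmem : ∀ u ∈ l, u.2 ∈ B ∧ u.1 = s(u.2, q u.2) := by
      intro u hu
      rw [hl, List.mem_map] at hu
      obtain ⟨v, hv, rfl⟩ := hu
      exact ⟨(hLB v).1 hv, rfl⟩
    have hlB : ∀ v ∈ B, (s(v, q v), v) ∈ l := by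
      intro v hv
      rw [hl, List.mem_map]
      exact ⟨v, (hLB v).2 hv, rfl⟩
    have hfstEL : ∀ e, e ∈ l.map Prod.fst ↔ e ∈ EL := by
      intro e
      rw [hlfst, hEL, List.mem_toFinset]
    obtain ⟨g1, h11, h12, h13, -, h15⟩ := tune p c0 E' l (by
        intro u hu
        obtain ⟨h1, h2⟩ := hlmem u hu
        rw [h2]
        refine ⟨hE' (Finset.mem_union_left _ ((hmEL _).2 ⟨u.2, h1, rfl⟩)), Sym2.mem_mk_left _ _⟩)
      (by
        rw [hl, List.pairwise_map]
        exact hLs)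
      (by
        rw [hlfst]
        unfold List.Nodup
        rw [List.pairwise_map]
        refine hLs.imp ?_
        intro a b hab h
        exact hab (h ▸ Sym2.mem_mk_left _ _))
      g0 A1 (fun a ha b hb hab => hA a (hA1 ha) b (hA1 hb) hab) ∅ (by
        rw [hl, List.length_map, Finset.card_empty]
        omega)
    set Y : Finset (ZMod p) := B.image (fun v => c0 v + ∑ e ∈ edgesAt E' v, (g1 e : ZMod p)) with hY
    have hYc : Y.card ≤ L.length := by
      rw [hLB']
      exact Finset.card_image_le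
    obtain ⟨g, h21, h22, h23, h24, h25⟩ := triples p c0 E' lt (by
        intro u hu
        exact ⟨hE' (Finset.mem_union_right _ ((hmE3 _).2 ⟨u, hu, Or.inl rfl⟩)),
          hE' (Finset.mem_union_right _ ((hmE3 _).2 ⟨u, hu, Or.inr rfl⟩))⟩)
      (by
        intro u hu
        obtain ⟨h1, h2, h3⟩ := ht1 u hu
        exact ⟨h1.ne, h2.ne, h3⟩)
      (by
        have h3 := ht2.and hltnd
        refine h3.imp_of_mem ?_
        rintro a b ha hb ⟨_, h5⟩
        exact hpt a ha b hb h5)
      g1 (A \ A1) (by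
        intro a ha b hb hab
        exact hA a (Finset.mem_sdiff.1 ha).1 b (Finset.mem_sdiff.1 hb).1 hab)
      Y (by
        rw [Finset.card_sdiff_of_subset hA1]
        omega)
    have hg3 : ∀ e, e ∉ E3 → g e = g1 e := by
      intro e he
      refine h21 e ?_
      intro u hu
      refine ⟨fun h => he ((hmE3 e).2 ⟨u, hu, Or.inl h⟩), fun h => he ((hmE3 e).2 ⟨u, hu, Or.inr h⟩)⟩
    have hg3A : ∀ e ∈ E3, g e ∈ A \ A1 := by
      intro e he
      obtain ⟨u, hu, h | h⟩ := (hmE3 e).1 he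
      · rw [h]; exact (h22 u hu).1
      · rw [h]; exact (h22 u hu).2
    have hgLA : ∀ e ∈ EL, g e ∈ A1 := by
      intro e he
      rw [hg3 e (hdis e he)]
      exact h12 e ((hfstEL e).2 he)
    have hsum : ∀ v ∈ B, ∑ e ∈ edgesAt E' v, (g e : ZMod p) = ∑ e ∈ edgesAt E' v, (g1 e : ZMod p) := by
      intro v hv
      refine Finset.sum_congr rfl fun e he => ?_
      rw [hg3 e ?_]
      intro h3
      exact hBR v hv (hE3R e h3 v (Finset.mem_filter.1 he).2)
    refine ⟨g, ?_, ?_, ?_, ?_⟩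
    · intro e he
      rw [Finset.mem_union, not_or] at he
      rw [hg3 e he.2]
      exact h11 e (fun h => he.1 ((hfstEL e).1 h))
    · intro e he
      rcases Finset.mem_union.1 he with h | h
      · exact hA1 (hgLA e h)
      · exact (Finset.mem_sdiff.1 (hg3A e h)).1
    · intro e he e' he' hee
      rcases Finset.mem_union.1 (Finset.mem_coe.1 he) with h | h <;>
        rcases Finset.mem_union.1 (Finset.mem_coe.1 he') with h' | h'
      · rw [hg3 e (hdis e h), hg3 e' (hdis e' h')] at hee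
        exact h13 e ((hfstEL e).2 h) e' ((hfstEL e').2 h') hee
      · exact absurd (hee ▸ hgLA e h) (Finset.mem_sdiff.1 (hg3A e' h')).2
      · exact absurd (hee.symm ▸ hgLA e' h') (Finset.mem_sdiff.1 (hg3A e h)).2
      · obtain ⟨u, hu, hu'⟩ := (hmE3 e).1 h
        obtain ⟨v, hv, hv'⟩ := (hmE3 e').1 h'
        refine h23 u hu v hv e ?_ e' ?_ hee
        · rw [Finset.mem_insert, Finset.mem_singleton]; exact hu'
        · rw [Finset.mem_insert, Finset.mem_singleton]; exact hv'
    · intro v hv w hw hvw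
      rcases (hTm v).1 hv with h | h <;> rcases (hTm w).1 hw with h' | h'
      · rw [hsum v h, hsum w h'] at hvw
        have h1 := h15 _ (hlB v h) _ (hlB w h') hvw
        exact congrArg Prod.snd h1
      · exfalso
        obtain ⟨u, hu, hwu⟩ := (hmR w).1 h'
        refine h24 u hu w hwu ?_
        rw [← hvw, hsum v h]
        exact Finset.mem_image_of_mem (fun v => c0 v + ∑ e ∈ edgesAt E' v, (g1 e : ZMod p)) h
      · exfalso
        obtain ⟨u, hu, hwu⟩ := (hmR v).1 h
        refine h24 u hu v hwu ?_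
        rw [hvw, hsum w h']
        exact Finset.mem_image_of_mem (fun v => c0 v + ∑ e ∈ edgesAt E' v, (g1 e : ZMod p)) h'
      · obtain ⟨u, hu, hvu⟩ := (hmR v).1 h
        obtain ⟨u', hu', hwu'⟩ := (hmR w).1 h'
        exact h25 u hu u' hu' v hvu w hwu' hvw

end Pool.Agent.AMG
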